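import Mathlib

/-!
Transversality for functions with bounded positive curvature.
-/

set_option autoImplicit false

namespace Pool.Agent.W2helper10.MW

/-- the transversality property of an integer valued phase on `[X0, X1]` with curvature in `[κ, K]` -/
def Tr (φ : ℤ → ℤ) (X0 X1 : ℤ) (κ K : ℝ) : Prop :=
  ∀ n1 n2 m1 m2 m3 m4 a : ℤ, ∀ D R : ℝ, 0 ≤ D → 0 ≤ R →
    X0 ≤ n1 → n2 ≤ X1 → X0 ≤ a → a ≤ X1 → n1 < n2 → n1 + m1 + m2 = n2 + m3 + m4 →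
    (∀ m : ℤ, m = m1 ∨ m = m2 ∨ m = m3 ∨ m = m4 → X0 ≤ m ∧ m ≤ X1) →
    (((∀ m : ℤ, m = m1 ∨ m = m2 ∨ m = m3 ∨ m = m4 → a ≤ m ∧ (m : ℝ) ≤ a + R) ∧ (n2 : ℝ) + D ≤ a) ∨
     ((∀ m : ℤ, m = m1 ∨ m = m2 ∨ m = m3 ∨ m = m4 → m ≤ a ∧ (a : ℝ) - R ≤ m) ∧ (a : ℝ) + D ≤ n1)) →
    κ * D * ((n2 : ℝ) - n1) - 2 * K * R ^ 2 ≤
      |(φ n1 : ℝ) + φ m1 + φ m2 - φ n2 - φ m3 - φ m4|

lemma mvt_bounds (f f' : ℝ → ℝ) (x y : ℝ) (hxy : x ≤ y) (hf : ∀ z, x ≤ z → z ≤ y → HasDerivAt f (f' z) z)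
    (hm : ∀ z, x ≤ z → z ≤ y → f' x ≤ f' z ∧ f' z ≤ f' y) :
    f' x * (y - x) ≤ f y - f x ∧ f y - f x ≤ f' y * (y - x) := by
  rcases hxy.eq_or_lt with rfl | hlt
  · simp
  obtain ⟨z, ⟨hz1, hz2⟩, hz⟩ := exists_hasDerivAt_eq_slope f f' hlt
    (fun z hz => (hf z hz.1 hz.2).continuousAt.continuousWithinAt)
    (fun z hz => hf z hz.1.le hz.2.le)
  have h1 : f y - f x = f' z * (y - x) := by
    rw [hz]; field_simp [sub_ne_zero.2 hlt.ne']
  have h2 := hm z hz1.le hz2.le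
  have h3 : 0 ≤ y - x := by linarith
  rw [h1]
  exact ⟨mul_le_mul_of_nonneg_right h2.1 h3, mul_le_mul_of_nonneg_right h2.2 h3⟩

theorem tr_of (φ : ℤ → ℤ) (X0 X1 : ℤ) (κ K : ℝ) (hκ : 0 ≤ κ) (f f' : ℝ → ℝ)
    (hφ : ∀ n : ℤ, X0 ≤ n → n ≤ X1 → f n = φ n)
    (hf : ∀ z : ℝ, (X0 : ℝ) ≤ z → z ≤ X1 → HasDerivAt f (f' z) z)
    (h1 : ∀ x y : ℝ, (X0 : ℝ) ≤ x → x ≤ y → y ≤ X1 → κ * (y - x) ≤ f' y - f' x ∧ f' y - f' x ≤ K * (y - x)) :
    Tr φ X0 X1 κ K := by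
  intro n1 n2 m1 m2 m3 m4 a D R hD hR hn1 hn2 ha0 ha1 hn hs hm hc
  have hmono : ∀ x y : ℝ, (X0 : ℝ) ≤ x → x ≤ y → y ≤ X1 → f' x ≤ f' y := by
    intro x y hx hxy hy
    have := (h1 x y hx hxy hy).1
    have h2 : 0 ≤ κ * (y - x) := mul_nonneg hκ (by linarith)
    linarith
  have hb : ∀ x y : ℝ, (X0 : ℝ) ≤ x → x ≤ y → y ≤ X1 →
      f' x * (y - x) ≤ f y - f x ∧ f y - f x ≤ f' y * (y - x) := by
    intro x y hx hxy hy
    refine mvt_bounds f f' x y hxy (fun z hz1 hz2 => hf z (hx.trans hz1) (hz2.trans hy)) ?_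
    intro z hz1 hz2
    exact ⟨hmono x z hx hz1 (hz2.trans hy), hmono z y (hx.trans hz1) hz2 hy⟩
  have hn' : (n1 : ℝ) < n2 := by exact_mod_cast hn
  have hX1 : (X0 : ℝ) ≤ n1 := by exact_mod_cast hn1
  have hX2 : (n2 : ℝ) ≤ X1 := by exact_mod_cast hn2
  have hX3 : (X0 : ℝ) ≤ a := by exact_mod_cast ha0
  have hX4 : (a : ℝ) ≤ X1 := by exact_mod_cast ha1
  have hs' : (n1 : ℝ) + m1 + m2 = n2 + m3 + m4 := by exact_mod_cast hs
  rw [← hφ n1 hn1 (by omega), ← hφ n2 (by omega) hn2, ← hφ m1 (hm m1 (by simp)).1 (hm m1 (by simp)).2,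
    ← hφ m2 (hm m2 (by simp)).1 (hm m2 (by simp)).2, ← hφ m3 (hm m3 (by simp)).1 (hm m3 (by simp)).2,
    ← hφ m4 (hm m4 (by simp)).1 (hm m4 (by simp)).2]
  have hn12 := hb n1 n2 hX1 hn'.le hX2
  rcases hc with ⟨hc, hda⟩ | ⟨hc, hda⟩
  · -- left
    have hR1 : ∀ m : ℤ, (m = m1 ∨ m = m2 ∨ m = m3 ∨ m = m4) →
        0 ≤ f m - f a - f' a * (m - a) ∧ f m - f a - f' a * (m - a) ≤ K * R ^ 2 := by
      intro m hmm
      obtain ⟨h2, h3⟩ := hc m hmm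
      obtain ⟨h4, h5⟩ := hm m hmm
      have h2' : (a : ℝ) ≤ m := by exact_mod_cast h2
      have h5' : (m : ℝ) ≤ X1 := by exact_mod_cast h5
      have h6 := hb a m hX3 h2' h5'
      have h7 := (h1 a m hX3 h2' h5').2
      have h8 : 0 ≤ (m : ℝ) - a := by linarith
      have h7' := (h1 a m hX3 h2' h5').1
      refine ⟨by linarith [h6.1], ?_⟩
      have h9 : f m - f a - f' a * (m - a) ≤ K * (m - a) ^ 2 := by
        have := mul_le_mul_of_nonneg_right h7 h8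
        nlinarith [h6.2]
      refine h9.trans ?_
      have h10 : (m : ℝ) - a ≤ R := by linarith
      rcases le_or_gt 0 K with hK | hK
      · have := pow_le_pow_left₀ h8 h10 2
        exact mul_le_mul_of_nonneg_left this hK
      · -- then `m = a`
        rcases h8.eq_or_lt with h11 | h11
        · have h12 := h1 n1 n2 hX1 hn'.le hX2
          have : κ * ((n2 : ℝ) - n1) ≤ K * (n2 - n1) := h12.1.trans h12.2
          have h13 : 0 < (n2 : ℝ) - n1 := by linarith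
          nlinarith [mul_nonneg hκ h13.le, mul_neg_of_neg_of_pos hK h13]
        · have h12 := h1 n1 n2 hX1 hn'.le hX2
          have : κ * ((n2 : ℝ) - n1) ≤ K * (n2 - n1) := h12.1.trans h12.2
          have h13 : 0 < (n2 : ℝ) - n1 := by linarith
          nlinarith [mul_nonneg hκ h13.le, mul_neg_of_neg_of_pos hK h13]
    have r1 := hR1 m1 (by simp)
    have r2 := hR1 m2 (by simp)
    have r3 := hR1 m3 (by simp)
    have r4 := hR1 m4 (by simp)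
    have h2 : f' n2 ≤ f' a - κ * D := by
      have := (h1 n2 a (by linarith) (by linarith) hX4).1
      have h3 : κ * D ≤ κ * (a - n2) := mul_le_mul_of_nonneg_left (by linarith) hκ
      linarith
    have h3 : f' n2 * (n2 - n1) ≤ (f' a - κ * D) * (n2 - n1) :=
      mul_le_mul_of_nonneg_right h2 (by linarith)
    refine le_trans ?_ (le_abs_self _)
    have h4 : f' a * (m1 - a) + f' a * (m2 - a) - f' a * (m3 - a) - f' a * (m4 - a) = f' a * (n2 - n1) := by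
      have : (m1 : ℝ) + m2 - m3 - m4 = n2 - n1 := by linarith
      rw [← this]; ring
    nlinarith [hn12.2]
  · have hR1 : ∀ m : ℤ, (m = m1 ∨ m = m2 ∨ m = m3 ∨ m = m4) →
        0 ≤ f m - f a - f' a * (m - a) ∧ f m - f a - f' a * (m - a) ≤ K * R ^ 2 := by
      intro m hmm
      obtain ⟨h2, h3⟩ := hc m hmm
      obtain ⟨h4, h5⟩ := hm m hmm
      have h2' : (m : ℝ) ≤ a := by exact_mod_cast h2
      have h4' : (X0 : ℝ) ≤ m := by exact_mod_cast h4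
      have h6 := hb m a h4' h2' hX4
      have h7 := (h1 m a h4' h2' hX4).2
      have h8 : 0 ≤ (a : ℝ) - m := by linarith
      refine ⟨by nlinarith [h6.2], ?_⟩
      have h9 : f m - f a - f' a * (m - a) ≤ K * (a - m) ^ 2 := by
        have := mul_le_mul_of_nonneg_right h7 h8
        nlinarith [h6.1]
      refine h9.trans ?_
      have h10 : (a : ℝ) - m ≤ R := by linarith
      have hK : 0 ≤ K := by
        have h12 := h1 n1 n2 hX1 hn'.le hX2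
        have : κ * ((n2 : ℝ) - n1) ≤ K * (n2 - n1) := h12.1.trans h12.2
        have h13 : 0 < (n2 : ℝ) - n1 := by linarith
        by_contra hK
        push Not at hK
        nlinarith [mul_nonneg hκ h13.le, mul_neg_of_neg_of_pos hK h13]
      have := pow_le_pow_left₀ h8 h10 2
      exact mul_le_mul_of_nonneg_left this hK
    have r1 := hR1 m1 (by simp)
    have r2 := hR1 m2 (by simp)
    have r3 := hR1 m3 (by simp)
    have r4 := hR1 m4 (by simp)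
    have h2 : f' a + κ * D ≤ f' n1 := by
      have := (h1 a n1 hX3 (by linarith) (by linarith)).1
      have h3 : κ * D ≤ κ * (n1 - a) := mul_le_mul_of_nonneg_left (by linarith) hκ
      linarith
    have h3 : (f' a + κ * D) * (n2 - n1) ≤ f' n1 * (n2 - n1) :=
      mul_le_mul_of_nonneg_right h2 (by linarith)
    rw [← abs_neg]
    refine le_trans ?_ (le_abs_self _)
    have h4 : f' a * (m1 - a) + f' a * (m2 - a) - f' a * (m3 - a) - f' a * (m4 - a) = f' a * (n2 - n1) := by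
      have : (m1 : ℝ) + m2 - m3 - m4 = n2 - n1 := by linarith
      rw [← this]; ring
    nlinarith [hn12.1]

theorem tr_pow (k : ℕ) (hk : 2 ≤ k) (X0 X1 : ℤ) (h0 : 0 ≤ X0) :
    Tr (fun n => n ^ k) X0 X1 ((k : ℝ) * (k - 1) * (X0 : ℝ) ^ (k - 2)) ((k : ℝ) * (k - 1) * (X1 : ℝ) ^ (k - 2)) := by
  obtain ⟨j, rfl⟩ : ∃ j, k = j + 2 := ⟨k - 2, by omega⟩
  have h0' : (0 : ℝ) ≤ X0 := by exact_mod_cast h0
  have hj : (0 : ℝ) ≤ ((j + 2 : ℕ) : ℝ) * (((j + 2 : ℕ) : ℝ) - 1) := by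
    have : (0 : ℝ) ≤ j := Nat.cast_nonneg j
    push_cast
    nlinarith
  refine tr_of _ X0 X1 _ _ (by positivity) (fun x => x ^ (j + 2)) (fun x => ((j + 2 : ℕ) : ℝ) * x ^ (j + 1)) ?_ ?_ ?_
  · intro n _ _; push_cast; rfl
  · intro z _ _
    have := hasDerivAt_pow (j + 2) z
    simpa using this
  · intro x y hx hxy hy
    have hx0 : 0 ≤ x := h0'.trans hx
    have h2 := mvt_bounds (fun x => x ^ (j + 1)) (fun x => ((j + 1 : ℕ) : ℝ) * x ^ j) x y hxy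
      (fun z _ _ => by have := hasDerivAt_pow (j + 1) z; simpa using this)
      (fun z hz1 hz2 => ⟨by gcongr, by
        have : 0 ≤ z := hx0.trans hz1
        gcongr⟩)
    have h3 : (X0 : ℝ) ^ j ≤ x ^ j := pow_le_pow_left₀ h0' hx j
    have h4 : y ^ j ≤ (X1 : ℝ) ^ j := pow_le_pow_left₀ (hx0.trans hxy) hy j
    have h5 : 0 ≤ y - x := by linarith
    have e1 : j + 2 - 2 = j := by omega
    rw [e1]
    have e2 : ((j + 2 : ℕ) : ℝ) - 1 = ((j + 1 : ℕ) : ℝ) := by push_cast; ring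
    rw [e2]
    have hj2 : (0 : ℝ) ≤ ((j + 2 : ℕ) : ℝ) := by positivity
    constructor
    · calc ((j + 2 : ℕ) : ℝ) * ((j + 1 : ℕ) : ℝ) * (X0 : ℝ) ^ j * (y - x)
          = ((j + 2 : ℕ) : ℝ) * (((j + 1 : ℕ) : ℝ) * (X0 : ℝ) ^ j * (y - x)) := by ring
        _ ≤ ((j + 2 : ℕ) : ℝ) * (((j + 1 : ℕ) : ℝ) * x ^ j * (y - x)) := by gcongr
        _ ≤ ((j + 2 : ℕ) : ℝ) * (y ^ (j + 1) - x ^ (j + 1)) := by gcongr; exact h2.1
        _ = _ := by ring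
    · calc ((j + 2 : ℕ) : ℝ) * y ^ (j + 1) - ((j + 2 : ℕ) : ℝ) * x ^ (j + 1)
          = ((j + 2 : ℕ) : ℝ) * (y ^ (j + 1) - x ^ (j + 1)) := by ring
        _ ≤ ((j + 2 : ℕ) : ℝ) * (((j + 1 : ℕ) : ℝ) * y ^ j * (y - x)) := by gcongr; exact h2.2
        _ ≤ ((j + 2 : ℕ) : ℝ) * (((j + 1 : ℕ) : ℝ) * (X1 : ℝ) ^ j * (y - x)) := by gcongr
        _ = _ := by ring

end Pool.Agent.W2helper10.MW
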