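import Pool.Agent.W2helper10.MW.Exp
import Pool.Agent.W2helper10.MW.Tr

/-!
Exponential sums with curved phases over blocks satisfy the orthogonality property; decoupling for them.
-/

set_option autoImplicit false

namespace Pool.Agent.W2helper10.MW

open MeasureTheory Finset
open Pool.Agent.W928.MW (e e_add e_norm e_cont)
open Pool.Agent.TH181.MX (e_conj)

/-- characters with coefficients -/
noncomputable def ex (φ : ℤ → ℤ) (c : ℤ → ℂ) (n : ℤ) (ω : ℝ × ℝ) : ℂ :=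
  c n * e ((φ n : ℝ) * ω.1 + (n : ℝ) * ω.2)

/-- sums over `L` consecutive integers -/
noncomputable def Sx (φ : ℤ → ℤ) (c : ℤ → ℂ) (x : ℤ) (L : ℕ) (ω : ℝ × ℝ) : ℂ :=
  ∑ i ∈ range L, ex φ c (x + i) ω

/-- blocks of length `L` -/
noncomputable def gB (φ : ℤ → ℤ) (c : ℤ → ℂ) (x : ℤ) (L b : ℕ) : ℝ × ℝ → ℂ :=
  Sx φ c (x + ((b * L : ℕ) : ℤ)) L

lemma nc_ex (φ : ℤ → ℤ) (c : ℤ → ℂ) (n : ℤ) : Nc (ex φ c n) := (Nc.constC (c n)).mulC (nc_e _ _)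

lemma nc_Sx (φ : ℤ → ℤ) (c : ℤ → ℂ) (x : ℤ) (L : ℕ) : Nc (Sx φ c x L) := Nc.sumC _ fun i _ => nc_ex _ _ _

lemma nc_gB (φ : ℤ → ℤ) (c : ℤ → ℂ) (x : ℤ) (L b : ℕ) : Nc (gB φ c x L b) := nc_Sx _ _ _ _

lemma F_gB (φ : ℤ → ℤ) (c : ℤ → ℂ) (x : ℤ) (L p r : ℕ) (ω : ℝ × ℝ) :
    F (gB φ c x L) p r ω = Sx φ c (x + ((p * L : ℕ) : ℤ)) (r * L) ω := by
  unfold F gB Sx
  rw [sum_range_split]
  refine Finset.sum_congr rfl fun u _ => Finset.sum_congr rfl fun i _ => ?_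
  congr 1
  push_cast; ring

/-- the product of six characters -/
lemma six (φ : ℤ → ℤ) (c : ℤ → ℂ) (n1 n2 m1 m2 m3 m4 : ℤ) (ω : ℝ × ℝ) :
    ex φ c n1 ω * (starRingEnd ℂ) (ex φ c n2 ω) *
      (ex φ c m1 ω * ex φ c m2 ω * (starRingEnd ℂ) (ex φ c m3 ω) * (starRingEnd ℂ) (ex φ c m4 ω)) =
    (c n1 * (starRingEnd ℂ) (c n2) * (c m1 * c m2 * (starRingEnd ℂ) (c m3) * (starRingEnd ℂ) (c m4))) *
      e (((φ n1 + φ m1 + φ m2 - φ n2 - φ m3 - φ m4 : ℤ) : ℝ) * ω.1 +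
        ((n1 + m1 + m2 - n2 - m3 - m4 : ℤ) : ℝ) * ω.2) := by
  unfold ex
  simp only [map_mul, e_conj]
  have h : e (((φ n1 + φ m1 + φ m2 - φ n2 - φ m3 - φ m4 : ℤ) : ℝ) * ω.1 +
        ((n1 + m1 + m2 - n2 - m3 - m4 : ℤ) : ℝ) * ω.2) =
      e ((φ n1 : ℝ) * ω.1 + (n1 : ℝ) * ω.2) * e (-((φ n2 : ℝ) * ω.1 + (n2 : ℝ) * ω.2)) *
      (e ((φ m1 : ℝ) * ω.1 + (m1 : ℝ) * ω.2) * e ((φ m2 : ℝ) * ω.1 + (m2 : ℝ) * ω.2) *
        e (-((φ m3 : ℝ) * ω.1 + (m3 : ℝ) * ω.2)) * e (-((φ m4 : ℝ) * ω.1 + (m4 : ℝ) * ω.2))) := by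
    simp only [← e_add]
    congr 1
    push_cast; ring
  rw [h]
  ring

lemma quad (s : Finset ℕ) (z : ℕ → ℂ) : (((‖∑ a ∈ s, z a‖ ^ 4 : ℝ)) : ℂ) =
    ∑ a ∈ s, ∑ b ∈ s, ∑ c ∈ s, ∑ d ∈ s, z a * z b * (starRingEnd ℂ) (z c) * (starRingEnd ℂ) (z d) := by
  have h1 : ((‖∑ a ∈ s, z a‖ ^ 4 : ℝ) : ℂ) = (∑ a ∈ s, z a) * (∑ a ∈ s, z a) *
      (starRingEnd ℂ) (∑ a ∈ s, z a) * (starRingEnd ℂ) (∑ a ∈ s, z a) := by
    have h2 : (((‖∑ a ∈ s, z a‖ ^ 2 : ℝ)) : ℂ) = (∑ a ∈ s, z a) * (starRingEnd ℂ) (∑ a ∈ s, z a) := by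
      rw [Complex.mul_conj, Complex.normSq_eq_norm_sq]
    have h3 : ((‖∑ a ∈ s, z a‖ ^ 4 : ℝ) : ℂ) = ((‖∑ a ∈ s, z a‖ ^ 2 : ℝ) : ℂ) * ((‖∑ a ∈ s, z a‖ ^ 2 : ℝ) : ℂ) := by
      push_cast; ring
    rw [h3, h2]; ring
  have h4 : (∑ a ∈ s, z a) * (∑ a ∈ s, z a) * (starRingEnd ℂ) (∑ a ∈ s, z a) * (starRingEnd ℂ) (∑ a ∈ s, z a) =
      ((∑ a ∈ s, z a) * (∑ b ∈ s, z b)) *
        ((∑ c ∈ s, (starRingEnd ℂ) (z c)) * (∑ d ∈ s, (starRingEnd ℂ) (z d))) := by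
    rw [map_sum]; ring
  rw [h1, h4, Finset.sum_mul_sum, Finset.sum_mul_sum, Finset.sum_mul]
  refine Finset.sum_congr rfl fun a _ => ?_
  rw [Finset.sum_mul]
  refine Finset.sum_congr rfl fun b _ => ?_
  rw [Finset.mul_sum]
  refine Finset.sum_congr rfl fun c _ => ?_
  rw [Finset.mul_sum]
  refine Finset.sum_congr rfl fun d _ => ?_
  ring

theorem orth_blocks (Γ : ℕ) (φ : ℤ → ℤ) (X0 X1 : ℤ) (κ K : ℝ) (W L : ℕ) (c : ℤ → ℂ) (x : ℤ)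
    (hTr : Tr φ X0 X1 κ K) (hκ : 0 < κ) (hK : 0 ≤ K) (hΓ : 2 * K + κ ≤ κ * Γ)
    (hW : (W : ℝ) ≤ κ * (L : ℝ) ^ 2) (hc : ∀ n, c n ≠ 0 → X0 ≤ n ∧ n ≤ X1) :
    Orth Γ (mu W) (gB φ c x L) := by
  intro p r d b b' hr hd hb hΓ'
  have hexp : ∀ ω, gB φ c x L b ω * (starRingEnd ℂ) (gB φ c x L b' ω) *
      ((‖F (gB φ c x L) p r ω‖ ^ 4 : ℝ) : ℂ) =
      ∑ i ∈ range L, ∑ j ∈ range L, ∑ a1 ∈ range (r * L), ∑ a2 ∈ range (r * L), ∑ a3 ∈ range (r * L),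
        ∑ a4 ∈ range (r * L),
        ex φ c (x + ((b * L : ℕ) : ℤ) + i) ω * (starRingEnd ℂ) (ex φ c (x + ((b' * L : ℕ) : ℤ) + j) ω) *
        (ex φ c (x + ((p * L : ℕ) : ℤ) + a1) ω * ex φ c (x + ((p * L : ℕ) : ℤ) + a2) ω *
          (starRingEnd ℂ) (ex φ c (x + ((p * L : ℕ) : ℤ) + a3) ω) *
          (starRingEnd ℂ) (ex φ c (x + ((p * L : ℕ) : ℤ) + a4) ω)) := by
    intro ω
    rw [F_gB]
    unfold gB Sx
    rw [quad, map_sum, Finset.sum_mul_sum, Finset.sum_mul]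
    refine Finset.sum_congr rfl fun i _ => ?_
    rw [Finset.sum_mul]
    refine Finset.sum_congr rfl fun j _ => ?_
    rw [Finset.mul_sum]
    refine Finset.sum_congr rfl fun a1 _ => ?_
    rw [Finset.mul_sum]
    refine Finset.sum_congr rfl fun a2 _ => ?_
    rw [Finset.mul_sum]
    refine Finset.sum_congr rfl fun a3 _ => ?_
    rw [Finset.mul_sum]
  simp only [hexp]
  have hI : ∀ n1 n2 m1 m2 m3 m4 : ℤ, Integrable (fun ω => ex φ c n1 ω * (starRingEnd ℂ) (ex φ c n2 ω) *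
      (ex φ c m1 ω * ex φ c m2 ω * (starRingEnd ℂ) (ex φ c m3 ω) * (starRingEnd ℂ) (ex φ c m4 ω))) (mu W) := by
    intro n1 n2 m1 m2 m3 m4
    exact (((nc_ex _ _ _).mulC (nc_ex _ _ _).conj).mulC ((((nc_ex _ _ _).mulC (nc_ex _ _ _)).mulC
      (nc_ex _ _ _).conj).mulC (nc_ex _ _ _).conj)).integrableC _
  rw [integral_finsetSum _ fun i _ => integrable_finsetSum _ fun j _ => integrable_finsetSum _ fun a1 _ =>
    integrable_finsetSum _ fun a2 _ => integrable_finsetSum _ fun a3 _ => integrable_finsetSum _ fun a4 _ =>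
    hI _ _ _ _ _ _]
  refine Finset.sum_eq_zero fun i hi => ?_
  rw [integral_finsetSum _ fun j _ => integrable_finsetSum _ fun a1 _ =>
    integrable_finsetSum _ fun a2 _ => integrable_finsetSum _ fun a3 _ => integrable_finsetSum _ fun a4 _ =>
    hI _ _ _ _ _ _]
  refine Finset.sum_eq_zero fun j hj => ?_
  rw [integral_finsetSum _ fun a1 _ =>
    integrable_finsetSum _ fun a2 _ => integrable_finsetSum _ fun a3 _ => integrable_finsetSum _ fun a4 _ =>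
    hI _ _ _ _ _ _]
  refine Finset.sum_eq_zero fun a1 ha1 => ?_
  rw [integral_finsetSum _ fun a2 _ => integrable_finsetSum _ fun a3 _ => integrable_finsetSum _ fun a4 _ =>
    hI _ _ _ _ _ _]
  refine Finset.sum_eq_zero fun a2 ha2 => ?_
  rw [integral_finsetSum _ fun a3 _ => integrable_finsetSum _ fun a4 _ => hI _ _ _ _ _ _]
  refine Finset.sum_eq_zero fun a3 ha3 => ?_
  rw [integral_finsetSum _ fun a4 _ => hI _ _ _ _ _ _]
  refine Finset.sum_eq_zero fun a4 ha4 => ?_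
  rw [Finset.mem_range] at hi hj ha1 ha2 ha3 ha4
  set n1 : ℤ := x + ((b * L : ℕ) : ℤ) + i with hn1
  set n2 : ℤ := x + ((b' * L : ℕ) : ℤ) + j with hn2
  set m1 : ℤ := x + ((p * L : ℕ) : ℤ) + a1 with hm1
  set m2 : ℤ := x + ((p * L : ℕ) : ℤ) + a2 with hm2
  set m3 : ℤ := x + ((p * L : ℕ) : ℤ) + a3 with hm3
  set m4 : ℤ := x + ((p * L : ℕ) : ℤ) + a4 with hm4
  simp only [six]
  rw [integral_const_mul]
  by_cases hz : c n1 * (starRingEnd ℂ) (c n2) * (c m1 * c m2 * (starRingEnd ℂ) (c m3) * (starRingEnd ℂ) (c m4)) = 0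
  · rw [hz, zero_mul]
  rw [int_char_zero, mul_zero]
  by_cases hB : n1 + m1 + m2 - n2 - m3 - m4 = 0
  swap
  · left; exact hB
  right
  -- all coefficients are nonzero
  have hz1 : c n1 ≠ 0 := fun h => hz (by rw [h]; ring)
  have hz2 : c n2 ≠ 0 := fun h => hz (by rw [h]; simp)
  have hz3 : c m1 ≠ 0 := fun h => hz (by rw [h]; ring)
  have hz4 : c m2 ≠ 0 := fun h => hz (by rw [h]; ring)
  have hz5 : c m3 ≠ 0 := fun h => hz (by rw [h]; simp)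
  have hz6 : c m4 ≠ 0 := fun h => hz (by rw [h]; simp)
  have r1 := hc n1 hz1
  have r2 := hc n2 hz2
  have r3 := hc m1 hz3
  have r4 := hc m2 hz4
  have r5 := hc m3 hz5
  have r6 := hc m4 hz6
  set δ := b' - b - 1 with hδ
  have hLpos : 0 < L := by omega
  have hbL : b' * L = b * L + δ * L + L := by
    have : b' = b + δ + 1 := by omega
    rw [this]; ring
  have hnn : (n1 : ℤ) + δ * L < n2 := by
    rw [hn1, hn2, hbL]; push_cast; omega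
  have hmm : ∀ m : ℤ, m = m1 ∨ m = m2 ∨ m = m3 ∨ m = m4 → X0 ≤ m ∧ m ≤ X1 := by
    rintro m (h | h | h | h) <;> rw [h] <;> assumption
  have hmp : ∀ m : ℤ, m = m1 ∨ m = m2 ∨ m = m3 ∨ m = m4 →
      x + ((p * L : ℕ) : ℤ) ≤ m ∧ m < x + ((p * L : ℕ) : ℤ) + ((r * L : ℕ) : ℤ) := by
    rintro m (h | h | h | h) <;> rw [h] <;> constructor <;> omega
  have hδ0 : (0 : ℝ) ≤ (δ : ℝ) * L := by positivity
  have hnn' : (δ : ℝ) * L < (n2 : ℝ) - n1 := by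
    have : ((n1 + δ * L : ℤ) : ℝ) < n2 := by exact_mod_cast hnn
    push_cast at this
    linarith
  have hT : κ * ((d * L : ℕ) : ℝ) * ((n2 : ℝ) - n1) - 2 * K * ((r * L : ℕ) : ℝ) ^ 2 ≤
      |(φ n1 : ℝ) + φ m1 + φ m2 - φ n2 - φ m3 - φ m4| := by
    have hlt : n1 < n2 := by
      have : (0 : ℤ) ≤ (δ : ℤ) * L := by positivity
      omega
    rcases hd with ⟨_, hd⟩ | ⟨hd, _⟩
    · -- left
      set a := min (min m1 m2) (min m3 m4) with ha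
      have hamem : a = m1 ∨ a = m2 ∨ a = m3 ∨ a = m4 := by omega
      have hale : ∀ m : ℤ, m = m1 ∨ m = m2 ∨ m = m3 ∨ m = m4 → a ≤ m := by
        rintro m (h | h | h | h) <;> omega
      have h3 : b' * L + L + d * L ≤ p * L := by
        have : (b' + 1 + d) * L ≤ p * L := Nat.mul_le_mul_right _ (by omega)
        linarith
      refine hTr n1 n2 m1 m2 m3 m4 a _ _ (by positivity) (by positivity) r1.1 r2.2 (hmm a hamem).1 (hmm a hamem).2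
        hlt (by omega) hmm (Or.inl ⟨fun m hm => ⟨hale m hm, ?_⟩, ?_⟩)
      · have h1 := hmp m hm
        have h2 := hmp a hamem
        have h4 : m ≤ a + ((r * L : ℕ) : ℤ) := by omega
        exact_mod_cast h4
      · have h2 := hmp a hamem
        have h4 : n2 + ((d * L : ℕ) : ℤ) ≤ a := by
          rw [hn2]
          have h5 : ((b' * L + L + d * L : ℕ) : ℤ) ≤ ((p * L : ℕ) : ℤ) := by exact_mod_cast h3
          push_cast at h5 h2 ⊢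
          omega
        exact_mod_cast h4
    · set a := max (max m1 m2) (max m3 m4) with ha
      have hamem : a = m1 ∨ a = m2 ∨ a = m3 ∨ a = m4 := by omega
      have hale : ∀ m : ℤ, m = m1 ∨ m = m2 ∨ m = m3 ∨ m = m4 → m ≤ a := by
        rintro m (h | h | h | h) <;> omega
      have h3 : p * L + r * L + d * L ≤ b * L := by
        have : (p + r + d) * L ≤ b * L := Nat.mul_le_mul_right _ hd
        linarith
      refine hTr n1 n2 m1 m2 m3 m4 a _ _ (by positivity) (by positivity) r1.1 r2.2 (hmm a hamem).1 (hmm a hamem).2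
        hlt (by omega) hmm (Or.inr ⟨fun m hm => ⟨hale m hm, ?_⟩, ?_⟩)
      · have h1 := hmp m hm
        have h2 := hmp a hamem
        have h4 : a - ((r * L : ℕ) : ℤ) ≤ m := by omega
        exact_mod_cast h4
      · have h2 := hmp a hamem
        have h4 : a + ((d * L : ℕ) : ℤ) ≤ n1 := by
          rw [hn1]
          have h5 : ((p * L + r * L + d * L : ℕ) : ℤ) ≤ ((b * L : ℕ) : ℤ) := by exact_mod_cast h3
          push_cast at h5 h2 ⊢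
          omega
        exact_mod_cast h4
  have hfin : (W : ℝ) ≤ |((φ n1 + φ m1 + φ m2 - φ n2 - φ m3 - φ m4 : ℤ) : ℝ)| := by
    push_cast
    refine le_trans ?_ hT
    have g1 : (Γ : ℝ) * r ^ 2 ≤ d * δ := by exact_mod_cast hΓ'
    have g2 : κ * ((d * L : ℕ) : ℝ) * ((δ : ℝ) * L) ≤ κ * ((d * L : ℕ) : ℝ) * ((n2 : ℝ) - n1) :=
      mul_le_mul_of_nonneg_left hnn'.le (by positivity)
    have g3 : κ * ((d * L : ℕ) : ℝ) * ((δ : ℝ) * L) = κ * (L : ℝ) ^ 2 * (d * δ) := by push_cast; ring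
    have g4 : κ * (L : ℝ) ^ 2 * (Γ * r ^ 2) ≤ κ * (L : ℝ) ^ 2 * (d * δ) :=
      mul_le_mul_of_nonneg_left g1 (by positivity)
    have g5 : (L : ℝ) ^ 2 * r ^ 2 * (2 * K + κ) ≤ (L : ℝ) ^ 2 * r ^ 2 * (κ * Γ) :=
      mul_le_mul_of_nonneg_left hΓ (by positivity)
    have g6 : (1 : ℝ) ≤ (r : ℝ) ^ 2 := by
      have : (1 : ℝ) ≤ r := by exact_mod_cast hr
      exact one_le_pow₀ this
    have g7 : κ * (L : ℝ) ^ 2 * 1 ≤ κ * (L : ℝ) ^ 2 * (r : ℝ) ^ 2 := mul_le_mul_of_nonneg_left g6 (by positivity)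
    push_cast at g2 g3 ⊢
    nlinarith
  exact_mod_cast hfin

/-- decoupling for exponential sums with curved phases -/
theorem dec_exp (Γ : ℕ) (ρ : ℝ) (hρ : 1 < ρ) : ∃ A : ℝ, 1 ≤ A ∧
    ∀ (φ : ℤ → ℤ) (X0 X1 : ℤ) (κ K : ℝ) (W L : ℕ) (c : ℤ → ℂ) (x : ℤ), Tr φ X0 X1 κ K → 0 < κ → 0 ≤ K →
      2 * K + κ ≤ κ * Γ → (W : ℝ) ≤ κ * (L : ℝ) ^ 2 → (∀ n, c n ≠ 0 → X0 ≤ n ∧ n ≤ X1) →
      ∀ s : ℕ → ℝ, (∀ b, 0 ≤ s b) → (∀ b, ∫ ω, ‖gB φ c x L b ω‖ ^ 6 ∂(mu W) ≤ s b ^ 3) → ∀ t : ℕ,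
      ∫ ω, ‖Sx φ c x (2 ^ t * L) ω‖ ^ 6 ∂(mu W) ≤ A * ρ ^ (2 * t) * (∑ b ∈ range (2 ^ t), s b) ^ 3 := by
  obtain ⟨A, hA, h⟩ := decoupling Γ ρ hρ
  refine ⟨A, hA, ?_⟩
  intro φ X0 X1 κ K W L c x hTr hκ hK hΓ hW hc s hs hsg t
  have h1 := h (ℝ × ℝ) (mu W) (gB φ c x L) (fun b => nc_gB _ _ _ _ _)
    (orth_blocks Γ φ X0 X1 κ K W L c x hTr hκ hK hΓ hW hc) s hs hsg t 0
  simp only [F_gB, SS, zero_add, zero_mul, Nat.cast_zero, add_zero] at h1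
  exact h1

end Pool.Agent.W2helper10.MW
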