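import Mathlib

/-!
Discrete `ℓ²` decoupling at the exponent 6 for systems of functions with a transversal orthogonality property.
Part 1: bounded measurable functions, almost orthogonality, Hoelder, the pointwise broad-narrow inequality.
-/

set_option autoImplicit false

namespace Pool.Agent.W2helper10.MW

open MeasureTheory Finset

variable {Ω : Type} [MeasurableSpace Ω]

/-- bounded measurable functions -/
def Nc {E : Type} [Norm E] [MeasurableSpace E] (f : Ω → E) : Prop :=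
  Measurable f ∧ ∃ C : ℝ, ∀ ω, ‖f ω‖ ≤ C

lemma Nc.integrable {f : Ω → ℝ} (h : Nc f) (μ : Measure Ω) [IsFiniteMeasure μ] : Integrable f μ := by
  obtain ⟨h1, C, h2⟩ := h
  exact Integrable.of_bound h1.aestronglyMeasurable C (Filter.Eventually.of_forall h2)

lemma Nc.integrableC {f : Ω → ℂ} (h : Nc f) (μ : Measure Ω) [IsFiniteMeasure μ] : Integrable f μ := by
  obtain ⟨h1, C, h2⟩ := h
  exact Integrable.of_bound h1.aestronglyMeasurable C (Filter.Eventually.of_forall h2)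

lemma Nc.const (c : ℝ) : Nc (fun _ : Ω => c) := ⟨measurable_const, ‖c‖, fun _ => le_rfl⟩

lemma Nc.add {f g : Ω → ℝ} (hf : Nc f) (hg : Nc g) : Nc (fun ω => f ω + g ω) := by
  obtain ⟨h1, C, h2⟩ := hf
  obtain ⟨h3, D, h4⟩ := hg
  exact ⟨h1.add h3, C + D, fun ω => (norm_add_le _ _).trans (add_le_add (h2 ω) (h4 ω))⟩

lemma Nc.mul {f g : Ω → ℝ} (hf : Nc f) (hg : Nc g) : Nc (fun ω => f ω * g ω) := by
  obtain ⟨h1, C, h2⟩ := hf
  obtain ⟨h3, D, h4⟩ := hg
  refine ⟨h1.mul h3, C * D, fun ω => ?_⟩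
  rw [norm_mul]
  exact mul_le_mul (h2 ω) (h4 ω) (norm_nonneg _) ((norm_nonneg _).trans (h2 ω))

lemma Nc.pow {f : Ω → ℝ} (hf : Nc f) (n : ℕ) : Nc (fun ω => f ω ^ n) := by
  induction n with
  | zero => simpa using Nc.const (Ω := Ω) 1
  | succ n ih =>
    have := ih.mul hf
    simpa [pow_succ] using this

lemma Nc.sum {ι : Type} (s : Finset ι) {f : ι → Ω → ℝ} (hf : ∀ i ∈ s, Nc (f i)) :
    Nc (fun ω => ∑ i ∈ s, f i ω) := by
  classical
  induction s using Finset.induction_on with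
  | empty => simpa using Nc.const (Ω := Ω) 0
  | insert a s ha ih =>
    have h1 := hf a (Finset.mem_insert_self _ _)
    have h2 := ih fun i hi => hf i (Finset.mem_insert_of_mem hi)
    have := h1.add h2
    simpa [Finset.sum_insert ha] using this

lemma Nc.constC (c : ℂ) : Nc (fun _ : Ω => c) := ⟨measurable_const, ‖c‖, fun _ => le_rfl⟩

lemma Nc.addC {f g : Ω → ℂ} (hf : Nc f) (hg : Nc g) : Nc (fun ω => f ω + g ω) := by
  obtain ⟨h1, C, h2⟩ := hf
  obtain ⟨h3, D, h4⟩ := hg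
  exact ⟨h1.add h3, C + D, fun ω => (norm_add_le _ _).trans (add_le_add (h2 ω) (h4 ω))⟩

lemma Nc.mulC {f g : Ω → ℂ} (hf : Nc f) (hg : Nc g) : Nc (fun ω => f ω * g ω) := by
  obtain ⟨h1, C, h2⟩ := hf
  obtain ⟨h3, D, h4⟩ := hg
  refine ⟨h1.mul h3, C * D, fun ω => ?_⟩
  rw [norm_mul]
  exact mul_le_mul (h2 ω) (h4 ω) (norm_nonneg _) ((norm_nonneg _).trans (h2 ω))

lemma Nc.sumC {ι : Type} (s : Finset ι) {f : ι → Ω → ℂ} (hf : ∀ i ∈ s, Nc (f i)) :
    Nc (fun ω => ∑ i ∈ s, f i ω) := by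
  classical
  induction s using Finset.induction_on with
  | empty => simpa using Nc.constC (Ω := Ω) 0
  | insert a s ha ih =>
    have h1 := hf a (Finset.mem_insert_self _ _)
    have h2 := ih fun i hi => hf i (Finset.mem_insert_of_mem hi)
    have := h1.addC h2
    simpa [Finset.sum_insert ha] using this

lemma Nc.norm {f : Ω → ℂ} (hf : Nc f) : Nc (fun ω => ‖f ω‖) := by
  obtain ⟨h1, C, h2⟩ := hf
  exact ⟨h1.norm, C, fun ω => by simpa using h2 ω⟩

lemma Nc.conj {f : Ω → ℂ} (hf : Nc f) : Nc (fun ω => (starRingEnd ℂ) (f ω)) := by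
  obtain ⟨h1, C, h2⟩ := hf
  exact ⟨Complex.continuous_conj.measurable.comp h1, C, fun ω => by simpa using h2 ω⟩

lemma Nc.ofReal {f : Ω → ℝ} (hf : Nc f) : Nc (fun ω => ((f ω : ℝ) : ℂ)) := by
  obtain ⟨h1, C, h2⟩ := hf
  exact ⟨Complex.continuous_ofReal.measurable.comp h1, C, fun ω => by simpa using h2 ω⟩

/-- almost orthogonality -/
lemma almost_orth (μ : Measure Ω) [IsFiniteMeasure μ] (n C : ℕ) (h : ℕ → Ω → ℂ) (w : Ω → ℝ)
    (hh : ∀ u, Nc (h u)) (hw : Nc w) (hw0 : ∀ ω, 0 ≤ w ω)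
    (ho : ∀ u < n, ∀ v < n, (u + C ≤ v ∨ v + C ≤ u) →
      ∫ ω, h u ω * (starRingEnd ℂ) (h v ω) * (w ω : ℂ) ∂μ = 0) :
    ∫ ω, ‖∑ u ∈ range n, h u ω‖ ^ 2 * w ω ∂μ ≤ 2 * C * ∑ u ∈ range n, ∫ ω, ‖h u ω‖ ^ 2 * w ω ∂μ := by
  classical
  set a : ℕ → ℝ := fun u => ∫ ω, ‖h u ω‖ ^ 2 * w ω ∂μ with ha
  have ha0 : ∀ u, 0 ≤ a u := fun u => integral_nonneg fun ω => mul_nonneg (sq_nonneg _) (hw0 ω)
  have hpt : ∀ ω, ‖∑ u ∈ range n, h u ω‖ ^ 2 * w ω =
      ∑ u ∈ range n, ∑ v ∈ range n, (h u ω * (starRingEnd ℂ) (h v ω) * (w ω : ℂ)).re := by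
    intro ω
    have h1 : ((‖∑ u ∈ range n, h u ω‖ ^ 2 : ℝ) : ℂ) * (w ω : ℂ) =
        ∑ u ∈ range n, ∑ v ∈ range n, h u ω * (starRingEnd ℂ) (h v ω) * (w ω : ℂ) := by
      rw [← Complex.normSq_eq_norm_sq, ← Complex.mul_conj, map_sum, Finset.sum_mul_sum, Finset.sum_mul]
      refine Finset.sum_congr rfl fun u _ => ?_
      rw [Finset.sum_mul]
    have h2 := congrArg Complex.re h1
    rw [Complex.re_sum] at h2
    simp only [Complex.re_sum] at h2
    rw [← h2, ← Complex.ofReal_mul, Complex.ofReal_re]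
  have hNc : ∀ u v, Nc (fun ω => h u ω * (starRingEnd ℂ) (h v ω) * (w ω : ℂ)) := fun u v =>
    ((hh u).mulC (hh v).conj).mulC hw.ofReal
  have hint : ∀ u v, Integrable (fun ω => (h u ω * (starRingEnd ℂ) (h v ω) * (w ω : ℂ)).re) μ :=
    fun u v => ((hNc u v).integrableC μ).re
  calc ∫ ω, ‖∑ u ∈ range n, h u ω‖ ^ 2 * w ω ∂μ
      = ∑ u ∈ range n, ∑ v ∈ range n, ∫ ω, (h u ω * (starRingEnd ℂ) (h v ω) * (w ω : ℂ)).re ∂μ := by
        simp only [hpt]
        rw [integral_finsetSum _ fun u _ => integrable_finsetSum _ fun v _ => hint u v]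
        refine Finset.sum_congr rfl fun u _ => ?_
        rw [integral_finsetSum _ fun v _ => hint u v]
    _ ≤ ∑ u ∈ range n, ∑ v ∈ range n, if (u + C ≤ v ∨ v + C ≤ u) then 0 else (a u + a v) / 2 := by
        refine Finset.sum_le_sum fun u hu => Finset.sum_le_sum fun v hv => ?_
        split_ifs with hc
        · have h1 := ho u (Finset.mem_range.1 hu) v (Finset.mem_range.1 hv) hc
          have h2 : ∫ ω, (h u ω * (starRingEnd ℂ) (h v ω) * (w ω : ℂ)).re ∂μ =
              (∫ ω, h u ω * (starRingEnd ℂ) (h v ω) * (w ω : ℂ) ∂μ).re := by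
            exact integral_re ((hNc u v).integrableC μ)
          rw [h2, h1]; simp
        · have h3 : (a u + a v) / 2 = ∫ ω, (‖h u ω‖ ^ 2 * w ω + ‖h v ω‖ ^ 2 * w ω) / 2 ∂μ := by
            rw [integral_div, integral_add]
            · exact (((hh u).norm.pow 2).mul hw).integrable μ
            · exact (((hh v).norm.pow 2).mul hw).integrable μ
          rw [h3]
          refine integral_mono (hint u v) ?_ fun ω => ?_
          · exact ((((hh u).norm.pow 2).mul hw).add (((hh v).norm.pow 2).mul hw)).integrable μ |>.div_const 2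
          · show (h u ω * (starRingEnd ℂ) (h v ω) * (w ω : ℂ)).re ≤ (‖h u ω‖ ^ 2 * w ω + ‖h v ω‖ ^ 2 * w ω) / 2
            have h4 : (h u ω * (starRingEnd ℂ) (h v ω) * (w ω : ℂ)).re ≤
                ‖h u ω * (starRingEnd ℂ) (h v ω) * (w ω : ℂ)‖ := Complex.re_le_norm _
            rw [norm_mul, norm_mul, RCLike.norm_conj, Complex.norm_real, Real.norm_of_nonneg (hw0 ω)] at h4
            have h5 : ‖h u ω‖ * ‖h v ω‖ ≤ (‖h u ω‖ ^ 2 + ‖h v ω‖ ^ 2) / 2 := by
              nlinarith [sq_nonneg (‖h u ω‖ - ‖h v ω‖)]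
            have h6 := mul_le_mul_of_nonneg_right h5 (hw0 ω)
            linarith
    _ = ∑ u ∈ range n, a u * (((range n).filter fun v => ¬ (u + C ≤ v ∨ v + C ≤ u)).card : ℝ) := by
        have e1 : ∀ u v, (if (u + C ≤ v ∨ v + C ≤ u) then (0 : ℝ) else (a u + a v) / 2) =
            (if (u + C ≤ v ∨ v + C ≤ u) then (0 : ℝ) else a u / 2) +
            (if (v + C ≤ u ∨ u + C ≤ v) then (0 : ℝ) else a v / 2) := by
          intro u v
          by_cases hc : (u + C ≤ v ∨ v + C ≤ u)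
          · rw [if_pos hc, if_pos hc, if_pos hc.symm]; simp
          · rw [if_neg hc, if_neg hc, if_neg fun h => hc h.symm]; ring
        simp only [e1, Finset.sum_add_distrib]
        rw [Finset.sum_comm (f := fun u v => if (v + C ≤ u ∨ u + C ≤ v) then (0 : ℝ) else a v / 2)]
        rw [← Finset.sum_add_distrib]
        refine Finset.sum_congr rfl fun u _ => ?_
        rw [← Finset.sum_add_distrib, Finset.card_filter, Nat.cast_sum, Finset.mul_sum]
        refine Finset.sum_congr rfl fun v _ => ?_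
        by_cases hc : (u + C ≤ v ∨ v + C ≤ u)
        · simp [hc]
        · simp only [hc, if_false, not_false_iff, if_true]; push_cast; ring
    _ ≤ ∑ u ∈ range n, a u * (2 * C) := by
        refine Finset.sum_le_sum fun u _ => mul_le_mul_of_nonneg_left ?_ (ha0 u)
        have h2 : ((range n).filter fun v => ¬ (u + C ≤ v ∨ v + C ≤ u)) ⊆ Finset.Ico (u - C) (u + C) := by
          intro v hv
          rw [Finset.mem_filter] at hv
          rw [Finset.mem_Ico]
          omega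
        have h3 := Finset.card_le_card h2
        rw [Nat.card_Ico] at h3
        have h4 : ((range n).filter fun v => ¬ (u + C ≤ v ∨ v + C ≤ u)).card ≤ 2 * C := by omega
        exact_mod_cast h4
    _ = 2 * C * ∑ u ∈ range n, a u := by rw [← Finset.sum_mul]; ring

/-- Hoelder's inequality, in homogeneous form -/
lemma hold (μ : Measure Ω) [IsFiniteMeasure μ] (x y : Ω → ℝ) (hx : Nc x) (hy : Nc y) (U a b : ℝ) (hU : 0 ≤ U) (ha : 0 ≤ a) (hb : 0 ≤ b)
    (h1 : ∫ ω, x ω ^ 6 ∂μ ≤ U * a ^ 3) (h2 : ∫ ω, y ω ^ 6 ∂μ ≤ U * b ^ 3) :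
    ∫ ω, x ω ^ 2 * y ω ^ 4 ∂μ ≤ U * (a * b ^ 2) := by
  have key : ∀ η : ℝ, 0 < η → ∫ ω, x ω ^ 2 * y ω ^ 4 ∂μ ≤ U * ((a + η) * (b + η) ^ 2) := by
    intro η hη
    set A := a + η with hA
    set B := b + η with hB
    have hA0 : 0 < A := by positivity
    have hB0 : 0 < B := by positivity
    have h3 : ∫ ω, x ω ^ 6 ∂μ ≤ U * A ^ 3 := h1.trans (by
      apply mul_le_mul_of_nonneg_left _ hU
      exact pow_le_pow_left₀ ha (by linarith) 3)
    have h4 : ∫ ω, y ω ^ 6 ∂μ ≤ U * B ^ 3 := h2.trans (by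
      apply mul_le_mul_of_nonneg_left _ hU
      exact pow_le_pow_left₀ hb (by linarith) 3)
    have hpt : ∀ ω, x ω ^ 2 * y ω ^ 4 ≤ (A * B ^ 2) / (3 * A ^ 3) * x ω ^ 6 +
        2 * (A * B ^ 2) / (3 * B ^ 3) * y ω ^ 6 := by
      intro ω
      set u := x ω ^ 2 / A with hu
      set v := y ω ^ 2 / B with hv
      have hu0 : 0 ≤ u := by positivity
      have hv0 : 0 ≤ v := by positivity
      have e1 : x ω ^ 2 = u * A := by rw [hu]; field_simp
      have e2 : y ω ^ 2 = v * B := by rw [hv]; field_simp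
      have e3 : x ω ^ 6 = (u * A) ^ 3 := by rw [← e1]; ring
      have e4 : y ω ^ 6 = (v * B) ^ 3 := by rw [← e2]; ring
      have e5 : y ω ^ 4 = (v * B) ^ 2 := by rw [← e2]; ring
      rw [e1, e3, e4, e5]
      have e6 : A * B ^ 2 / (3 * A ^ 3) * (u * A) ^ 3 + 2 * (A * B ^ 2) / (3 * B ^ 3) * (v * B) ^ 3 =
          A * B ^ 2 * ((u ^ 3 + 2 * v ^ 3) / 3) := by field_simp
      rw [e6]
      have e7 : u * v ^ 2 ≤ (u ^ 3 + 2 * v ^ 3) / 3 := by
        have : 0 ≤ (u - v) ^ 2 * (u + 2 * v) := by positivity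
        nlinarith [this]
      have e8 : 0 ≤ A * B ^ 2 := by positivity
      calc u * A * (v * B) ^ 2 = A * B ^ 2 * (u * v ^ 2) := by ring
        _ ≤ _ := mul_le_mul_of_nonneg_left e7 e8
    have i1 : Integrable (fun ω => x ω ^ 6) μ := (hx.pow 6).integrable μ
    have i2 : Integrable (fun ω => y ω ^ 6) μ := (hy.pow 6).integrable μ
    calc ∫ ω, x ω ^ 2 * y ω ^ 4 ∂μ ≤ ∫ ω, ((A * B ^ 2) / (3 * A ^ 3) * x ω ^ 6 +
          2 * (A * B ^ 2) / (3 * B ^ 3) * y ω ^ 6) ∂μ := by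
          refine integral_mono (((hx.pow 2).mul (hy.pow 4)).integrable μ) ?_ hpt
          exact (i1.const_mul _).add (i2.const_mul _)
      _ = (A * B ^ 2) / (3 * A ^ 3) * ∫ ω, x ω ^ 6 ∂μ + 2 * (A * B ^ 2) / (3 * B ^ 3) * ∫ ω, y ω ^ 6 ∂μ := by
          rw [integral_add (i1.const_mul _) (i2.const_mul _), integral_const_mul, integral_const_mul]
      _ ≤ (A * B ^ 2) / (3 * A ^ 3) * (U * A ^ 3) + 2 * (A * B ^ 2) / (3 * B ^ 3) * (U * B ^ 3) := by
          gcongr
      _ = U * (A * B ^ 2) := by field_simp; ring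
  have hc : Filter.Tendsto (fun η : ℝ => U * ((a + η) * (b + η) ^ 2)) (nhdsWithin 0 (Set.Ioi 0))
      (nhds (U * ((a + 0) * (b + 0) ^ 2))) := by
    apply Filter.Tendsto.mono_left _ nhdsWithin_le_nhds
    have : Continuous fun η : ℝ => U * ((a + η) * (b + η) ^ 2) := by fun_prop
    exact this.tendsto 0
  simp only [add_zero] at hc
  exact ge_of_tendsto hc (Filter.eventually_of_mem self_mem_nhdsWithin fun η hη => key η hη)

/-- Cauchy-Schwarz in the form needed -/
lemma cs (μ : Measure Ω) [IsFiniteMeasure μ] (x y : Ω → ℝ) (hx : Nc x) (hy : Nc y) (P R : ℝ) (hP : 0 ≤ P) (hR : 0 ≤ R)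
    (h1 : ∫ ω, x ω ^ 2 ∂μ ≤ P ^ 2) (h2 : ∫ ω, y ω ^ 2 ∂μ ≤ R ^ 2) :
    ∫ ω, x ω * y ω ∂μ ≤ P * R := by
  have key : ∀ η : ℝ, 0 < η → ∫ ω, x ω * y ω ∂μ ≤ (P + η) * (R + η) := by
    intro η hη
    set A := P + η with hA
    set B := R + η with hB
    have hA0 : 0 < A := by positivity
    have hB0 : 0 < B := by positivity
    have h3 : ∫ ω, x ω ^ 2 ∂μ ≤ A ^ 2 := h1.trans (pow_le_pow_left₀ hP (by linarith) 2)
    have h4 : ∫ ω, y ω ^ 2 ∂μ ≤ B ^ 2 := h2.trans (pow_le_pow_left₀ hR (by linarith) 2)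
    have hpt : ∀ ω, x ω * y ω ≤ B / (2 * A) * x ω ^ 2 + A / (2 * B) * y ω ^ 2 := by
      intro ω
      have : 0 ≤ (B * x ω - A * y ω) ^ 2 / (2 * A * B) := by positivity
      have e : B / (2 * A) * x ω ^ 2 + A / (2 * B) * y ω ^ 2 - x ω * y ω =
          (B * x ω - A * y ω) ^ 2 / (2 * A * B) := by field_simp; ring
      linarith
    have i1 : Integrable (fun ω => x ω ^ 2) μ := (hx.pow 2).integrable μ
    have i2 : Integrable (fun ω => y ω ^ 2) μ := (hy.pow 2).integrable μ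
    calc ∫ ω, x ω * y ω ∂μ ≤ ∫ ω, (B / (2 * A) * x ω ^ 2 + A / (2 * B) * y ω ^ 2) ∂μ := by
          refine integral_mono ((hx.mul hy).integrable μ) ?_ hpt
          exact (i1.const_mul _).add (i2.const_mul _)
      _ = B / (2 * A) * ∫ ω, x ω ^ 2 ∂μ + A / (2 * B) * ∫ ω, y ω ^ 2 ∂μ := by
          rw [integral_add (i1.const_mul _) (i2.const_mul _), integral_const_mul, integral_const_mul]
      _ ≤ B / (2 * A) * A ^ 2 + A / (2 * B) * B ^ 2 := by gcongr
      _ = A * B := by field_simp; ring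
  have hc : Filter.Tendsto (fun η : ℝ => (P + η) * (R + η)) (nhdsWithin 0 (Set.Ioi 0))
      (nhds ((P + 0) * (R + 0))) := by
    apply Filter.Tendsto.mono_left _ nhdsWithin_le_nhds
    have : Continuous fun η : ℝ => (P + η) * (R + η) := by fun_prop
    exact this.tendsto 0
  simp only [add_zero] at hc
  exact ge_of_tendsto hc (Filter.eventually_of_mem self_mem_nhdsWithin fun η hη => key η hη)

/-- the broad-narrow inequality -/
lemma broad (K : ℕ) (x : ℕ → ℝ) (hx : ∀ i, 0 ≤ x i) :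
    (∑ i ∈ range K, x i) ^ 6 ≤ 23328 * ∑ i ∈ range K, x i ^ 6 +
      32 * K ^ 6 * ∑ i ∈ range K, ∑ j ∈ range K, if i + 2 ≤ j then x i ^ 3 * x j ^ 3 else 0 := by
  classical
  rcases Nat.eq_zero_or_pos K with rfl | hK
  · simp
  obtain ⟨m, hm, hmax⟩ := Finset.exists_max_image (range K) x ⟨0, Finset.mem_range.2 hK⟩
  set T := ∑ i ∈ range K, ∑ j ∈ range K, if i + 2 ≤ j then x i ^ 3 * x j ^ 3 else 0 with hT
  have hT0 : ∀ i j, 0 ≤ (if i + 2 ≤ j then x i ^ 3 * x j ^ 3 else 0) := by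
    intro i j; split_ifs
    · exact mul_nonneg (pow_nonneg (hx i) 3) (pow_nonneg (hx j) 3)
    · exact le_rfl
  have hTT : 0 ≤ T := Finset.sum_nonneg fun i _ => Finset.sum_nonneg fun j _ => hT0 i j
  have hpair : ∀ i ∈ range K, ∀ j ∈ range K, i + 2 ≤ j → x i ^ 3 * x j ^ 3 ≤ T := by
    intro i hi j hj hij
    calc x i ^ 3 * x j ^ 3 = if i + 2 ≤ j then x i ^ 3 * x j ^ 3 else 0 := by rw [if_pos hij]
      _ ≤ ∑ j ∈ range K, if i + 2 ≤ j then x i ^ 3 * x j ^ 3 else 0 :=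
          Finset.single_le_sum (f := fun j => if i + 2 ≤ j then x i ^ 3 * x j ^ 3 else 0) (fun j _ => hT0 i j) hj
      _ ≤ T := Finset.single_le_sum (f := fun i => ∑ j ∈ range K, if i + 2 ≤ j then x i ^ 3 * x j ^ 3 else 0)
          (fun i _ => Finset.sum_nonneg fun j _ => hT0 i j) hi
  -- `τ ^ 6 = T`
  set τ := T ^ ((1 : ℝ) / 6) with hτ
  have hτ0 : 0 ≤ τ := Real.rpow_nonneg hTT _
  have hτ6 : τ ^ 6 = T := by
    rw [hτ, ← Real.rpow_natCast, ← Real.rpow_mul hTT]; norm_num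
  have hfar : ∀ i ∈ range K, (i + 2 ≤ m ∨ m + 2 ≤ i) → x i ≤ τ := by
    intro i hi hc
    have h1 : x i ^ 3 * x m ^ 3 ≤ T := by
      rcases hc with hc | hc
      · exact hpair i hi m hm hc
      · rw [mul_comm]; exact hpair m hm i hi hc
    have h2 : x i ^ 6 ≤ τ ^ 6 := by
      rw [hτ6]
      refine le_trans ?_ h1
      have : x i ^ 3 ≤ x m ^ 3 := pow_le_pow_left₀ (hx i) (hmax i hi) 3
      calc x i ^ 6 = x i ^ 3 * x i ^ 3 := by ring
        _ ≤ x i ^ 3 * x m ^ 3 := mul_le_mul_of_nonneg_left this (pow_nonneg (hx i) 3)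
    exact le_of_pow_le_pow_left₀ (by norm_num) hτ0 h2
  have hsum : ∑ i ∈ range K, x i ≤ 3 * x m + K * τ := by
    have h1 : ∀ i ∈ range K, x i ≤ (if i + 1 = m then x m else 0) + (if i = m then x m else 0) +
        (if i = m + 1 then x m else 0) + τ := by
      intro i hi
      have h0 := hx m
      by_cases hc : (i + 2 ≤ m ∨ m + 2 ≤ i)
      · have := hfar i hi hc
        split_ifs <;> linarith
      · have h2 : i + 1 = m ∨ i = m ∨ i = m + 1 := by omega
        have h3 := hmax i hi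
        rcases h2 with h2 | h2 | h2
        · rw [if_pos h2]; split_ifs <;> linarith
        · rw [if_pos h2]; split_ifs <;> linarith
        · rw [if_pos h2]; split_ifs <;> linarith
    refine (Finset.sum_le_sum h1).trans ?_
    rw [Finset.sum_add_distrib, Finset.sum_add_distrib, Finset.sum_add_distrib]
    have e1 : ∑ i ∈ range K, (if i + 1 = m then x m else 0) ≤ x m := by
      rw [← Finset.sum_filter, Finset.sum_const, nsmul_eq_mul]
      have : ((range K).filter fun i => i + 1 = m).card ≤ 1 := by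
        rw [Finset.card_le_one]; intro a ha b hb
        rw [Finset.mem_filter] at ha hb; omega
      have h3 : (((range K).filter fun i => i + 1 = m).card : ℝ) ≤ 1 := by exact_mod_cast this
      nlinarith [hx m]
    have e2 : ∑ i ∈ range K, (if i = m then x m else 0) ≤ x m := by
      rw [← Finset.sum_filter, Finset.sum_const, nsmul_eq_mul]
      have : ((range K).filter fun i => i = m).card ≤ 1 := by
        rw [Finset.card_le_one]; intro a ha b hb
        rw [Finset.mem_filter] at ha hb; omega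
      have h3 : (((range K).filter fun i => i = m).card : ℝ) ≤ 1 := by exact_mod_cast this
      nlinarith [hx m]
    have e3 : ∑ i ∈ range K, (if i = m + 1 then x m else 0) ≤ x m := by
      rw [← Finset.sum_filter, Finset.sum_const, nsmul_eq_mul]
      have : ((range K).filter fun i => i = m + 1).card ≤ 1 := by
        rw [Finset.card_le_one]; intro a ha b hb
        rw [Finset.mem_filter] at ha hb; omega
      have h3 : (((range K).filter fun i => i = m + 1).card : ℝ) ≤ 1 := by exact_mod_cast this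
      nlinarith [hx m]
    rw [Finset.sum_const, Finset.card_range, nsmul_eq_mul]
    linarith
  have h6 : (3 * x m + K * τ) ^ 6 ≤ 2 ^ 5 * ((3 * x m) ^ 6 + (K * τ) ^ 6) := by
    have := add_pow_le (a := 3 * x m) (b := K * τ) (by have := hx m; positivity) (by positivity) 6
    simpa using this
  have h7 : x m ^ 6 ≤ ∑ i ∈ range K, x i ^ 6 :=
    Finset.single_le_sum (f := fun i => x i ^ 6) (fun i _ => pow_nonneg (hx i) 6) hm
  calc (∑ i ∈ range K, x i) ^ 6 ≤ (3 * x m + K * τ) ^ 6 :=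
        pow_le_pow_left₀ (Finset.sum_nonneg fun i _ => hx i) hsum 6
    _ ≤ 2 ^ 5 * ((3 * x m) ^ 6 + (K * τ) ^ 6) := h6
    _ = 23328 * x m ^ 6 + 32 * K ^ 6 * τ ^ 6 := by ring
    _ ≤ _ := by rw [hτ6]; gcongr

end Pool.Agent.W2helper10.MW
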