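import Pool.Agent.W2helper10.MW.Dec1

/-!
Discrete `ℓ²` decoupling at the exponent 6 for systems of functions with a transversal orthogonality property.
Part 2: the induction on scales.
-/

set_option autoImplicit false

namespace Pool.Agent.W2helper10.MW

open MeasureTheory Finset

variable {Ω : Type} [MeasurableSpace Ω]

/-- sums of consecutive functions -/
noncomputable def F (g : ℕ → Ω → ℂ) (a L : ℕ) (ω : Ω) : ℂ := ∑ i ∈ range L, g (a + i) ω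

/-- sums of consecutive numbers -/
noncomputable def SS (s : ℕ → ℝ) (a L : ℕ) : ℝ := ∑ i ∈ range L, s (a + i)

/-- the orthogonality property: `g b` and `g b'` are orthogonal with respect to the weight `‖F g p r‖⁴` if
`b, b'` are on the same side of `[p, p + r)`, with `d` further indices in between, and `b' - b > Γ r² / d` -/
def Orth (Γ : ℕ) (μ : Measure Ω) (g : ℕ → Ω → ℂ) : Prop :=
  ∀ p r d b b' : ℕ, 1 ≤ r → ((b + d < p ∧ b' + d < p) ∨ (p + r + d ≤ b ∧ p + r + d ≤ b')) →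
    b < b' → Γ * r ^ 2 ≤ d * (b' - b - 1) →
    ∫ ω, g b ω * (starRingEnd ℂ) (g b' ω) * ((‖F g p r ω‖ ^ 4 : ℝ) : ℂ) ∂μ = 0

lemma sum_range_split {M : Type} [AddCommMonoid M] (f : ℕ → M) (n L : ℕ) :
    ∑ i ∈ range (n * L), f i = ∑ u ∈ range n, ∑ i ∈ range L, f (u * L + i) := by
  induction n with
  | zero => simp
  | succ n ih => rw [Nat.succ_mul, Finset.sum_range_add, ih, Finset.sum_range_succ]

lemma F_split (g : ℕ → Ω → ℂ) (a n L : ℕ) (ω : Ω) :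
    F g a (n * L) ω = ∑ u ∈ range n, F g (a + u * L) L ω := by
  unfold F
  rw [sum_range_split]
  refine Finset.sum_congr rfl fun u _ => Finset.sum_congr rfl fun i _ => ?_
  rw [add_assoc]

lemma SS_split (s : ℕ → ℝ) (a n L : ℕ) : SS s a (n * L) = ∑ u ∈ range n, SS s (a + u * L) L := by
  unfold SS
  rw [sum_range_split]
  refine Finset.sum_congr rfl fun u _ => Finset.sum_congr rfl fun i _ => ?_
  rw [add_assoc]

lemma SS_nonneg {s : ℕ → ℝ} (hs : ∀ b, 0 ≤ s b) (a L : ℕ) : 0 ≤ SS s a L :=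
  Finset.sum_nonneg fun i _ => hs _

lemma SS_part_le {s : ℕ → ℝ} (hs : ∀ b, 0 ≤ s b) (a n L u : ℕ) (hu : u < n) :
    SS s (a + u * L) L ≤ SS s a (n * L) := by
  rw [SS_split]
  exact Finset.single_le_sum (f := fun u => SS s (a + u * L) L) (fun i _ => SS_nonneg hs _ _) (Finset.mem_range.2 hu)

lemma F_nc {g : ℕ → Ω → ℂ} (hg : ∀ b, Nc (g b)) (a L : ℕ) : Nc (F g a L) := by
  unfold F
  exact Nc.sumC _ fun i _ => hg _

lemma Orth.symm {Γ : ℕ} {μ : Measure Ω} {g : ℕ → Ω → ℂ} (h : Orth Γ μ g) (p r d b b' : ℕ) (hr : 1 ≤ r)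
    (hd : (b + d < p ∧ b' + d < p) ∨ (p + r + d ≤ b ∧ p + r + d ≤ b')) (hb : b < b')
    (hΓ : Γ * r ^ 2 ≤ d * (b' - b - 1)) :
    ∫ ω, g b' ω * (starRingEnd ℂ) (g b ω) * ((‖F g p r ω‖ ^ 4 : ℝ) : ℂ) ∂μ = 0 := by
  have h1 := h p r d b b' hr hd hb hΓ
  have h2 := congrArg (starRingEnd ℂ) h1
  rw [← integral_conj, map_zero] at h2
  rw [← h2]
  congr 1
  funext ω
  rw [map_mul, map_mul, Complex.conj_conj, Complex.conj_ofReal]
  ring

/-- the orthogonality refinement -/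
lemma refine_orth {Γ : ℕ} {μ : Measure Ω} [IsFiniteMeasure μ] {g : ℕ → Ω → ℂ} (hg : ∀ b, Nc (g b))
    (h : Orth Γ μ g) (x n ℓ y r d C : ℕ) (hr : 1 ≤ r)
    (hd : x + n * ℓ + d ≤ y ∨ y + r + d ≤ x) (hΓ : Γ * r ^ 2 ≤ d * (C * ℓ)) :
    ∫ ω, ‖F g x (n * ℓ) ω‖ ^ 2 * ‖F g y r ω‖ ^ 4 ∂μ ≤
      2 * ((C + 1 : ℕ) : ℝ) * ∑ u ∈ range n, ∫ ω, ‖F g (x + u * ℓ) ℓ ω‖ ^ 2 * ‖F g y r ω‖ ^ 4 ∂μ := by
  simp only [F_split]
  refine almost_orth μ n (C + 1) (fun u => F g (x + u * ℓ) ℓ) (fun ω => ‖F g y r ω‖ ^ 4)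
    (fun u => F_nc hg _ _) ((F_nc hg _ _).norm.pow 4) (fun ω => by positivity) ?_
  intro u hu v hv huv
  have hexp : ∀ ω, F g (x + u * ℓ) ℓ ω * (starRingEnd ℂ) (F g (x + v * ℓ) ℓ ω) * ((‖F g y r ω‖ ^ 4 : ℝ) : ℂ) =
      ∑ i ∈ range ℓ, ∑ j ∈ range ℓ, g (x + u * ℓ + i) ω * (starRingEnd ℂ) (g (x + v * ℓ + j) ω) *
        ((‖F g y r ω‖ ^ 4 : ℝ) : ℂ) := by
    intro ω
    conv_lhs => rw [F, F]
    rw [map_sum, Finset.sum_mul_sum, Finset.sum_mul]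
    refine Finset.sum_congr rfl fun i _ => ?_
    rw [Finset.sum_mul]
  simp only [hexp]
  have hI : ∀ i j, Integrable (fun ω => g (x + u * ℓ + i) ω * (starRingEnd ℂ) (g (x + v * ℓ + j) ω) *
        ((‖F g y r ω‖ ^ 4 : ℝ) : ℂ)) μ := fun i j =>
    (((hg _).mulC (hg _).conj).mulC ((F_nc hg y r).norm.pow 4).ofReal).integrableC μ
  rw [integral_finsetSum _ fun i _ => integrable_finsetSum _ fun j _ => hI i j]
  refine Finset.sum_eq_zero fun i hi => ?_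
  rw [integral_finsetSum _ fun j _ => hI i j]
  refine Finset.sum_eq_zero fun j hj => ?_
  rw [Finset.mem_range] at hi hj
  have hun : u * ℓ + ℓ ≤ n * ℓ := by
    have : (u + 1) * ℓ ≤ n * ℓ := Nat.mul_le_mul_right _ hu
    linarith
  have hvn : v * ℓ + ℓ ≤ n * ℓ := by
    have : (v + 1) * ℓ ≤ n * ℓ := Nat.mul_le_mul_right _ hv
    linarith
  have hside : ((x + u * ℓ + i + d < y ∧ x + v * ℓ + j + d < y) ∨
      (y + r + d ≤ x + u * ℓ + i ∧ y + r + d ≤ x + v * ℓ + j)) := by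
    rcases hd with hd | hd
    · left; constructor <;> omega
    · right; constructor <;> omega
  rcases huv with huv | huv
  · have h1 : (u + (C + 1)) * ℓ ≤ v * ℓ := Nat.mul_le_mul_right _ huv
    have h2 : u * ℓ + C * ℓ + ℓ ≤ v * ℓ := by linarith
    have h3 : C * ℓ ≤ (x + v * ℓ + j) - (x + u * ℓ + i) - 1 := by omega
    exact h y r d _ _ hr hside (by omega) (hΓ.trans (Nat.mul_le_mul_left _ h3))
  · have h1 : (v + (C + 1)) * ℓ ≤ u * ℓ := Nat.mul_le_mul_right _ huv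
    have h2 : v * ℓ + C * ℓ + ℓ ≤ u * ℓ := by linarith
    have h3 : C * ℓ ≤ (x + u * ℓ + i) - (x + v * ℓ + j) - 1 := by omega
    refine Orth.symm h y r d _ _ hr ?_ (by omega) (hΓ.trans (Nat.mul_le_mul_left _ h3))
    rcases hside with hs | hs
    · left; exact ⟨hs.2, hs.1⟩
    · right; exact ⟨hs.2, hs.1⟩

/-- the iteration for the asymmetric bilinear estimates -/
lemma iter {Γ : ℕ} {μ : Measure Ω} [IsFiniteMeasure μ] {g : ℕ → Ω → ℂ} (hg : ∀ b, Nc (g b))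
    (h : Orth Γ μ g) {s : ℕ → ℝ} (hs : ∀ b, 0 ≤ s b) {ρ A : ℝ} (hρ : 1 ≤ ρ) (hA : 0 ≤ A) (t κ : ℕ)
    (hκt : κ ≤ t)
    (hP : ∀ t' < t, ∀ a, ∫ ω, ‖F g a (2 ^ t') ω‖ ^ 6 ∂μ ≤ A * ρ ^ (2 * t') * SS s a (2 ^ t') ^ 3) :
    ∀ n j i x y : ℕ, 1 ≤ i → 1 ≤ j → i ≤ 2 * j → i ≤ t → 2 ^ n * j ≤ t →
      (x + 2 ^ (t - i) + 2 ^ (t - κ) ≤ y ∨ y + 2 ^ (t - j) + 2 ^ (t - κ) ≤ x) →
      (∫ ω, ‖F g x (2 ^ (t - i)) ω‖ ^ 2 * ‖F g y (2 ^ (t - j)) ω‖ ^ 4 ∂μ) * ρ ^ (n * j) ≤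
        (2 * ((Γ * 2 ^ κ + 1 : ℕ) : ℝ)) ^ 2 * A * ρ ^ (2 * t) *
          (SS s x (2 ^ (t - i)) * SS s y (2 ^ (t - j)) ^ 2) := by
  intro n
  set C2 : ℝ := 2 * ((Γ * 2 ^ κ + 1 : ℕ) : ℝ) with hC2
  have hC21 : 1 ≤ C2 := by
    have : (1 : ℝ) ≤ ((Γ * 2 ^ κ + 1 : ℕ) : ℝ) := by exact_mod_cast Nat.le_add_left 1 _
    rw [hC2]; linarith
  have hρ0 : 0 < ρ := by linarith
  induction n with
  | zero =>
    intro j i x y hi hj hij hit hjt hd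
    simp only [pow_zero, one_mul] at hjt
    have h1 := hP (t - i) (by omega) x
    have h2 := hP (t - j) (by omega) y
    have hmono : ∀ e, e ≤ t → A * ρ ^ (2 * e) ≤ A * ρ ^ (2 * t) := fun e he =>
      mul_le_mul_of_nonneg_left (pow_le_pow_right₀ hρ (by omega)) hA
    have h3 := hold μ (fun ω => ‖F g x (2 ^ (t - i)) ω‖) (fun ω => ‖F g y (2 ^ (t - j)) ω‖)
      (F_nc hg _ _).norm (F_nc hg _ _).norm (A * ρ ^ (2 * t)) (SS s x (2 ^ (t - i))) (SS s y (2 ^ (t - j)))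
      (by positivity) (SS_nonneg hs _ _) (SS_nonneg hs _ _)
      (h1.trans (mul_le_mul_of_nonneg_right (hmono _ (by omega)) (pow_nonneg (SS_nonneg hs _ _) 3)))
      (h2.trans (mul_le_mul_of_nonneg_right (hmono _ (by omega)) (pow_nonneg (SS_nonneg hs _ _) 3)))
    have h4 : 0 ≤ A * ρ ^ (2 * t) * (SS s x (2 ^ (t - i)) * SS s y (2 ^ (t - j)) ^ 2) := by
      have := SS_nonneg hs x (2 ^ (t - i))
      have := SS_nonneg hs y (2 ^ (t - j))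
      positivity
    have h5 : 1 ≤ C2 ^ 2 := one_le_pow₀ hC21
    simp only [zero_mul, pow_zero, mul_one]
    calc _ ≤ A * ρ ^ (2 * t) * (SS s x (2 ^ (t - i)) * SS s y (2 ^ (t - j)) ^ 2) := h3
      _ ≤ C2 ^ 2 * (A * ρ ^ (2 * t) * (SS s x (2 ^ (t - i)) * SS s y (2 ^ (t - j)) ^ 2)) := by nlinarith
      _ = _ := by ring
  | succ n ih =>
    intro j i x y hi hj hij hit hjt hd
    have h2jt : 2 * j ≤ t := by
      have : 1 ≤ 2 ^ n := Nat.one_le_two_pow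
      have h1 : 2 ^ (n + 1) * j = 2 ^ n * (2 * j) := by ring
      nlinarith
    set ℓ := 2 ^ (t - 2 * j) with hℓ
    set m := 2 ^ (2 * j - i) with hm
    have hmℓ : 2 ^ (t - i) = m * ℓ := by
      rw [hm, hℓ, ← pow_add]; congr 1; omega
    have hΓ : Γ * (2 ^ (t - j)) ^ 2 ≤ 2 ^ (t - κ) * ((Γ * 2 ^ κ) * ℓ) := by
      have e1 : 2 ^ (t - κ) * ((Γ * 2 ^ κ) * ℓ) = Γ * (2 ^ (t - κ) * 2 ^ κ * ℓ) := by ring
      have e2 : 2 ^ (t - κ) * 2 ^ κ * ℓ = (2 ^ (t - j)) ^ 2 := by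
        rw [hℓ, ← pow_add, ← pow_add, ← pow_mul]; congr 1; omega
      rw [e1, e2]
    rw [hmℓ] at hd
    have hmain := refine_orth hg h x m ℓ y (2 ^ (t - j)) (2 ^ (t - κ)) (Γ * 2 ^ κ) Nat.one_le_two_pow hd hΓ
    rw [← hmℓ] at hmain
    have hpiece : ∀ u ∈ range m, (∫ ω, ‖F g (x + u * ℓ) ℓ ω‖ ^ 2 * ‖F g y (2 ^ (t - j)) ω‖ ^ 4 ∂μ) *
        ρ ^ ((n + 1) * j) ≤ C2 * A * ρ ^ (2 * t) * (SS s (x + u * ℓ) ℓ * SS s y (2 ^ (t - j)) ^ 2) := by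
      intro u hu
      rw [Finset.mem_range] at hu
      have hun : u * ℓ + ℓ ≤ m * ℓ := by
        have : (u + 1) * ℓ ≤ m * ℓ := Nat.mul_le_mul_right _ hu
        linarith
      have h1 := ih (2 * j) j y (x + u * ℓ) hj (by omega) (by omega) (by omega)
        (by rw [← mul_assoc]; calc 2 ^ n * 2 * j = 2 ^ (n + 1) * j := by ring
              _ ≤ t := hjt) (by
          rcases hd with hd | hd
          · right; rw [← hℓ]; omega
          · left; omega)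
      rw [← hℓ] at h1
      have h2 := hP (t - j) (by omega) y
      set S' := SS s y (2 ^ (t - j)) with hS'
      set SJ := SS s (x + u * ℓ) ℓ with hSJ
      have hS'0 : 0 ≤ S' := SS_nonneg hs _ _
      have hSJ0 : 0 ≤ SJ := SS_nonneg hs _ _
      have hρn : 0 < ρ ^ (n * j) := pow_pos hρ0 _
      set P : ℝ := Real.sqrt (A * S') * (C2 * ρ ^ t * SJ / ρ ^ (n * j)) with hPdef
      set R : ℝ := Real.sqrt (A * S') * (ρ ^ (t - j) * S') with hRdef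
      have hsq : Real.sqrt (A * S') ^ 2 = A * S' := Real.sq_sqrt (by positivity)
      have hcs := cs μ (fun ω => ‖F g (x + u * ℓ) ℓ ω‖ ^ 2 * ‖F g y (2 ^ (t - j)) ω‖)
        (fun ω => ‖F g y (2 ^ (t - j)) ω‖ ^ 3) (((F_nc hg _ _).norm.pow 2).mul (F_nc hg _ _).norm)
        ((F_nc hg _ _).norm.pow 3) P R (by positivity) (by positivity) (by
          have e : ∀ ω, (‖F g (x + u * ℓ) ℓ ω‖ ^ 2 * ‖F g y (2 ^ (t - j)) ω‖) ^ 2 =
            ‖F g y (2 ^ (t - j)) ω‖ ^ 2 * ‖F g (x + u * ℓ) ℓ ω‖ ^ 4 := fun ω => by ring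
          simp only [e]
          have e2 : P ^ 2 = C2 ^ 2 * A * ρ ^ (2 * t) * (S' * SJ ^ 2) / ρ ^ (n * (2 * j)) := by
            rw [hPdef, mul_pow, hsq, div_pow]
            have : ρ ^ (n * (2 * j)) = (ρ ^ (n * j)) ^ 2 := by rw [← pow_mul]; congr 1; ring
            rw [this]
            have : ρ ^ (2 * t) = (ρ ^ t) ^ 2 := by rw [← pow_mul]; congr 1; ring
            rw [this]
            ring
          rw [e2, le_div_iff₀ (pow_pos hρ0 _)]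
          exact h1) (by
          have e : ∀ ω, (‖F g y (2 ^ (t - j)) ω‖ ^ 3) ^ 2 = ‖F g y (2 ^ (t - j)) ω‖ ^ 6 := fun ω => by ring
          simp only [e]
          have e2 : R ^ 2 = A * ρ ^ (2 * (t - j)) * S' ^ 3 := by
            rw [hRdef, mul_pow, hsq]
            have : ρ ^ (2 * (t - j)) = (ρ ^ (t - j)) ^ 2 := by rw [← pow_mul]; congr 1; ring
            rw [this]; ring
          rw [e2]; exact h2)
      have e3 : ∀ ω, ‖F g (x + u * ℓ) ℓ ω‖ ^ 2 * ‖F g y (2 ^ (t - j)) ω‖ * ‖F g y (2 ^ (t - j)) ω‖ ^ 3 =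
          ‖F g (x + u * ℓ) ℓ ω‖ ^ 2 * ‖F g y (2 ^ (t - j)) ω‖ ^ 4 := fun ω => by ring
      simp only [e3] at hcs
      have e4 : P * R * ρ ^ ((n + 1) * j) = C2 * A * ρ ^ (2 * t) * (SJ * S' ^ 2) := by
        have e5 : ρ ^ ((n + 1) * j) = ρ ^ (n * j) * ρ ^ j := by rw [← pow_add]; congr 1; ring
        have e6 : ρ ^ (2 * t) = ρ ^ t * ρ ^ (t - j) * ρ ^ j := by
          rw [← pow_add, ← pow_add]; congr 1; omega
        rw [e5, e6, hPdef, hRdef]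
        have e7 : Real.sqrt (A * S') * (C2 * ρ ^ t * SJ / ρ ^ (n * j)) *
            (Real.sqrt (A * S') * (ρ ^ (t - j) * S')) * (ρ ^ (n * j) * ρ ^ j) =
            (Real.sqrt (A * S') ^ 2) * (C2 * ρ ^ t * SJ) * (ρ ^ (t - j) * S') * ρ ^ j := by
          field_simp
        rw [e7, hsq]; ring
      calc _ ≤ P * R * ρ ^ ((n + 1) * j) := mul_le_mul_of_nonneg_right hcs (pow_nonneg hρ0.le _)
        _ = _ := e4
    calc (∫ ω, ‖F g x (2 ^ (t - i)) ω‖ ^ 2 * ‖F g y (2 ^ (t - j)) ω‖ ^ 4 ∂μ) * ρ ^ ((n + 1) * j)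
        ≤ (C2 * ∑ u ∈ range m, ∫ ω, ‖F g (x + u * ℓ) ℓ ω‖ ^ 2 * ‖F g y (2 ^ (t - j)) ω‖ ^ 4 ∂μ) *
            ρ ^ ((n + 1) * j) := mul_le_mul_of_nonneg_right hmain (pow_nonneg hρ0.le _)
      _ = C2 * ∑ u ∈ range m, (∫ ω, ‖F g (x + u * ℓ) ℓ ω‖ ^ 2 * ‖F g y (2 ^ (t - j)) ω‖ ^ 4 ∂μ) *
            ρ ^ ((n + 1) * j) := by rw [mul_assoc, Finset.sum_mul]
      _ ≤ C2 * ∑ u ∈ range m, C2 * A * ρ ^ (2 * t) * (SS s (x + u * ℓ) ℓ * SS s y (2 ^ (t - j)) ^ 2) :=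
            mul_le_mul_of_nonneg_left (Finset.sum_le_sum hpiece) (by linarith)
      _ = _ := by
            rw [← Finset.mul_sum, ← Finset.sum_mul, ← SS_split, ← hmℓ]; ring

end Pool.Agent.W2helper10.MW
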