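import Pool.Agent.W2helper10.MW.Dec2

/-!
Discrete `ℓ²` decoupling at the exponent 6 for systems of functions with a transversal orthogonality property.
Part 3: the theorem.
-/

set_option autoImplicit false

namespace Pool.Agent.W2helper10.MW

open MeasureTheory Finset

lemma pow_sum_le (n m : ℕ) (x : ℕ → ℝ) (hx : ∀ i, 0 ≤ x i) :
    (∑ i ∈ range n, x i) ^ (m + 1) ≤ (n : ℝ) ^ m * ∑ i ∈ range n, x i ^ (m + 1) := by
  have h := pow_sum_le_card_mul_sum_pow (s := range n) (f := x) (fun i _ => hx i) m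
  rwa [Finset.card_range] at h

lemma sum_pow_le (n m : ℕ) (x : ℕ → ℝ) (hx : ∀ i, 0 ≤ x i) (hm : 1 ≤ m) :
    ∑ i ∈ range n, x i ^ m ≤ (∑ i ∈ range n, x i) ^ m := by
  induction n with
  | zero => simp
  | succ n ih =>
    rw [Finset.sum_range_succ, Finset.sum_range_succ]
    have h0 : 0 ≤ ∑ i ∈ range n, x i := Finset.sum_nonneg fun i _ => hx i
    calc _ ≤ (∑ i ∈ range n, x i) ^ m + x n ^ m := by linarith
      _ ≤ _ := pow_add_pow_le h0 (hx n) (by omega)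

lemma exists_small_pow {ρ : ℝ} (hρ : 1 < ρ) (C : ℝ) : ∃ n : ℕ, 1 ≤ n ∧ C ≤ ρ ^ n := by
  obtain ⟨n, hn⟩ := pow_unbounded_of_one_lt C hρ
  refine ⟨n + 1, by omega, hn.le.trans (pow_le_pow_right₀ hρ.le (by omega))⟩

/-- trivial bound -/
lemma triv {Ω : Type} [MeasurableSpace Ω] {μ : Measure Ω} [IsFiniteMeasure μ] {g : ℕ → Ω → ℂ}
    (hg : ∀ b, Nc (g b)) {s : ℕ → ℝ} (hs : ∀ b, 0 ≤ s b) (hsg : ∀ b, ∫ ω, ‖g b ω‖ ^ 6 ∂μ ≤ s b ^ 3)
    (a L : ℕ) : ∫ ω, ‖F g a L ω‖ ^ 6 ∂μ ≤ (L : ℝ) ^ 5 * SS s a L ^ 3 := by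
  have h1 : ∀ ω, ‖F g a L ω‖ ^ 6 ≤ (L : ℝ) ^ 5 * ∑ i ∈ range L, ‖g (a + i) ω‖ ^ 6 := by
    intro ω
    calc ‖F g a L ω‖ ^ 6 ≤ (∑ i ∈ range L, ‖g (a + i) ω‖) ^ 6 :=
          pow_le_pow_left₀ (norm_nonneg _) (norm_sum_le _ _) 6
      _ ≤ _ := pow_sum_le L 5 (fun i => ‖g (a + i) ω‖) fun i => norm_nonneg _
  have hi : ∀ i, Integrable (fun ω => ‖g (a + i) ω‖ ^ 6) μ := fun i => ((hg _).norm.pow 6).integrable μ
  calc ∫ ω, ‖F g a L ω‖ ^ 6 ∂μ ≤ ∫ ω, (L : ℝ) ^ 5 * ∑ i ∈ range L, ‖g (a + i) ω‖ ^ 6 ∂μ := by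
        refine integral_mono (((F_nc hg _ _).norm.pow 6).integrable μ) ?_ h1
        exact (integrable_finsetSum _ fun i _ => hi i).const_mul _
    _ = (L : ℝ) ^ 5 * ∑ i ∈ range L, ∫ ω, ‖g (a + i) ω‖ ^ 6 ∂μ := by
        rw [integral_const_mul, integral_finsetSum _ fun i _ => hi i]
    _ ≤ (L : ℝ) ^ 5 * ∑ i ∈ range L, s (a + i) ^ 3 := by
        gcongr with i _
        exact hsg _
    _ ≤ (L : ℝ) ^ 5 * SS s a L ^ 3 := by
        gcongr
        exact sum_pow_le L 3 (fun i => s (a + i)) (fun i => hs _) (by norm_num)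

theorem decoupling (Γ : ℕ) (ρ : ℝ) (hρ : 1 < ρ) : ∃ A : ℝ, 1 ≤ A ∧
    ∀ (Ω : Type) [MeasurableSpace Ω] (μ : Measure Ω) [IsFiniteMeasure μ] (g : ℕ → Ω → ℂ),
      (∀ b, Nc (g b)) → Orth Γ μ g → ∀ s : ℕ → ℝ, (∀ b, 0 ≤ s b) →
      (∀ b, ∫ ω, ‖g b ω‖ ^ 6 ∂μ ≤ s b ^ 3) → ∀ t a : ℕ,
      ∫ ω, ‖F g a (2 ^ t) ω‖ ^ 6 ∂μ ≤ A * ρ ^ (2 * t) * SS s a (2 ^ t) ^ 3 := by
  obtain ⟨κ, hκ1, hκ⟩ := exists_small_pow hρ (2 * 23328)
  obtain ⟨M, hM1, hM⟩ := exists_small_pow hρ 64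
  set K : ℕ := 2 ^ κ with hK
  set C2 : ℝ := 2 * ((Γ * 2 ^ κ + 1 : ℕ) : ℝ) with hC2
  obtain ⟨j₀, hj₀1, hj₀⟩ := exists_small_pow (by norm_num : (1 : ℝ) < 8) (2 * (32 * (K : ℝ) ^ 8 * C2 ^ 2))
  set j : ℕ := max j₀ κ with hj
  have hjκ : κ ≤ j := le_max_right _ _
  have hj1 : 1 ≤ j := hκ1.trans hjκ
  have hj8 : 2 * (32 * (K : ℝ) ^ 8 * C2 ^ 2) ≤ 8 ^ j :=
    hj₀.trans (pow_le_pow_right₀ (by norm_num) (le_max_left _ _))
  set T₀ : ℕ := 2 ^ M * j with hT₀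
  have hjT : 2 * j ≤ T₀ := by
    have : 2 ≤ 2 ^ M := by
      calc 2 = 2 ^ 1 := by norm_num
        _ ≤ 2 ^ M := Nat.pow_le_pow_right (by norm_num) hM1
    exact Nat.mul_le_mul_right _ this
  have hρ0 : 0 < ρ := by linarith
  refine ⟨((2 ^ T₀ : ℕ) : ℝ) ^ 5, ?_, ?_⟩
  · apply one_le_pow₀
    exact_mod_cast Nat.one_le_two_pow
  intro Ω _ μ _ g hg ho s hs hsg t
  set A : ℝ := ((2 ^ T₀ : ℕ) : ℝ) ^ 5 with hA
  have hA0 : 0 ≤ A := by positivity
  induction t using Nat.strong_induction_on with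
  | _ t IH =>
  intro a
  rcases lt_or_ge t T₀ with ht | ht
  · have h1 := triv hg hs hsg a (2 ^ t)
    have h2 : (((2 ^ t : ℕ) : ℝ)) ^ 5 ≤ A := by
      rw [hA]
      apply pow_le_pow_left₀ (by positivity)
      exact_mod_cast Nat.pow_le_pow_right (by norm_num) ht.le
    have h3 : 1 ≤ ρ ^ (2 * t) := one_le_pow₀ hρ.le
    have h4 := SS_nonneg hs a (2 ^ t)
    calc _ ≤ (((2 ^ t : ℕ) : ℝ)) ^ 5 * SS s a (2 ^ t) ^ 3 := h1
      _ ≤ A * SS s a (2 ^ t) ^ 3 := by gcongr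
      _ ≤ A * ρ ^ (2 * t) * SS s a (2 ^ t) ^ 3 := by
          apply mul_le_mul_of_nonneg_right _ (by positivity)
          nlinarith
  · -- the main case
    have hκt : κ ≤ t := by omega
    set S := SS s a (2 ^ t) with hS
    have hS0 : 0 ≤ S := SS_nonneg hs _ _
    set L := 2 ^ (t - κ) with hL
    have hKL : 2 ^ t = K * L := by rw [hK, hL, ← pow_add]; congr 1; omega
    set X : ℝ := 2 ^ (3 * j) * (C2 ^ 2 * A * ρ ^ (2 * t) / ρ ^ (M * j)) * S ^ 3 with hX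
    have hX0 : 0 ≤ X := by positivity
    have hSpart : ∀ u < K, SS s (a + u * L) L ≤ S := by
      intro u hu
      rw [hS, hKL]
      exact SS_part_le hs a K L u hu
    -- the bilinear estimate
    have hbil : ∀ u < K, ∀ v < K, (u + 2 ≤ v ∨ v + 2 ≤ u) →
        ∫ ω, ‖F g (a + u * L) L ω‖ ^ 2 * ‖F g (a + v * L) L ω‖ ^ 4 ∂μ ≤ X := by
      intro u hu v hv huv
      set m := 2 ^ (j - κ) with hm
      set ℓ := 2 ^ (t - j) with hℓ
      have hmℓ : L = m * ℓ := by rw [hm, hℓ, hL, ← pow_add]; congr 1; omega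
      have hsep : ∀ w < m, (a + u * L + L + L ≤ a + v * L + w * ℓ ∨
          a + v * L + w * ℓ + ℓ + L ≤ a + u * L) := by
        intro w hw
        have h1 : w * ℓ + ℓ ≤ m * ℓ := by
          have : (w + 1) * ℓ ≤ m * ℓ := Nat.mul_le_mul_right _ hw
          linarith
        rw [← hmℓ] at h1
        rcases huv with huv | huv
        · left
          have h2 : (u + 2) * L ≤ v * L := Nat.mul_le_mul_right _ huv
          have h3 : u * L + 2 * L ≤ v * L := by linarith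
          omega
        · right
          have h2 : (v + 2) * L ≤ u * L := Nat.mul_le_mul_right _ huv
          have h3 : v * L + 2 * L ≤ u * L := by linarith
          omega
      have hit : ∀ w < m, (∫ ω, ‖F g (a + u * L) L ω‖ ^ 2 * ‖F g (a + v * L + w * ℓ) ℓ ω‖ ^ 4 ∂μ) ≤
          C2 ^ 2 * A * ρ ^ (2 * t) / ρ ^ (M * j) * (SS s (a + u * L) L * SS s (a + v * L + w * ℓ) ℓ ^ 2) := by
        intro w hw
        have := iter hg ho hs hρ.le hA0 t κ hκt (fun t' ht' a => IH t' ht' a) M j κ (a + u * L)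
          (a + v * L + w * ℓ) hκ1 hj1 (by omega) hκt ht (hsep w hw)
        rw [← hL, ← hℓ, ← hC2] at this
        rw [div_mul_eq_mul_div, le_div_iff₀ (pow_pos hρ0 _)]
        exact this
      have hpt : ∀ ω, ‖F g (a + u * L) L ω‖ ^ 2 * ‖F g (a + v * L) L ω‖ ^ 4 ≤
          (m : ℝ) ^ 3 * ∑ w ∈ range m, ‖F g (a + u * L) L ω‖ ^ 2 * ‖F g (a + v * L + w * ℓ) ℓ ω‖ ^ 4 := by
        intro ω
        have h1 : ‖F g (a + v * L) L ω‖ ^ 4 ≤ (m : ℝ) ^ 3 * ∑ w ∈ range m, ‖F g (a + v * L + w * ℓ) ℓ ω‖ ^ 4 := by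
          rw [hmℓ, F_split, ← hmℓ]
          calc _ ≤ (∑ w ∈ range m, ‖F g (a + v * L + w * ℓ) ℓ ω‖) ^ 4 :=
                pow_le_pow_left₀ (norm_nonneg _) (norm_sum_le _ _) 4
            _ ≤ _ := pow_sum_le m 3 (fun w => ‖F g (a + v * L + w * ℓ) ℓ ω‖) fun i => norm_nonneg _
        calc _ ≤ ‖F g (a + u * L) L ω‖ ^ 2 * ((m : ℝ) ^ 3 * ∑ w ∈ range m, ‖F g (a + v * L + w * ℓ) ℓ ω‖ ^ 4) := by
              gcongr
          _ = _ := by rw [Finset.mul_sum, Finset.mul_sum, Finset.mul_sum]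
                      refine Finset.sum_congr rfl fun w _ => ?_
                      ring
      have hii : ∀ w, Integrable (fun ω => ‖F g (a + u * L) L ω‖ ^ 2 * ‖F g (a + v * L + w * ℓ) ℓ ω‖ ^ 4) μ :=
        fun w => (((F_nc hg _ _).norm.pow 2).mul ((F_nc hg _ _).norm.pow 4)).integrable μ
      have hD0 : 0 ≤ C2 ^ 2 * A * ρ ^ (2 * t) / ρ ^ (M * j) := by positivity
      calc ∫ ω, ‖F g (a + u * L) L ω‖ ^ 2 * ‖F g (a + v * L) L ω‖ ^ 4 ∂μ
          ≤ ∫ ω, (m : ℝ) ^ 3 * ∑ w ∈ range m, ‖F g (a + u * L) L ω‖ ^ 2 * ‖F g (a + v * L + w * ℓ) ℓ ω‖ ^ 4 ∂μ := by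
            refine integral_mono ((((F_nc hg _ _).norm.pow 2).mul ((F_nc hg _ _).norm.pow 4)).integrable μ) ?_ hpt
            exact (integrable_finsetSum _ fun w _ => hii w).const_mul _
        _ = (m : ℝ) ^ 3 * ∑ w ∈ range m, ∫ ω, ‖F g (a + u * L) L ω‖ ^ 2 * ‖F g (a + v * L + w * ℓ) ℓ ω‖ ^ 4 ∂μ := by
            rw [integral_const_mul, integral_finsetSum _ fun w _ => hii w]
        _ ≤ (m : ℝ) ^ 3 * ∑ w ∈ range m, C2 ^ 2 * A * ρ ^ (2 * t) / ρ ^ (M * j) *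
              (SS s (a + u * L) L * SS s (a + v * L + w * ℓ) ℓ ^ 2) := by
            gcongr with w hw
            exact hit w (Finset.mem_range.1 hw)
        _ = (m : ℝ) ^ 3 * (C2 ^ 2 * A * ρ ^ (2 * t) / ρ ^ (M * j) * (SS s (a + u * L) L *
              ∑ w ∈ range m, SS s (a + v * L + w * ℓ) ℓ ^ 2)) := by
            simp only [Finset.mul_sum]
        _ ≤ (m : ℝ) ^ 3 * (C2 ^ 2 * A * ρ ^ (2 * t) / ρ ^ (M * j) * (S * S ^ 2)) := by
            have h1 : ∑ w ∈ range m, SS s (a + v * L + w * ℓ) ℓ ^ 2 ≤ S ^ 2 := by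
              calc _ ≤ (∑ w ∈ range m, SS s (a + v * L + w * ℓ) ℓ) ^ 2 :=
                    sum_pow_le m 2 (fun w => SS s (a + v * L + w * ℓ) ℓ) (fun w => SS_nonneg hs _ _) (by norm_num)
                _ = (SS s (a + v * L) L) ^ 2 := by rw [← SS_split, ← hmℓ]
                _ ≤ S ^ 2 := pow_le_pow_left₀ (SS_nonneg hs _ _) (hSpart v hv) 2
            have h2 := hSpart u hu
            have h3 := SS_nonneg hs (a + u * L) L
            have h4 : 0 ≤ ∑ w ∈ range m, SS s (a + v * L + w * ℓ) ℓ ^ 2 := Finset.sum_nonneg fun w _ => sq_nonneg _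
            gcongr
        _ ≤ X := by
            rw [hX]
            have h1 : (m : ℝ) ^ 3 ≤ 2 ^ (3 * j) := by
              rw [hm]; push_cast
              rw [← pow_mul]
              exact pow_le_pow_right₀ (by norm_num) (by omega)
            have h2 : (m : ℝ) ^ 3 * (C2 ^ 2 * A * ρ ^ (2 * t) / ρ ^ (M * j) * (S * S ^ 2)) =
                (m : ℝ) ^ 3 * ((C2 ^ 2 * A * ρ ^ (2 * t) / ρ ^ (M * j)) * S ^ 3) := by ring
            have h3 : 2 ^ (3 * j) * (C2 ^ 2 * A * ρ ^ (2 * t) / ρ ^ (M * j)) * S ^ 3 =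
                2 ^ (3 * j) * ((C2 ^ 2 * A * ρ ^ (2 * t) / ρ ^ (M * j)) * S ^ 3) := by ring
            rw [h2, h3]
            exact mul_le_mul_of_nonneg_right h1 (by positivity)
    have hbil3 : ∀ u < K, ∀ v < K, u + 2 ≤ v →
        ∫ ω, ‖F g (a + u * L) L ω‖ ^ 3 * ‖F g (a + v * L) L ω‖ ^ 3 ∂μ ≤ X := by
      intro u hu v hv huv
      have h1 := hbil u hu v hv (Or.inl huv)
      have h2 := hbil v hv u hu (Or.inr huv)
      have i1 : Integrable (fun ω => ‖F g (a + u * L) L ω‖ ^ 2 * ‖F g (a + v * L) L ω‖ ^ 4) μ :=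
        (((F_nc hg _ _).norm.pow 2).mul ((F_nc hg _ _).norm.pow 4)).integrable μ
      have i2 : Integrable (fun ω => ‖F g (a + v * L) L ω‖ ^ 2 * ‖F g (a + u * L) L ω‖ ^ 4) μ :=
        (((F_nc hg _ _).norm.pow 2).mul ((F_nc hg _ _).norm.pow 4)).integrable μ
      have h3 : ∫ ω, ‖F g (a + u * L) L ω‖ ^ 3 * ‖F g (a + v * L) L ω‖ ^ 3 ∂μ ≤
          ∫ ω, (‖F g (a + u * L) L ω‖ ^ 2 * ‖F g (a + v * L) L ω‖ ^ 4 +
            ‖F g (a + v * L) L ω‖ ^ 2 * ‖F g (a + u * L) L ω‖ ^ 4) / 2 ∂μ := by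
        refine integral_mono ((((F_nc hg _ _).norm.pow 3).mul ((F_nc hg _ _).norm.pow 3)).integrable μ)
          ((i1.add i2).div_const 2) fun ω => ?_
        show ‖F g (a + u * L) L ω‖ ^ 3 * ‖F g (a + v * L) L ω‖ ^ 3 ≤ (‖F g (a + u * L) L ω‖ ^ 2 * ‖F g (a + v * L) L ω‖ ^ 4 +
            ‖F g (a + v * L) L ω‖ ^ 2 * ‖F g (a + u * L) L ω‖ ^ 4) / 2
        set x := ‖F g (a + u * L) L ω‖
        set y := ‖F g (a + v * L) L ω‖
        nlinarith [sq_nonneg (x * y * (x - y))]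
      rw [integral_div, integral_add i1 i2] at h3
      linarith
    -- broad-narrow
    have hbn : ∀ ω, ‖F g a (2 ^ t) ω‖ ^ 6 ≤ 23328 * ∑ u ∈ range K, ‖F g (a + u * L) L ω‖ ^ 6 +
        32 * K ^ 6 * ∑ u ∈ range K, ∑ v ∈ range K, if u + 2 ≤ v then
          ‖F g (a + u * L) L ω‖ ^ 3 * ‖F g (a + v * L) L ω‖ ^ 3 else 0 := by
      intro ω
      rw [hKL, F_split]
      calc _ ≤ (∑ u ∈ range K, ‖F g (a + u * L) L ω‖) ^ 6 :=
            pow_le_pow_left₀ (norm_nonneg _) (norm_sum_le _ _) 6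
        _ ≤ _ := broad K (fun u => ‖F g (a + u * L) L ω‖) fun i => norm_nonneg _
    have j1 : ∀ u, Integrable (fun ω => ‖F g (a + u * L) L ω‖ ^ 6) μ := fun u =>
      ((F_nc hg _ _).norm.pow 6).integrable μ
    have j2 : ∀ u v, Integrable (fun ω => if u + 2 ≤ v then
          ‖F g (a + u * L) L ω‖ ^ 3 * ‖F g (a + v * L) L ω‖ ^ 3 else 0) μ := by
      intro u v
      split_ifs
      · exact (((F_nc hg _ _).norm.pow 3).mul ((F_nc hg _ _).norm.pow 3)).integrable μ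
      · exact integrable_zero _ _ _
    have hρκ : ρ ^ (2 * (t - κ)) * ρ ^ κ ≤ ρ ^ (2 * t) := by
      rw [← pow_add]; exact pow_le_pow_right₀ hρ.le (by omega)
    calc ∫ ω, ‖F g a (2 ^ t) ω‖ ^ 6 ∂μ
        ≤ ∫ ω, (23328 * ∑ u ∈ range K, ‖F g (a + u * L) L ω‖ ^ 6 +
        32 * K ^ 6 * ∑ u ∈ range K, ∑ v ∈ range K, if u + 2 ≤ v then
          ‖F g (a + u * L) L ω‖ ^ 3 * ‖F g (a + v * L) L ω‖ ^ 3 else 0) ∂μ := by
          refine integral_mono (((F_nc hg _ _).norm.pow 6).integrable μ) ?_ hbn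
          exact ((integrable_finsetSum _ fun u _ => j1 u).const_mul _).add
            ((integrable_finsetSum _ fun u _ => integrable_finsetSum _ fun v _ => j2 u v).const_mul _)
      _ = 23328 * ∑ u ∈ range K, ∫ ω, ‖F g (a + u * L) L ω‖ ^ 6 ∂μ +
        32 * K ^ 6 * ∑ u ∈ range K, ∑ v ∈ range K, ∫ ω, (if u + 2 ≤ v then
          ‖F g (a + u * L) L ω‖ ^ 3 * ‖F g (a + v * L) L ω‖ ^ 3 else 0) ∂μ := by
          rw [integral_add ((integrable_finsetSum _ fun u _ => j1 u).const_mul _)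
            ((integrable_finsetSum _ fun u _ => integrable_finsetSum _ fun v _ => j2 u v).const_mul _),
            integral_const_mul, integral_const_mul, integral_finsetSum _ fun u _ => j1 u,
            integral_finsetSum _ fun u _ => integrable_finsetSum _ fun v _ => j2 u v]
          congr 2
          refine Finset.sum_congr rfl fun u _ => ?_
          rw [integral_finsetSum _ fun v _ => j2 u v]
      _ ≤ 23328 * ∑ u ∈ range K, A * ρ ^ (2 * (t - κ)) * SS s (a + u * L) L ^ 3 +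
        32 * K ^ 6 * ∑ u ∈ range K, ∑ v ∈ range K, X := by
          gcongr with u hu u hu v hv
          · exact IH (t - κ) (by omega) _
          · rw [Finset.mem_range] at hu hv
            split_ifs with huv
            · exact hbil3 u hu v hv huv
            · simpa using hX0
      _ ≤ 23328 * (A * ρ ^ (2 * (t - κ)) * S ^ 3) + 32 * K ^ 8 * X := by
          have h1 : ∑ u ∈ range K, SS s (a + u * L) L ^ 3 ≤ S ^ 3 := by
            rw [hS, hKL, SS_split]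
            exact sum_pow_le K 3 (fun u => SS s (a + u * L) L) (fun u => SS_nonneg hs _ _) (by norm_num)
          rw [← Finset.mul_sum]
          simp only [Finset.sum_const, Finset.card_range, nsmul_eq_mul]
          have h2 : 32 * (K : ℝ) ^ 6 * (K * (K * X)) = 32 * K ^ 8 * X := by ring
          rw [h2]
          gcongr
      _ ≤ A * ρ ^ (2 * t) * S ^ 3 := by
          have hB : 0 ≤ A * ρ ^ (2 * t) * S ^ 3 := by positivity
          have h1 : 23328 * (A * ρ ^ (2 * (t - κ)) * S ^ 3) ≤ (A * ρ ^ (2 * t) * S ^ 3) / 2 := by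
            have h3 : 2 * 23328 * ρ ^ (2 * (t - κ)) ≤ ρ ^ (2 * t) := by
              calc 2 * 23328 * ρ ^ (2 * (t - κ)) ≤ ρ ^ κ * ρ ^ (2 * (t - κ)) :=
                    mul_le_mul_of_nonneg_right hκ (by positivity)
                _ = ρ ^ (2 * (t - κ)) * ρ ^ κ := mul_comm _ _
                _ ≤ _ := hρκ
            have h4 : 0 ≤ A * S ^ 3 := by positivity
            nlinarith [mul_le_mul_of_nonneg_left h3 h4]
          have h2 : 32 * K ^ 8 * X ≤ (A * ρ ^ (2 * t) * S ^ 3) / 2 := by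
            have h5 : (64 : ℝ) ^ j ≤ ρ ^ (M * j) := by
              rw [pow_mul]; exact pow_le_pow_left₀ (by norm_num) hM j
            have h6 : (2 : ℝ) ^ (3 * j) = 8 ^ j := by rw [pow_mul]; norm_num
            have h7 : (64 : ℝ) ^ j = 8 ^ j * 8 ^ j := by rw [← mul_pow]; norm_num
            have h8 : 32 * (K : ℝ) ^ 8 * C2 ^ 2 * 2 ^ (3 * j) ≤ ρ ^ (M * j) / 2 := by
              rw [h6]
              have h9 : 2 * (32 * (K : ℝ) ^ 8 * C2 ^ 2) * 8 ^ j ≤ 8 ^ j * 8 ^ j :=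
                mul_le_mul_of_nonneg_right hj8 (by positivity)
              linarith
            have h10 : 32 * (K : ℝ) ^ 8 * X = (32 * (K : ℝ) ^ 8 * C2 ^ 2 * 2 ^ (3 * j)) *
                (A * ρ ^ (2 * t) * S ^ 3) / ρ ^ (M * j) := by
              rw [hX]; field_simp
            rw [h10, div_le_iff₀ (pow_pos hρ0 _)]
            have := mul_le_mul_of_nonneg_right h8 hB
            linarith
          linarith

end Pool.Agent.W2helper10.MW
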