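import Pool.Agent.W2helper10.MW.Dec3
import Pool.Agent.TH181.MX.Sum

/-!
The Fejer weighted torus, integrals of characters, and the transversality property of curved phases.
-/

set_option autoImplicit false

namespace Pool.Agent.W2helper10.MW

open MeasureTheory Finset
open Pool.Agent.W928.MW (e e_add e_norm e_cont)
open Pool.Agent.TH181.MX (e_conj)

lemma e_zero : e 0 = 1 := by unfold Pool.Agent.W928.MW.e; simp

lemma e_int (n : ℤ) : e (n : ℝ) = 1 := by
  rw [Pool.Agent.TH181.MX.e_ee]; exact Pool.Agent.H807R2.Dav.ee_int n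

lemma e_neg (x : ℝ) : e (-x) = (starRingEnd ℂ) (e x) := (e_conj x).symm

lemma int_unit (a : ℝ) (n : ℤ) : ∫ x in Set.Ioc a (a + 1), e ((n : ℝ) * x) = if n = 0 then 1 else 0 := by
  rw [← intervalIntegral.integral_of_le (by linarith)]
  split_ifs with h
  · subst h
    simp [e_zero]
  · have hc : (2 * (Real.pi : ℂ) * Complex.I * (n : ℂ)) ≠ 0 := by
      have := Real.pi_ne_zero
      have h2 : (n : ℂ) ≠ 0 := by exact_mod_cast h
      simp [this, h2]
    have h1 : ∀ x : ℝ, e ((n : ℝ) * x) = Complex.exp ((2 * (Real.pi : ℂ) * Complex.I * (n : ℂ)) * x) := by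
      intro x
      unfold Pool.Agent.W928.MW.e
      congr 1
      push_cast
      ring
    simp only [h1]
    rw [integral_exp_mul_complex hc]
    have h2 : Complex.exp ((2 * (Real.pi : ℂ) * Complex.I * (n : ℂ)) * ((a + 1 : ℝ) : ℂ)) =
        Complex.exp ((2 * (Real.pi : ℂ) * Complex.I * (n : ℂ)) * ((a : ℝ) : ℂ)) := by
      have h3 : (2 * (Real.pi : ℂ) * Complex.I * (n : ℂ)) * ((a + 1 : ℝ) : ℂ) =
          (2 * (Real.pi : ℂ) * Complex.I * (n : ℂ)) * ((a : ℝ) : ℂ) + (n : ℂ) * (2 * Real.pi * Complex.I) := by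
        push_cast; ring
      rw [h3, Complex.exp_add, Complex.exp_int_mul_two_pi_mul_I, mul_one]
    rw [h2, sub_self, zero_div]

/-- the Fejer kernel -/
noncomputable def Fj (W : ℕ) (β : ℝ) : ℝ := ‖∑ l ∈ range W, e ((l : ℝ) * β)‖ ^ 2 / W

lemma Fj_nonneg (W : ℕ) (β : ℝ) : 0 ≤ Fj W β := by unfold Fj; positivity

lemma Fj_le (W : ℕ) (β : ℝ) : Fj W β ≤ W := by
  unfold Fj
  rcases Nat.eq_zero_or_pos W with rfl | hW
  · simp
  have hW0 : (0 : ℝ) < W := by exact_mod_cast hW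
  rw [div_le_iff₀ hW0]
  have h1 : ‖∑ l ∈ range W, e ((l : ℝ) * β)‖ ≤ W := by
    refine (norm_sum_le _ _).trans ?_
    simp [e_norm]
  calc _ ≤ (W : ℝ) ^ 2 := pow_le_pow_left₀ (norm_nonneg _) h1 2
    _ = W * W := by ring

lemma Fj_cont (W : ℕ) : Continuous (Fj W) := by
  unfold Fj
  have : Continuous fun β : ℝ => ∑ l ∈ range W, e ((l : ℝ) * β) :=
    continuous_finsetSum _ fun l _ => e_cont.comp (by fun_prop)
  exact (this.norm.pow 2).div_const _

lemma Fj_expand (W : ℕ) (β : ℝ) : ((Fj W β : ℝ) : ℂ) =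
    (∑ p ∈ range W ×ˢ range W, e ((((p.1 : ℤ) - (p.2 : ℤ) : ℤ) : ℝ) * β)) / W := by
  unfold Fj
  push_cast
  congr 1
  have h1 : ((‖∑ l ∈ range W, e ((l : ℝ) * β)‖ ^ 2 : ℝ) : ℂ) =
      (∑ l ∈ range W, e ((l : ℝ) * β)) * (starRingEnd ℂ) (∑ l ∈ range W, e ((l : ℝ) * β)) := by
    rw [Complex.mul_conj, Complex.normSq_eq_norm_sq]
  push_cast at h1
  rw [h1, map_sum, Finset.sum_mul_sum, Finset.sum_product]
  refine Finset.sum_congr rfl fun l _ => Finset.sum_congr rfl fun l' _ => ?_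
  rw [e_conj, ← e_add]
  congr 1
  ring

/-- the coefficients of the Fejer kernel -/
noncomputable def tri (W : ℕ) (A : ℤ) : ℝ :=
  ((((range W) ×ˢ (range W)).filter fun p => A + ((p.1 : ℤ) - (p.2 : ℤ)) = 0).card : ℝ) / W

lemma tri_zero {W : ℕ} {A : ℤ} (h : (W : ℤ) ≤ |A|) : tri W A = 0 := by
  unfold tri
  rw [Finset.filter_eq_empty_iff.2, Finset.card_empty]
  · simp
  · intro p hp
    rw [Finset.mem_product, Finset.mem_range, Finset.mem_range] at hp
    rcases abs_cases A with ⟨h1, _⟩ | ⟨h1, _⟩ <;> omega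

noncomputable def nu (W : ℕ) : Measure ℝ :=
  (volume.restrict (Set.Ioc (-(1 / 2) : ℝ) (-(1 / 2) + 1))).withDensity (fun β => ENNReal.ofReal (Fj W β))

instance (W : ℕ) : IsFiniteMeasure (nu W) := by
  unfold nu
  apply isFiniteMeasure_withDensity_ofReal
  refine (Integrable.of_bound (C := (W : ℝ)) (Fj_cont W).aestronglyMeasurable ?_).hasFiniteIntegral
  refine Filter.Eventually.of_forall fun x => ?_
  rw [Real.norm_of_nonneg (Fj_nonneg _ _)]
  exact Fj_le _ _

lemma int_nu (W : ℕ) (f : ℝ → ℂ) :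
    ∫ x, f x ∂(nu W) = ∫ x in Set.Ioc (-(1 / 2) : ℝ) (-(1 / 2) + 1), ((Fj W x : ℝ) : ℂ) * f x := by
  unfold nu
  rw [integral_withDensity_eq_integral_toReal_smul₀]
  · refine integral_congr_ae (Filter.Eventually.of_forall fun x => ?_)
    simp only [ENNReal.toReal_ofReal (Fj_nonneg W x)]
    rw [Complex.real_smul]
  · exact (Fj_cont W).measurable.ennreal_ofReal.aemeasurable
  · exact Filter.Eventually.of_forall fun x => ENNReal.ofReal_lt_top

lemma int_nuR (W : ℕ) (f : ℝ → ℝ) :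
    ∫ x, f x ∂(nu W) = ∫ x in Set.Ioc (-(1 / 2) : ℝ) (-(1 / 2) + 1), Fj W x * f x := by
  unfold nu
  rw [integral_withDensity_eq_integral_toReal_smul₀]
  · refine integral_congr_ae (Filter.Eventually.of_forall fun x => ?_)
    simp only [ENNReal.toReal_ofReal (Fj_nonneg W x)]
    rw [smul_eq_mul]
  · exact (Fj_cont W).measurable.ennreal_ofReal.aemeasurable
  · exact Filter.Eventually.of_forall fun x => ENNReal.ofReal_lt_top

lemma int_nu_e (W : ℕ) (A : ℤ) : ∫ x, e ((A : ℝ) * x) ∂(nu W) = (tri W A : ℂ) := by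
  rw [int_nu]
  have h1 : ∀ x : ℝ, ((Fj W x : ℝ) : ℂ) * e ((A : ℝ) * x) =
      (∑ p ∈ range W ×ˢ range W, e (((A + ((p.1 : ℤ) - (p.2 : ℤ)) : ℤ) : ℝ) * x)) / W := by
    intro x
    rw [Fj_expand, div_mul_eq_mul_div, Finset.sum_mul]
    congr 1
    refine Finset.sum_congr rfl fun p _ => ?_
    rw [← e_add]
    congr 1
    push_cast; ring
  simp only [h1]
  rw [integral_div, integral_finsetSum]
  · simp only [int_unit]
    unfold tri
    rw [Finset.card_filter]
    push_cast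
    congr 1
    refine Finset.sum_congr rfl fun x _ => ?_
    split_ifs <;> simp
  · intro p _
    exact Integrable.of_bound (C := 1) (e_cont.comp (by fun_prop)).aestronglyMeasurable
      (Filter.Eventually.of_forall fun x => (e_norm _).le)

/-- the Fejer weighted torus -/
noncomputable def mu (W : ℕ) : Measure (ℝ × ℝ) := (nu W).prod (volume.restrict (Set.Ioc (0 : ℝ) (0 + 1)))

instance (W : ℕ) : IsFiniteMeasure (mu W) := by unfold mu; infer_instance

lemma int_char (W : ℕ) (A B : ℤ) :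
    ∫ ω, e ((A : ℝ) * ω.1 + (B : ℝ) * ω.2) ∂(mu W) = if B = 0 then (tri W A : ℂ) else 0 := by
  unfold mu
  simp only [e_add]
  rw [integral_prod_mul (fun x => e ((A : ℝ) * x)) (fun y => e ((B : ℝ) * y)), int_nu_e, int_unit]
  split_ifs <;> simp

lemma int_char_zero (W : ℕ) (A B : ℤ) (h : B ≠ 0 ∨ (W : ℤ) ≤ |A|) :
    ∫ ω, e ((A : ℝ) * ω.1 + (B : ℝ) * ω.2) ∂(mu W) = 0 := by
  rw [int_char]
  rcases h with h | h
  · rw [if_neg h]
  · rw [tri_zero h]; simp

lemma nc_e (A B : ℝ) : Nc (fun ω : ℝ × ℝ => e (A * ω.1 + B * ω.2)) :=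
  ⟨(e_cont.comp (by fun_prop)).measurable, 1, fun ω => (e_norm _).le⟩

end Pool.Agent.W2helper10.MW
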