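import Pool.Agent.W2helper10.MW.Sup

/-!
The measure of the exceptional set in an arc.
-/

set_option autoImplicit false

namespace Pool.Agent.W2helper10.MW

open MeasureTheory Finset
open Pool.Agent.W928.MW (e e_add e_norm e_cont)

/-- the dyadic pieces of a sequence of coefficients on `[1, N]` -/
noncomputable def cut (c : ℤ → ℂ) (N i : ℕ) (n : ℤ) : ℂ :=
  if ((2 ^ i : ℕ) : ℤ) ≤ n ∧ n < min ((2 ^ (i + 1) : ℕ) : ℤ) (N + 1) then c n else 0

lemma cut_norm (c : ℤ → ℂ) (hc : ∀ n, ‖c n‖ ≤ 1) (N i : ℕ) (n : ℤ) : ‖cut c N i n‖ ≤ 1 := by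
  unfold cut; split_ifs
  · exact hc n
  · simp

lemma cut_supp (c : ℤ → ℂ) (N i : ℕ) (n : ℤ) (h : cut c N i n ≠ 0) :
    ((2 ^ i : ℕ) : ℤ) ≤ n ∧ n < 2 * ((2 ^ i : ℕ) : ℤ) ∧ n < N + 1 := by
  unfold cut at h
  split_ifs at h with h1
  · have h2 : ((2 ^ (i + 1) : ℕ) : ℤ) = 2 * ((2 ^ i : ℕ) : ℤ) := by push_cast; ring
    rw [h2] at h1
    omega
  · exact absurd rfl h

lemma sum_cut (c : ℤ → ℂ) (N n : ℕ) (h1 : 1 ≤ n) (h2 : n ≤ N) :
    ∑ i ∈ range (Nat.log 2 N + 1), cut c N i n = c n := by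
  rw [Finset.sum_eq_single (Nat.log 2 n)]
  · unfold cut
    rw [if_pos]
    have h3 := Nat.pow_log_le_self 2 (show n ≠ 0 by omega)
    have h4 := Nat.lt_pow_succ_log_self (b := 2) (by norm_num) n
    have h3' : ((2 ^ Nat.log 2 n : ℕ) : ℤ) ≤ n := by exact_mod_cast h3
    have h4' : (n : ℤ) < ((2 ^ (Nat.log 2 n + 1) : ℕ) : ℤ) := by exact_mod_cast h4
    exact ⟨h3', lt_min h4' (by omega)⟩
  · intro i _ hi
    by_contra h
    have h3 := cut_supp c N i n h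
    apply hi
    have h4 : 2 ^ i ≤ n := by exact_mod_cast h3.1
    have h5 : n < 2 ^ (i + 1) := by
      have : (n : ℤ) < ((2 ^ (i + 1) : ℕ) : ℤ) := by push_cast at h3 ⊢; rw [pow_succ]; linarith [h3.2.1]
      exact_mod_cast this
    exact (Nat.log_eq_of_pow_le_of_lt_pow h4 h5).symm
  · intro h
    exfalso; apply h
    rw [Finset.mem_range]
    have := Nat.log_mono_right (b := 2) h2
    omega

/-- sums over two intervals containing the support agree -/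
lemma Sx_agree' (φ : ℤ → ℤ) (c : ℤ → ℂ) (x y : ℤ) (L U : ℕ)
    (hc : ∀ n, c n ≠ 0 → (x ≤ n ∧ n < x + L) ∧ (y ≤ n ∧ n < y + U)) (ω : ℝ × ℝ) :
    Sx φ c y U ω = Sx φ c x L ω := by
  rw [Sx_eq, Sx_eq]
  have h0 : ∀ n, c n = 0 → ex φ c n ω = 0 := fun n h => by unfold ex; rw [h, zero_mul]
  have h1 : ∑ n ∈ Finset.Ico y (y + U), ex φ c n ω =
      ∑ n ∈ Finset.Ico x (x + L) ∪ Finset.Ico y (y + U), ex φ c n ω := by
    refine Finset.sum_subset Finset.subset_union_right fun n _ hn => h0 n ?_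
    by_contra h
    exact hn (Finset.mem_Ico.2 (hc n h).2)
  have h2 : ∑ n ∈ Finset.Ico x (x + L), ex φ c n ω =
      ∑ n ∈ Finset.Ico x (x + L) ∪ Finset.Ico y (y + U), ex φ c n ω := by
    refine Finset.sum_subset Finset.subset_union_left fun n _ hn => h0 n ?_
    by_contra h
    exact hn (Finset.mem_Ico.2 (hc n h).1)
  rw [h1, h2]

lemma piece_eq (k N i : ℕ) (c : ℤ → ℂ) (β η : ℝ) :
    ∑ n ∈ Icc 1 N, (cut c N i n * e (β * (n : ℝ) ^ k)) * e (η * n) =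
      Sx (fun n => n ^ k) (cut c N i) ((2 ^ i : ℕ) : ℤ) (2 ^ i) (β, η) := by
  have h1 : ∑ n ∈ Icc 1 N, (cut c N i n * e (β * (n : ℝ) ^ k)) * e (η * n) =
      Sx (fun n => n ^ k) (cut c N i) 1 N (β, η) := by
    rw [Pool.Agent.TH181.MW.sum_Icc_range]
    unfold Sx ex
    refine Finset.sum_congr rfl fun j _ => ?_
    have e1 : (((j + 1 : ℕ) : ℤ)) = 1 + (j : ℤ) := by push_cast; ring
    rw [e1, mul_assoc, ← e_add]
    congr 2
    push_cast; ring
  rw [h1]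
  refine Sx_agree' _ _ _ _ _ _ (fun n hn => ?_) _
  have h2 := cut_supp c N i n hn
  have h3 : (1 : ℤ) ≤ ((2 ^ i : ℕ) : ℤ) := by exact_mod_cast Nat.one_le_two_pow
  omega

/-- every prefix sum is small up to few pieces -/
lemma prefix_split (k N w : ℕ) (hw : w ≤ N) (hN : 1 ≤ N) (c : ℤ → ℂ) (hc : ∀ n, ‖c n‖ ≤ 1) (β ξ V : ℝ) (i0 : ℕ)
    (hi0 : (2 : ℝ) ^ i0 ≤ V / 4)
    (h : V / 2 < ‖∑ n ∈ Icc 1 w, c n * e (β * (n : ℝ) ^ k + ξ * n)‖) :
    ∃ i : ℕ, i0 ≤ i ∧ i < Nat.log 2 N + 1 ∧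
      (V / (4 * ((Nat.log 2 N + 1 : ℕ) : ℝ)) / (2 + Real.log N)) ^ 6 / (3 * N) ≤
        ∫ ξ in Set.Ioc (0 : ℝ) (0 + 1), ‖Sx (fun n => n ^ k) (cut c N i) ((2 ^ i : ℕ) : ℤ) (2 ^ i) (β, ξ)‖ ^ 6 := by
  set T : ℕ := Nat.log 2 N + 1 with hT
  have hT0 : (0 : ℝ) < (T : ℝ) := by exact_mod_cast (by omega : 0 < T)
  have hV0 : 0 < V := by
    have : (0 : ℝ) < 2 ^ i0 := by positivity
    linarith
  have hlog0 : 0 ≤ Real.log N := Real.log_nonneg (by exact_mod_cast hN)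
  set D : ℕ → ℂ := fun i => ∑ n ∈ Icc 1 w, (cut c N i n * e (β * (n : ℝ) ^ k)) * e (ξ * n) with hD
  have hsum : ∑ n ∈ Icc 1 w, c n * e (β * (n : ℝ) ^ k + ξ * n) = ∑ i ∈ range T, D i := by
    rw [hD, Finset.sum_comm]
    refine Finset.sum_congr rfl fun n hn => ?_
    rw [Finset.mem_Icc] at hn
    rw [← Finset.sum_mul, ← Finset.sum_mul, sum_cut c N n hn.1 (hn.2.trans hw), e_add]
    ring
  have hDle : ∀ i, ‖D i‖ ≤ (2 : ℝ) ^ i := by
    intro i
    rw [hD]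
    refine (norm_sum_le _ _).trans ?_
    calc ∑ n ∈ Icc 1 w, ‖(cut c N i n * e (β * (n : ℝ) ^ k)) * e (ξ * n)‖
        ≤ ∑ n ∈ Icc 1 w, if n ∈ Ico (2 ^ i) (2 ^ i + 2 ^ i) then (1 : ℝ) else 0 := by
          refine Finset.sum_le_sum fun n _ => ?_
          rw [norm_mul, norm_mul, e_norm, e_norm, mul_one, mul_one]
          split_ifs with h1
          · exact cut_norm c hc N i n
          · by_contra h2
            push Not at h2
            have h3 := cut_supp c N i n (fun h4 => by rw [h4] at h2; simp at h2)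
            apply h1
            rw [Finset.mem_Ico]
            constructor
            · exact_mod_cast h3.1
            · have h4 := h3.2.1
              have : (n : ℤ) < ((2 ^ i + 2 ^ i : ℕ) : ℤ) := by push_cast at h4 ⊢; linarith
              exact_mod_cast this
      _ = (((Icc 1 w).filter fun n => n ∈ Ico (2 ^ i) (2 ^ i + 2 ^ i)).card : ℝ) := by
          rw [Finset.card_filter]; push_cast; rfl
      _ ≤ ((2 ^ i : ℕ) : ℝ) := by
          have h1 : ((Icc 1 w).filter fun n => n ∈ Ico (2 ^ i) (2 ^ i + 2 ^ i)) ⊆ Ico (2 ^ i) (2 ^ i + 2 ^ i) := by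
            intro n hn
            exact (Finset.mem_filter.1 hn).2
          have h2 := Finset.card_le_card h1
          rw [Nat.card_Ico, Nat.add_sub_cancel_left] at h2
          exact_mod_cast h2
      _ = (2 : ℝ) ^ i := by push_cast; rfl
  obtain ⟨i, hi1, hi2, hi3⟩ : ∃ i, i0 ≤ i ∧ i < T ∧ V / (4 * T) < ‖D i‖ := by
    by_contra hcon
    push Not at hcon
    have h1 : ‖∑ i ∈ range T, D i‖ ≤ 2 ^ i0 + T * (V / (4 * T)) := by
      refine (norm_sum_le _ _).trans ?_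
      calc ∑ i ∈ range T, ‖D i‖ ≤ ∑ i ∈ range T, ((if i < i0 then (2 : ℝ) ^ i else 0) + V / (4 * T)) := by
            refine Finset.sum_le_sum fun i hi => ?_
            rw [Finset.mem_range] at hi
            by_cases h2 : i < i0
            · rw [if_pos h2]
              have h3 := hDle i
              have h4 : 0 ≤ V / (4 * T) := by positivity
              linarith
            · rw [if_neg h2, zero_add]
              exact hcon i (by omega) hi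
        _ = ∑ i ∈ range T, (if i < i0 then (2 : ℝ) ^ i else 0) + T * (V / (4 * T)) := by
            rw [Finset.sum_add_distrib, Finset.sum_const, Finset.card_range, nsmul_eq_mul]
        _ ≤ 2 ^ i0 + T * (V / (4 * T)) := by
            gcongr
            rw [← Finset.sum_filter]
            calc ∑ i ∈ (range T).filter (fun i => i < i0), (2 : ℝ) ^ i ≤ ∑ i ∈ range i0, (2 : ℝ) ^ i := by
                  refine Finset.sum_le_sum_of_subset_of_nonneg ?_ fun i _ _ => by positivity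
                  intro i hi
                  rw [Finset.mem_filter] at hi
                  exact Finset.mem_range.2 hi.2
              _ ≤ 2 ^ i0 := by
                  rw [geom_sum_eq (by norm_num)]
                  norm_num
    rw [hsum] at h
    have h2 : (T : ℝ) * (V / (4 * T)) = V / 4 := by field_simp
    rw [h2] at h1
    linarith
  refine ⟨i, hi1, hi2, ?_⟩
  set K : ℝ := V / (4 * T) / (2 + Real.log N) with hK
  have hK0 : 0 < K := by positivity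
  obtain ⟨η, hη⟩ : ∃ η : ℝ, K < ‖∑ n ∈ Icc 1 N, (cut c N i n * e (β * (n : ℝ) ^ k)) * e (η * n)‖ := by
    by_contra hcon
    push Not at hcon
    have h1 := Pool.Agent.TH181.MW.max_le N w hN hw (fun n => cut c N i n * e (β * (n : ℝ) ^ k)) K hcon ξ
    have h2 : (2 + Real.log N) * K = V / (4 * T) := by rw [hK]; field_simp
    rw [h2] at h1
    exact absurd h1 (not_le.2 hi3)
  rw [piece_eq] at hη
  have h1 := sup_xi (fun n => n ^ k) (cut c N i) ((2 ^ i : ℕ) : ℤ) (2 ^ i) β η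
  have h2 : K ^ 6 ≤ ‖Sx (fun n => n ^ k) (cut c N i) ((2 ^ i : ℕ) : ℤ) (2 ^ i) (β, η)‖ ^ 6 :=
    pow_le_pow_left₀ hK0.le hη.le 6
  have h3 : 2 ^ i ≤ N := by
    calc 2 ^ i ≤ 2 ^ Nat.log 2 N := Nat.pow_le_pow_right (by norm_num) (by omega)
      _ ≤ N := Nat.pow_log_le_self 2 (by omega)
  have h4 : ((3 * 2 ^ i : ℕ) : ℝ) ≤ 3 * N := by
    have : 3 * 2 ^ i ≤ 3 * N := by omega
    exact_mod_cast this
  have hN0 : (0 : ℝ) < N := by exact_mod_cast hN
  rw [div_le_iff₀ (by positivity)]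
  have h5 : 0 ≤ ∫ ξ in Set.Ioc (0 : ℝ) (0 + 1), ‖Sx (fun n => n ^ k) (cut c N i) ((2 ^ i : ℕ) : ℤ) (2 ^ i) (β, ξ)‖ ^ 6 :=
    integral_nonneg fun ξ => by positivity
  calc K ^ 6 ≤ _ := h2
    _ ≤ _ := h1
    _ ≤ 3 * N * ∫ ξ in Set.Ioc (0 : ℝ) (0 + 1), ‖Sx (fun n => n ^ k) (cut c N i) ((2 ^ i : ℕ) : ℤ) (2 ^ i) (β, ξ)‖ ^ 6 :=
        mul_le_mul_of_nonneg_right h4 h5
    _ = _ := by ring

theorem main_meas (k N W : ℕ) (c : ℤ → ℂ) (hc : ∀ n, ‖c n‖ ≤ 1) (r B V : ℝ) (i0 : ℕ) (hN : 1 ≤ N) (hW : 1 ≤ W)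
    (hr : r < 1 / 2) (hr2 : W = 1 ∨ r ≤ 1 / (6 * W)) (hi0 : (2 : ℝ) ^ i0 ≤ V / 4)
    (hB : ∀ i, i0 ≤ i → i < Nat.log 2 N + 1 →
      ∫ ω, ‖Sx (fun n => n ^ k) (cut c N i) ((2 ^ i : ℕ) : ℤ) (2 ^ i) ω‖ ^ 6 ∂(mu W) ≤ B) (hB0 : 0 ≤ B) :
    volume {β : ℝ | |β| ≤ r ∧ ∃ (ξ : ℝ) (u v : ℕ), v ≤ N ∧
        V < ‖∑ n ∈ Ioc u v, c n * e (β * (n : ℝ) ^ k + ξ * n)‖} ≤
      ENNReal.ofReal (((Nat.log 2 N + 1 : ℕ) : ℝ) * (4 * B / (W * ((V / (4 * ((Nat.log 2 N + 1 : ℕ) : ℝ)) /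
        (2 + Real.log N)) ^ 6 / (3 * N))))) := by
  set T : ℕ := Nat.log 2 N + 1 with hT
  set lam : ℝ := (V / (4 * (T : ℝ)) / (2 + Real.log N)) ^ 6 / (3 * N) with hlam
  have hT0 : (0 : ℝ) < (T : ℝ) := by exact_mod_cast (by omega : 0 < T)
  have hV0 : 0 < V := by
    have : (0 : ℝ) < 2 ^ i0 := by positivity
    linarith
  have hN0 : (0 : ℝ) < N := by exact_mod_cast hN
  have hlog0 : 0 ≤ Real.log N := Real.log_nonneg (by exact_mod_cast hN)
  have hlam0 : 0 < lam := by positivity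
  have hW0 : (0 : ℝ) < W := by exact_mod_cast hW
  have hsub : {β : ℝ | |β| ≤ r ∧ ∃ (ξ : ℝ) (u v : ℕ), v ≤ N ∧
        V < ‖∑ n ∈ Ioc u v, c n * e (β * (n : ℝ) ^ k + ξ * n)‖} ⊆
      ⋃ i ∈ Finset.Ico i0 T, {β : ℝ | |β| ≤ r ∧ lam ≤ ∫ ξ in Set.Ioc (0 : ℝ) (0 + 1),
        ‖Sx (fun n => n ^ k) (cut c N i) ((2 ^ i : ℕ) : ℤ) (2 ^ i) (β, ξ)‖ ^ 6} := by
    rintro β ⟨hβ, ξ, u, v, hv, hV⟩
    have hpre : ∃ w, w ≤ N ∧ V / 2 < ‖∑ n ∈ Icc 1 w, c n * e (β * (n : ℝ) ^ k + ξ * n)‖ := by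
      by_contra hcon
      push Not at hcon
      rcases le_or_gt v u with huv | huv
      · rw [Finset.Ioc_eq_empty (by omega), Finset.sum_empty, norm_zero] at hV
        linarith
      · have h1 := hcon v hv
        have h2 := hcon u (by omega)
        have h3 : ∑ n ∈ Icc 1 v, c n * e (β * (n : ℝ) ^ k + ξ * n) =
            ∑ n ∈ Icc 1 u, c n * e (β * (n : ℝ) ^ k + ξ * n) + ∑ n ∈ Ioc u v, c n * e (β * (n : ℝ) ^ k + ξ * n) := by
          rw [← Finset.sum_union]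
          · congr 1
            ext n
            simp only [Finset.mem_Icc, Finset.mem_union, Finset.mem_Ioc]
            omega
          · rw [Finset.disjoint_left]
            intro n hn hn2
            rw [Finset.mem_Icc] at hn
            rw [Finset.mem_Ioc] at hn2
            omega
        have h4 : ∑ n ∈ Ioc u v, c n * e (β * (n : ℝ) ^ k + ξ * n) =
            ∑ n ∈ Icc 1 v, c n * e (β * (n : ℝ) ^ k + ξ * n) - ∑ n ∈ Icc 1 u, c n * e (β * (n : ℝ) ^ k + ξ * n) := by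
          rw [h3]; ring
        have h5 := norm_sub_le (∑ n ∈ Icc 1 v, c n * e (β * (n : ℝ) ^ k + ξ * n))
          (∑ n ∈ Icc 1 u, c n * e (β * (n : ℝ) ^ k + ξ * n))
        rw [← h4] at h5
        linarith
    obtain ⟨w, hw, hw2⟩ := hpre
    obtain ⟨i, hi1, hi2, hi3⟩ := prefix_split k N w hw hN c hc β ξ V i0 hi0 hw2
    rw [Set.mem_iUnion₂]
    exact ⟨i, Finset.mem_Ico.2 ⟨hi1, hi2⟩, hβ, hi3⟩
  refine (measure_mono hsub).trans ((measure_biUnion_finset_le _ _).trans ?_)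
  calc ∑ i ∈ Finset.Ico i0 T, volume {β : ℝ | |β| ≤ r ∧ lam ≤ ∫ ξ in Set.Ioc (0 : ℝ) (0 + 1),
        ‖Sx (fun n => n ^ k) (cut c N i) ((2 ^ i : ℕ) : ℤ) (2 ^ i) (β, ξ)‖ ^ 6}
      ≤ ∑ _i ∈ Finset.Ico i0 T, ENNReal.ofReal (4 * B / (W * lam)) := by
        refine Finset.sum_le_sum fun i hi => ?_
        rw [Finset.mem_Ico] at hi
        exact markov _ _ _ _ W hW r B lam hr hr2 hlam0 (hB i hi.1 hi.2)
    _ = ((Finset.Ico i0 T).card : ENNReal) * ENNReal.ofReal (4 * B / (W * lam)) := by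
        rw [Finset.sum_const, nsmul_eq_mul]
    _ ≤ (T : ENNReal) * ENNReal.ofReal (4 * B / (W * lam)) := by
        gcongr
        rw [Nat.card_Ico]; omega
    _ = _ := by
        rw [ENNReal.ofReal_mul hT0.le, ENNReal.ofReal_natCast]

end Pool.Agent.W2helper10.MW
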