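import Pool.Agent.W2helper10.MW.Fin

/-!
The measure of the exceptional set in an arc: the final bounds.
-/

set_option autoImplicit false

namespace Pool.Agent.W2helper10.MW

open MeasureTheory Finset
open Pool.Agent.W928.MW (e e_add e_norm e_cont)
open Pool.Agent.TH181.MX (log_le)

lemma num1 (T X L2 N B W V : ℝ) (hT : 0 < T) (hTX : T ≤ 2 * X) (hL : 0 < L2) (hLX : L2 ≤ 2 * X)
    (hN : 0 < N) (hB : 0 ≤ B) (hW : 0 < W) (hV : 0 < V) :
    T * (4 * B / (W * ((V / (4 * T) / L2) ^ 6 / (3 * N)))) ≤ 24 * 16 ^ 6 * X ^ 13 * N * B / (W * V ^ 6) := by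
  have hX : 0 < X := by linarith
  have h1 : T * (4 * B / (W * ((V / (4 * T) / L2) ^ 6 / (3 * N)))) =
      (T * (T * L2) ^ 6) * (12 * 4 ^ 6 * N * B / (W * V ^ 6)) := by
    field_simp
    ring
  have h2 : T * L2 ≤ (2 * X) * (2 * X) := mul_le_mul hTX hLX hL.le (by linarith)
  have h3 : (T * L2) ^ 6 ≤ ((2 * X) * (2 * X)) ^ 6 := pow_le_pow_left₀ (by positivity) h2 6
  have h4 : T * (T * L2) ^ 6 ≤ (2 * X) * ((2 * X) * (2 * X)) ^ 6 := mul_le_mul hTX h3 (by positivity) (by linarith)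
  rw [h1]
  calc (T * (T * L2) ^ 6) * (12 * 4 ^ 6 * N * B / (W * V ^ 6))
      ≤ ((2 * X) * ((2 * X) * (2 * X)) ^ 6) * (12 * 4 ^ 6 * N * B / (W * V ^ 6)) :=
        mul_le_mul_of_nonneg_right h4 (by positivity)
    _ = _ := by ring

/-- the level of `H_k(1/k)` -/
noncomputable def lev (k N q : ℕ) (ε : ℝ) : ℝ :=
  (N : ℝ) ^ (1 + ε) * (1 / (q : ℝ) + 1 / (N : ℝ) + (q : ℝ) / (N : ℝ) ^ k) ^ (1 / (k : ℝ))

lemma lev_ge (k N q : ℕ) (ε : ℝ) (hk : 3 ≤ k) (hq : 1 ≤ q) (hN : 1 ≤ N) :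
    (N : ℝ) ^ (1 + ε) * (q : ℝ) ^ (-(1 / (k : ℝ))) ≤ lev k N q ε := by
  have hq' : (1 : ℝ) ≤ q := by exact_mod_cast hq
  have hN' : (1 : ℝ) ≤ N := by exact_mod_cast hN
  unfold lev
  apply mul_le_mul_of_nonneg_left _ (by positivity)
  rw [Real.rpow_neg (by positivity), ← Real.inv_rpow (by positivity)]
  apply Real.rpow_le_rpow (by positivity)
  · rw [← one_div]
    have : 0 ≤ 1 / (N : ℝ) + (q : ℝ) / (N : ℝ) ^ k := by positivity
    linarith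
  · positivity

lemma log_two_le (N : ℕ) (hN : 1 ≤ N) : ((Nat.log 2 N + 1 : ℕ) : ℝ) ≤ 2 * (1 + Real.log N) := by
  have h1 : 2 ^ Nat.log 2 N ≤ N := Nat.pow_log_le_self 2 (by omega)
  have h2 : ((2 : ℝ) ^ Nat.log 2 N) ≤ N := by exact_mod_cast h1
  have h3 := Real.log_le_log (by positivity) h2
  rw [Real.log_pow] at h3
  have h4 := Real.log_two_gt_d9
  have h5 : (0 : ℝ) ≤ (Nat.log 2 N : ℝ) := by positivity
  push_cast
  nlinarith

theorem fin_gen (k : ℕ) (hk : 3 ≤ k) (δ : ℝ) (hδ : 0 < δ) (C0 : ℝ) (hC0 : 0 < C0) : ∃ C : ℝ, 0 < C ∧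
    ∀ c : ℤ → ℂ, (∀ n, ‖c n‖ ≤ 1) → ∀ (N q : ℕ) (ε : ℝ), 0 ≤ ε → 2 ≤ q → q ≤ N →
      (∀ W i : ℕ, 1 ≤ W → (W = 1 ∨ 128 * W ≤ q ^ 2) → 2 ^ i ≤ N →
        (N : ℝ) * (q : ℝ) ^ (-(1 / (k : ℝ))) / 8 ≤ 2 ^ i → 4096 ≤ N →
        ∫ ω, ‖Sx (fun n => n ^ k) (cut c N i) ((2 ^ i : ℕ) : ℤ) (2 ^ i) ω‖ ^ 6 ∂(mu W) ≤ C0 * (N : ℝ) ^ (3 + δ)) →
      volume {β : ℝ | |β| ≤ 1 / (q : ℝ) ^ 2 ∧ ∃ (ξ : ℝ) (u v : ℕ), v ≤ N ∧
        lev k N q ε < ‖∑ n ∈ Ioc u v, c n * e (β * (n : ℝ) ^ k + ξ * n)‖} ≤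
      ENNReal.ofReal (C * ((q : ℝ) ^ (6 / (k : ℝ)) * (N : ℝ) ^ (2 * δ - 2 - 6 * ε)) * (1 / (q : ℝ) ^ 2)) := by
  obtain ⟨C2, hC2, hC2'⟩ := log_le (δ / 13) (by positivity)
  have hk' : (3 : ℝ) ≤ k := by exact_mod_cast hk
  have hk0 : (0 : ℝ) < k := by linarith
  have hk1 : 1 / (k : ℝ) ≤ 1 / 3 := one_div_le_one_div_of_le (by norm_num) hk'
  refine ⟨2 * 4096 ^ 4 + 24 * 16 ^ 6 * C2 ^ 13 * C0 * 256, by positivity, ?_⟩
  intro c hc N q ε hε hq hqN hmom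
  have hN1 : 1 ≤ N := by omega
  have hN' : (1 : ℝ) ≤ N := by exact_mod_cast hN1
  have hN0 : (0 : ℝ) < N := by linarith
  have hq' : (2 : ℝ) ≤ q := by exact_mod_cast hq
  have hqN' : (q : ℝ) ≤ N := by exact_mod_cast hqN
  have hq0 : (0 : ℝ) < q := by linarith
  set V := lev k N q ε with hV
  have hVge : (N : ℝ) ^ (1 + ε) * (q : ℝ) ^ (-(1 / (k : ℝ))) ≤ V := lev_ge k N q ε hk (by omega) hN1
  have hqk : (N : ℝ) ^ (-(1 / (k : ℝ))) ≤ (q : ℝ) ^ (-(1 / (k : ℝ))) :=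
    Real.rpow_le_rpow_of_nonpos hq0 hqN' (by have : 0 < 1 / (k : ℝ) := by positivity
                                             linarith)
  have hVge2 : (N : ℝ) ^ (1 + ε - 1 / (k : ℝ)) ≤ V := by
    refine le_trans ?_ hVge
    rw [sub_eq_add_neg, Real.rpow_add hN0]
    exact mul_le_mul_of_nonneg_left hqk (by positivity)
  have hVge3 : (N : ℝ) * (q : ℝ) ^ (-(1 / (k : ℝ))) ≤ V := by
    refine le_trans ?_ hVge
    apply mul_le_mul_of_nonneg_right _ (by positivity)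
    calc (N : ℝ) = (N : ℝ) ^ (1 : ℝ) := (Real.rpow_one _).symm
      _ ≤ _ := Real.rpow_le_rpow_of_exponent_le hN' (by linarith)
  rcases le_or_gt (1 / (k : ℝ)) ε with hbig | hsmall
  · -- the set is empty
    have h1 : {β : ℝ | |β| ≤ 1 / (q : ℝ) ^ 2 ∧ ∃ (ξ : ℝ) (u v : ℕ), v ≤ N ∧
        V < ‖∑ n ∈ Ioc u v, c n * e (β * (n : ℝ) ^ k + ξ * n)‖} = ∅ := by
      rw [Set.eq_empty_iff_forall_notMem]
      rintro β ⟨_, ξ, u, v, hv, h2⟩
      have h3 : ‖∑ n ∈ Ioc u v, c n * e (β * (n : ℝ) ^ k + ξ * n)‖ ≤ N := by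
        refine (norm_sum_le _ _).trans ?_
        calc ∑ n ∈ Ioc u v, ‖c n * e (β * (n : ℝ) ^ k + ξ * n)‖ ≤ ∑ _n ∈ Ioc u v, (1 : ℝ) := by
              refine Finset.sum_le_sum fun n _ => ?_
              rw [norm_mul, e_norm, mul_one]; exact hc n
          _ = ((v - u : ℕ) : ℝ) := by rw [Finset.sum_const, Nat.card_Ioc]; simp
          _ ≤ N := by
              have : v - u ≤ N := by omega
              exact_mod_cast this
      have h4 : (N : ℝ) ≤ V := by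
        refine le_trans ?_ hVge2
        calc (N : ℝ) = (N : ℝ) ^ (1 : ℝ) := (Real.rpow_one _).symm
          _ ≤ _ := Real.rpow_le_rpow_of_exponent_le hN' (by linarith)
      linarith
    rw [h1, measure_empty]
    exact zero_le
  rcases Nat.lt_or_ge N 4096 with hNs | hNl
  · -- small `N`
    have h1 : {β : ℝ | |β| ≤ 1 / (q : ℝ) ^ 2 ∧ ∃ (ξ : ℝ) (u v : ℕ), v ≤ N ∧
        V < ‖∑ n ∈ Ioc u v, c n * e (β * (n : ℝ) ^ k + ξ * n)‖} ⊆
        Set.Icc (-(1 / (q : ℝ) ^ 2)) (1 / (q : ℝ) ^ 2) := by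
      rintro β ⟨h2, _⟩
      exact abs_le.1 h2
    refine (measure_mono h1).trans ?_
    rw [Real.volume_Icc]
    apply ENNReal.ofReal_le_ofReal
    have h2 : (1 : ℝ) ≤ (q : ℝ) ^ (6 / (k : ℝ)) := Real.one_le_rpow (by linarith) (by positivity)
    have h3 : (1 : ℝ) / 4096 ^ 4 ≤ (N : ℝ) ^ (2 * δ - 2 - 6 * ε) := by
      have h4 : (N : ℝ) ^ (-(4 : ℝ)) ≤ (N : ℝ) ^ (2 * δ - 2 - 6 * ε) :=
        Real.rpow_le_rpow_of_exponent_le hN' (by linarith)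
      refine le_trans ?_ h4
      rw [Real.rpow_neg hN0.le]
      have e1 : (N : ℝ) ^ (4 : ℝ) = (N : ℝ) ^ 4 := by exact_mod_cast Real.rpow_natCast (N : ℝ) 4
      rw [e1, one_div]
      apply inv_anti₀ (by positivity)
      exact pow_le_pow_left₀ hN0.le (by exact_mod_cast hNs.le) 4
    have h5 : (1 : ℝ) / 4096 ^ 4 ≤ (q : ℝ) ^ (6 / (k : ℝ)) * (N : ℝ) ^ (2 * δ - 2 - 6 * ε) := by
      calc (1 : ℝ) / 4096 ^ 4 = 1 * (1 / 4096 ^ 4) := by ring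
        _ ≤ _ := mul_le_mul h2 h3 (by positivity) (by positivity)
    have h6 : (2 : ℝ) ≤ (2 * 4096 ^ 4 + 24 * 16 ^ 6 * C2 ^ 13 * C0 * 256) *
        ((q : ℝ) ^ (6 / (k : ℝ)) * (N : ℝ) ^ (2 * δ - 2 - 6 * ε)) := by
      have h7 : (2 : ℝ) * 4096 ^ 4 ≤ 2 * 4096 ^ 4 + 24 * 16 ^ 6 * C2 ^ 13 * C0 * 256 := by
        have : 0 ≤ 24 * 16 ^ 6 * C2 ^ 13 * C0 * 256 := by positivity
        linarith
      calc (2 : ℝ) = (2 * 4096 ^ 4) * (1 / 4096 ^ 4) := by norm_num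
        _ ≤ _ := mul_le_mul h7 h5 (by positivity) (by positivity)
    have h8 : (0 : ℝ) ≤ 1 / (q : ℝ) ^ 2 := by positivity
    have h9 := mul_le_mul_of_nonneg_right h6 h8
    linarith
  · -- the main case
    have hV4 : 256 ≤ V := by
      refine le_trans ?_ hVge2
      have h1 : (4096 : ℝ) ^ ((2 : ℝ) / 3) ≤ (N : ℝ) ^ (1 + ε - 1 / (k : ℝ)) := by
        calc (4096 : ℝ) ^ ((2 : ℝ) / 3) ≤ (N : ℝ) ^ ((2 : ℝ) / 3) :=
              Real.rpow_le_rpow (by norm_num) (by exact_mod_cast hNl) (by norm_num)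
          _ ≤ _ := Real.rpow_le_rpow_of_exponent_le hN' (by linarith)
      refine le_trans (le_of_eq ?_) h1
      have : (4096 : ℝ) = (16 : ℝ) ^ (3 : ℝ) := by
        have := Real.rpow_natCast (16 : ℝ) 3
        norm_num at this ⊢
      rw [this, ← Real.rpow_mul (by norm_num)]
      norm_num
    obtain ⟨i0, hi1, hi2⟩ := exists_nat_pow_near (x := V / 4) (y := (2 : ℝ)) (by linarith) (by norm_num)
    set W : ℕ := max 1 (q ^ 2 / 128) with hW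
    have hW1 : 1 ≤ W := le_max_left _ _
    have hW128 : W = 1 ∨ 128 * W ≤ q ^ 2 := by
      rcases Nat.lt_or_ge (q ^ 2 / 128) 1 with h | h
      · left; omega
      · right
        have : W = q ^ 2 / 128 := by omega
        rw [this]; exact Nat.mul_div_le _ _
    have hW256 : q ^ 2 ≤ 256 * W := by
      have h1 : q ^ 2 < 128 * (q ^ 2 / 128 + 1) := by
        have := Nat.lt_mul_div_succ (q ^ 2) (show 0 < 128 by norm_num)
        exact this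
      have h2 : q ^ 2 / 128 ≤ W := le_max_right _ _
      omega
    have hW0 : (0 : ℝ) < W := by exact_mod_cast hW1
    have hB : ∀ i, i0 ≤ i → i < Nat.log 2 N + 1 →
        ∫ ω, ‖Sx (fun n => n ^ k) (cut c N i) ((2 ^ i : ℕ) : ℤ) (2 ^ i) ω‖ ^ 6 ∂(mu W) ≤ C0 * (N : ℝ) ^ (3 + δ) := by
      intro i hi hiT
      refine hmom W i hW1 hW128 ?_ ?_ hNl
      · calc 2 ^ i ≤ 2 ^ Nat.log 2 N := Nat.pow_le_pow_right (by norm_num) (by omega)
          _ ≤ N := Nat.pow_log_le_self 2 (by omega)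
      · have h1 : (2 : ℝ) ^ i0 ≤ 2 ^ i := pow_le_pow_right₀ (by norm_num) hi
        rw [pow_succ] at hi2
        linarith
    have hr : (1 : ℝ) / (q : ℝ) ^ 2 < 1 / 2 := by
      rw [div_lt_div_iff₀ (by positivity) (by norm_num)]
      nlinarith
    have hr2 : W = 1 ∨ (1 : ℝ) / (q : ℝ) ^ 2 ≤ 1 / (6 * W) := by
      rcases hW128 with h | h
      · left; exact h
      · right
        apply one_div_le_one_div_of_le (by positivity)
        have : ((128 * W : ℕ) : ℝ) ≤ ((q ^ 2 : ℕ) : ℝ) := by exact_mod_cast h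
        push_cast at this
        linarith
    refine (main_meas k N W c hc _ _ V i0 hN1 hW1 hr hr2 hi1 hB (by positivity)).trans ?_
    apply ENNReal.ofReal_le_ofReal
    have hlog0 : 0 ≤ Real.log N := Real.log_nonneg hN'
    have h1 := num1 ((Nat.log 2 N + 1 : ℕ) : ℝ) (1 + Real.log N) (2 + Real.log N) N (C0 * (N : ℝ) ^ (3 + δ)) W V
      (by positivity) (log_two_le N hN1) (by linarith) (by linarith) hN0 (by positivity) hW0 (by linarith)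
    refine h1.trans ?_
    have hX := hC2' N hN1
    have hX13 : (1 + Real.log N) ^ 13 ≤ C2 ^ 13 * (N : ℝ) ^ δ := by
      calc (1 + Real.log N) ^ 13 ≤ (C2 * (N : ℝ) ^ (δ / 13)) ^ 13 := pow_le_pow_left₀ (by linarith) hX 13
        _ = C2 ^ 13 * (N : ℝ) ^ δ := by
            rw [mul_pow, ← Real.rpow_natCast ((N : ℝ) ^ (δ / 13)), ← Real.rpow_mul hN0.le]
            congr 2
            push_cast; ring
    have hV6 : (N : ℝ) ^ (6 + 6 * ε) * (q : ℝ) ^ (-(6 / (k : ℝ))) ≤ V ^ 6 := by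
      have h2 : ((N : ℝ) ^ (1 + ε) * (q : ℝ) ^ (-(1 / (k : ℝ)))) ^ 6 ≤ V ^ 6 :=
        pow_le_pow_left₀ (by positivity) hVge 6
      refine le_trans (le_of_eq ?_) h2
      rw [mul_pow, ← Real.rpow_natCast ((N : ℝ) ^ (1 + ε)) 6, ← Real.rpow_mul (by positivity),
        ← Real.rpow_natCast ((q : ℝ) ^ (-(1 / (k : ℝ)))) 6, ← Real.rpow_mul (by positivity)]
      congr 2
      · push_cast; ring
      · push_cast; ring
    have hWq : (q : ℝ) ^ 2 ≤ 256 * W := by exact_mod_cast hW256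
    have hden : (q : ℝ) ^ 2 / 256 * ((N : ℝ) ^ (6 + 6 * ε) * (q : ℝ) ^ (-(6 / (k : ℝ)))) ≤ W * V ^ 6 :=
      mul_le_mul (by linarith) hV6 (by positivity) hW0.le
    have hden0 : 0 < (q : ℝ) ^ 2 / 256 * ((N : ℝ) ^ (6 + 6 * ε) * (q : ℝ) ^ (-(6 / (k : ℝ)))) := by positivity
    calc 24 * 16 ^ 6 * (1 + Real.log N) ^ 13 * N * (C0 * (N : ℝ) ^ (3 + δ)) / (W * V ^ 6)
        ≤ 24 * 16 ^ 6 * (C2 ^ 13 * (N : ℝ) ^ δ) * N * (C0 * (N : ℝ) ^ (3 + δ)) /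
          ((q : ℝ) ^ 2 / 256 * ((N : ℝ) ^ (6 + 6 * ε) * (q : ℝ) ^ (-(6 / (k : ℝ))))) := by
          apply div_le_div₀ (by positivity) _ hden0 hden
          apply mul_le_mul_of_nonneg_right _ (by positivity)
          apply mul_le_mul_of_nonneg_right _ (by positivity)
          apply mul_le_mul_of_nonneg_left hX13 (by positivity)
      _ = (24 * 16 ^ 6 * C2 ^ 13 * C0 * 256) * ((q : ℝ) ^ (6 / (k : ℝ)) * (N : ℝ) ^ (2 * δ - 2 - 6 * ε)) *
          (1 / (q : ℝ) ^ 2) := by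
          have e1 : (N : ℝ) ^ (2 * δ - 2 - 6 * ε) = (N : ℝ) ^ δ * N * (N : ℝ) ^ (3 + δ) / (N : ℝ) ^ (6 + 6 * ε) := by
            rw [eq_div_iff (by positivity), ← Real.rpow_add hN0]
            have e2 : (N : ℝ) ^ δ * N * (N : ℝ) ^ (3 + δ) = (N : ℝ) ^ (δ + 1 + (3 + δ)) := by
              rw [Real.rpow_add hN0 (δ + 1) (3 + δ), Real.rpow_add hN0 δ 1, Real.rpow_one]
            rw [e2]
            congr 1
            ring
          have e3 : (q : ℝ) ^ (-(6 / (k : ℝ))) = ((q : ℝ) ^ (6 / (k : ℝ)))⁻¹ := Real.rpow_neg hq0.le _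
          rw [e1, e3]
          have hp1 : (q : ℝ) ^ (6 / (k : ℝ)) ≠ 0 := by positivity
          have hp2 : (N : ℝ) ^ (6 + 6 * ε) ≠ 0 := by positivity
          field_simp
      _ ≤ _ := by
          gcongr
          have : (0 : ℝ) ≤ 2 * 4096 ^ 4 := by positivity
          linarith

end Pool.Agent.W2helper10.MW
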