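import Pool.Agent.W2helper10.MW.Fin2

/-!
The measure of the exceptional set in an arc: the two cases `k = 3` and `k ≥ 4`.
-/

set_option autoImplicit false

namespace Pool.Agent.W2helper10.MW

open MeasureTheory Finset
open Pool.Agent.W928.MW (e e_add e_norm e_cont)

lemma vol_translate (θ r : ℝ) (P Q : ℝ → Prop) (h : ∀ t, Q t → P (-θ + t)) :
    volume {t : ℝ | |t - θ| ≤ r ∧ Q t} ≤ volume {β : ℝ | |β| ≤ r ∧ P β} := by
  have h1 : {t : ℝ | |t - θ| ≤ r ∧ Q t} ⊆ (fun t => -θ + t) ⁻¹' {β : ℝ | |β| ≤ r ∧ P β} := by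
    rintro t ⟨h2, h3⟩
    refine ⟨?_, h t h3⟩
    have : -θ + t = t - θ := by ring
    show |-θ + t| ≤ r
    rw [this]; exact h2
  refine (measure_mono h1).trans (le_of_eq ?_)
  exact measure_preimage_add volume (-θ) _

lemma cut_eq_cf (N i : ℕ) (θ α : ℝ) :
    cut (fun n => e (θ * (n : ℝ) ^ 3 + α * (n : ℝ) ^ 2)) N i =
      cf ((2 ^ i : ℕ) : ℤ) (min ((2 ^ (i + 1) : ℕ) : ℤ) (N + 1)) θ α := by
  funext n
  rfl

theorem cubic (δ : ℝ) (hδ : 0 < δ) : ∃ C : ℝ, 0 < C ∧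
    ∀ (N q : ℕ) (a : ℤ) (α ε : ℝ), 0 ≤ ε → 2 ≤ q → q ≤ N → IsCoprime a (q : ℤ) →
      volume {t : ℝ | |t - (a : ℝ) / q| ≤ 1 / (q : ℝ) ^ 2 ∧ ∃ (ξ : ℝ) (u v : ℕ), v ≤ N ∧
        lev 3 N q ε < ‖∑ n ∈ Ioc u v, e (t * (n : ℝ) ^ 3 + α * (n : ℝ) ^ 2 + ξ * n)‖} ≤
      ENNReal.ofReal (C * ((q : ℝ) ^ 2 * (N : ℝ) ^ (δ - 2 - 6 * ε)) * (1 / (q : ℝ) ^ 2)) := by
  obtain ⟨C1, hC1, hC1'⟩ := mom_three (δ / 6) (by positivity)
  obtain ⟨C, hC, hC'⟩ := fin_gen 3 (by norm_num) (δ / 2) (by positivity) C1 hC1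
  refine ⟨C, hC, ?_⟩
  intro N q a α ε hε hq hqN hcop
  have hq' : (2 : ℝ) ≤ q := by exact_mod_cast hq
  have hqN' : (q : ℝ) ≤ N := by exact_mod_cast hqN
  have hq0 : (0 : ℝ) < q := by linarith
  have hN0 : (0 : ℝ) < N := by linarith
  have h1 := hC' (fun n => e ((a : ℝ) / q * (n : ℝ) ^ 3 + α * (n : ℝ) ^ 2)) (fun n => by rw [e_norm]) N q ε hε hq hqN
    (by
      intro W i hW hW' hiN hi hN
      have h2 := hC1' q (2 ^ i) N W a (min ((2 ^ (i + 1) : ℕ) : ℤ) (N + 1)) α hW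
        (by
          rcases hW' with h | h
          · rw [h]; nlinarith
          · omega)
        (by
          rcases hW' with h | h
          · rw [h]
            have : 1 ≤ (2 ^ i) ^ 3 := Nat.one_le_pow _ _ (by positivity)
            omega
          · have h3 : ((N : ℝ) * (q : ℝ) ^ (-(1 / ((3 : ℕ) : ℝ))) / 8) ^ 3 ≤ ((2 : ℝ) ^ i) ^ 3 :=
              pow_le_pow_left₀ (by positivity) hi 3
            have h4 : ((q : ℝ) ^ (-(1 / ((3 : ℕ) : ℝ)))) ^ 3 = (q : ℝ)⁻¹ := by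
              rw [← Real.rpow_natCast, ← Real.rpow_mul hq0.le]
              have : -(1 / ((3 : ℕ) : ℝ)) * ((3 : ℕ) : ℝ) = -1 := by norm_num
              rw [this, Real.rpow_neg_one]
            have h5 : (q : ℝ) ^ 2 / 512 ≤ ((N : ℝ) * (q : ℝ) ^ (-(1 / ((3 : ℕ) : ℝ))) / 8) ^ 3 := by
              rw [div_pow, mul_pow, h4]
              have h6 : (q : ℝ) ^ 3 ≤ (N : ℝ) ^ 3 := pow_le_pow_left₀ hq0.le hqN' 3
              have h7 : (q : ℝ) ^ 2 ≤ (N : ℝ) ^ 3 * (q : ℝ)⁻¹ := by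
                rw [← div_eq_mul_inv, le_div_iff₀ hq0]
                calc (q : ℝ) ^ 2 * q = (q : ℝ) ^ 3 := by ring
                  _ ≤ _ := h6
              have : (8 : ℝ) ^ 3 = 512 := by norm_num
              rw [this]
              linarith
            have h8 : (128 : ℝ) * W ≤ (q : ℝ) ^ 2 := by exact_mod_cast h
            have h9 : (W : ℝ) ≤ 6 * ((2 : ℝ) ^ i) ^ 3 := by
              have : (0 : ℝ) ≤ (q : ℝ) ^ 2 := by positivity
              linarith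
            exact_mod_cast h9)
        (by omega) hqN (Nat.one_le_two_pow) hiN hcop
        (by
          refine (min_le_left _ _).trans (le_of_eq ?_)
          push_cast; ring)
      rw [cut_eq_cf]
      refine h2.trans (le_of_eq ?_)
      congr 2
      ring)
  refine (vol_translate _ _ _ _ ?_).trans (h1.trans (le_of_eq ?_))
  · rintro t ⟨ξ, u, v, hv, h2⟩
    refine ⟨ξ, u, v, hv, h2.trans_le (le_of_eq ?_)⟩
    congr 1
    refine Finset.sum_congr rfl fun n _ => ?_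
    rw [← e_add]
    congr 1
    push_cast
    ring
  · congr 3
    congr 1
    · have : (6 : ℝ) / ((3 : ℕ) : ℝ) = ((2 : ℕ) : ℝ) := by norm_num
      rw [this, Real.rpow_natCast]
    · congr 1; ring

theorem higher (k : ℕ) (hk : 4 ≤ k) (δ : ℝ) (hδ : 0 < δ) : ∃ C : ℝ, 0 < C ∧
    ∀ (c : ℤ → ℂ), (∀ n, ‖c n‖ ≤ 1) → ∀ (N q : ℕ) (τ ε : ℝ), 0 ≤ ε → 2 ≤ q → q ≤ N →
      volume {t : ℝ | |t - τ| ≤ 1 / (q : ℝ) ^ 2 ∧ ∃ (ξ : ℝ) (u v : ℕ), v ≤ N ∧
        lev k N q ε < ‖∑ n ∈ Ioc u v, c n * e (t * (n : ℝ) ^ k + ξ * n)‖} ≤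
      ENNReal.ofReal (C * ((q : ℝ) ^ (6 / (k : ℝ)) * (N : ℝ) ^ (δ - 2 - 6 * ε)) * (1 / (q : ℝ) ^ 2)) := by
  obtain ⟨C1, hC1, hC1'⟩ := mom_ge4 k hk (δ / 2) (by positivity)
  obtain ⟨C, hC, hC'⟩ := fin_gen k (by omega) (δ / 2) (by positivity) C1 hC1
  have hk' : (4 : ℝ) ≤ k := by exact_mod_cast hk
  refine ⟨C, hC, ?_⟩
  intro c hc N q τ ε hε hq hqN
  have hq' : (2 : ℝ) ≤ q := by exact_mod_cast hq
  have hqN' : (q : ℝ) ≤ N := by exact_mod_cast hqN
  have hq0 : (0 : ℝ) < q := by linarith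
  have hN0 : (0 : ℝ) < N := by linarith
  have hcn : ∀ n : ℤ, ‖c n * e (τ * (n : ℝ) ^ k)‖ ≤ 1 := fun n => by
    rw [norm_mul, e_norm, mul_one]; exact hc n
  have h1 := hC' (fun n => c n * e (τ * (n : ℝ) ^ k)) hcn N q ε hε hq hqN
    (by
      intro W i hW hW' hiN hi hN
      refine hC1' q (2 ^ i) N W _ hW
        (by
          rcases hW' with h | h
          · rw [h]; nlinarith
          · omega) hqN (Nat.one_le_two_pow) hiN ?_ (fun n => cut_norm _ hcn N i n) ?_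
      · -- `q ≤ (2^i)^2`
        have hN4 : (4096 : ℝ) ≤ N := by exact_mod_cast hN
        have h3 : (N : ℝ) ^ (-(1 / (4 : ℝ))) ≤ (q : ℝ) ^ (-(1 / (k : ℝ))) := by
          calc (N : ℝ) ^ (-(1 / (4 : ℝ))) ≤ (N : ℝ) ^ (-(1 / (k : ℝ))) := by
                apply Real.rpow_le_rpow_of_exponent_le (by linarith)
                have := one_div_le_one_div_of_le (by norm_num) hk'
                linarith
            _ ≤ _ := Real.rpow_le_rpow_of_nonpos hq0 hqN' (by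
                have : 0 < 1 / (k : ℝ) := by positivity
                linarith)
        have h4 : (N : ℝ) * (N : ℝ) ^ (-(1 / (4 : ℝ))) / 8 ≤ (2 : ℝ) ^ i := by
          refine le_trans ?_ hi
          gcongr
        have h5 : ((N : ℝ) * (N : ℝ) ^ (-(1 / (4 : ℝ))) / 8) ^ 2 ≤ ((2 : ℝ) ^ i) ^ 2 :=
          pow_le_pow_left₀ (by positivity) h4 2
        have h6 : ((N : ℝ) ^ (-(1 / (4 : ℝ)))) ^ 2 * (N : ℝ) ^ ((1 : ℝ) / 2) = 1 := by
          rw [← Real.rpow_natCast, ← Real.rpow_mul hN0.le, ← Real.rpow_add hN0]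
          norm_num
        have h7 : (64 : ℝ) ≤ (N : ℝ) ^ ((1 : ℝ) / 2) := by
          have h8 : (4096 : ℝ) ^ ((1 : ℝ) / 2) ≤ (N : ℝ) ^ ((1 : ℝ) / 2) :=
            Real.rpow_le_rpow (by norm_num) hN4 (by norm_num)
          refine le_trans (le_of_eq ?_) h8
          have : (4096 : ℝ) = (64 : ℝ) ^ (2 : ℝ) := by
            have := Real.rpow_natCast (64 : ℝ) 2
            norm_num at this ⊢
          rw [this, ← Real.rpow_mul (by norm_num)]
          norm_num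
        have h9 : (N : ℝ) ^ ((1 : ℝ) / 2) * (N : ℝ) ^ ((1 : ℝ) / 2) = N := by
          rw [← Real.rpow_add hN0]; norm_num
        have h10 : (q : ℝ) ≤ ((2 : ℝ) ^ i) ^ 2 := by
          refine le_trans ?_ h5
          set s := (N : ℝ) ^ ((1 : ℝ) / 2) with hs
          set r := ((N : ℝ) ^ (-(1 / (4 : ℝ)))) ^ 2 with hr
          have hr1 : r = 1 / s := by
            rw [eq_div_iff (by positivity)]; exact h6
          have h11 : ((N : ℝ) * (N : ℝ) ^ (-(1 / (4 : ℝ))) / 8) ^ 2 = (N : ℝ) ^ 2 * r / 64 := by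
            rw [hr]; ring
          rw [h11, hr1]
          have h12 : (N : ℝ) ^ 2 * (1 / s) / 64 = s ^ 3 / 64 := by
            have : (N : ℝ) = s * s := h9.symm
            rw [this]
            have : s ≠ 0 := by positivity
            field_simp
          rw [h12]
          refine hqN'.trans ?_
          rw [← h9]
          have : 0 ≤ s * s * (s - 64) := by
            apply mul_nonneg (by positivity)
            linarith
          nlinarith
        exact_mod_cast h10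
      · intro n hn
        have := cut_supp _ N i n hn
        exact ⟨this.1, this.2.1⟩)
  refine (vol_translate _ _ _ _ ?_).trans (h1.trans (le_of_eq ?_))
  · rintro t ⟨ξ, u, v, hv, h2⟩
    refine ⟨ξ, u, v, hv, h2.trans_le (le_of_eq ?_)⟩
    congr 1
    refine Finset.sum_congr rfl fun n _ => ?_
    rw [mul_assoc, ← e_add]
    congr 2
    push_cast
    ring
  · have : 2 * (δ / 2) - 2 - 6 * ε = δ - 2 - 6 * ε := by ring
    rw [this]

end Pool.Agent.W2helper10.MW
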