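import Pool.Agent.W2helper10.MW.Fin3

/-!
The local sixth moments.
-/

set_option autoImplicit false

namespace Pool.Agent.W2helper10.MW

open MeasureTheory Finset
open Pool.Agent.W928.MW (e e_add e_norm e_cont)

lemma H_cont (φ : ℤ → ℤ) (c : ℤ → ℂ) (x : ℤ) (L : ℕ) :
    Continuous (fun β : ℝ => ∫ ξ in (0 : ℝ)..1, ‖Sx φ c x L (β, ξ)‖ ^ 6) := by
  have hc1 : Continuous fun p : ℝ × ℝ => ‖Sx φ c x L p‖ ^ 6 := by
    unfold Sx ex
    exact (continuous_finsetSum _ fun i _ => continuous_const.mul (e_cont.comp (by fun_prop))).norm.pow 6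
  exact intervalIntegral.continuous_parametric_intervalIntegral_of_continuous' hc1 0 1

lemma loc_mom (φ : ℤ → ℤ) (c : ℤ → ℂ) (x : ℤ) (L W : ℕ) (hW : 1 ≤ W) (r B : ℝ) (hr0 : 0 ≤ r) (hr : r < 1 / 2)
    (hr2 : W = 1 ∨ r ≤ 1 / (6 * W)) (hB : ∫ ω, ‖Sx φ c x L ω‖ ^ 6 ∂(mu W) ≤ B) :
    ∫ β in (-r)..r, ∫ ξ in (0 : ℝ)..1, ‖Sx φ c x L (β, ξ)‖ ^ 6 ≤ 4 * B / W := by
  have hW0 : (0 : ℝ) < W := by exact_mod_cast hW
  set H : ℝ → ℝ := fun β => ∫ ξ in (0 : ℝ)..1, ‖Sx φ c x L (β, ξ)‖ ^ 6 with hH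
  have hcont : Continuous H := H_cont φ c x L
  have hNc := (nc_Sx φ c x L).norm.pow 6
  have hint : Integrable (fun ω : ℝ × ℝ => ‖Sx φ c x L ω‖ ^ 6) (mu W) := hNc.integrable _
  have hfub : ∫ ω, ‖Sx φ c x L ω‖ ^ 6 ∂(mu W) = ∫ β, H β ∂(nu W) := by
    unfold mu at hint ⊢
    rw [integral_prod _ hint]
    refine integral_congr_ae (Filter.Eventually.of_forall fun β => ?_)
    show ∫ ξ in Set.Ioc (0 : ℝ) (0 + 1), ‖Sx φ c x L (β, ξ)‖ ^ 6 = H β
    rw [hH]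
    simp only
    rw [intervalIntegral.integral_of_le (by norm_num), zero_add]
  have hH0 : ∀ β, 0 ≤ H β := fun β => intervalIntegral.integral_nonneg (by norm_num) fun ξ _ => by positivity
  rw [hfub, int_nuR] at hB
  have h1 : ∫ β in Set.Ioc (-r) r, (W : ℝ) / 4 * H β ≤ ∫ β in Set.Ioc (-r) r, Fj W β * H β := by
    apply setIntegral_mono_on
    · exact (continuous_const.mul hcont).integrableOn_Ioc
    · exact ((Fj_cont W).mul hcont).integrableOn_Ioc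
    · exact measurableSet_Ioc
    · intro β hβ
      refine mul_le_mul_of_nonneg_right (Fj_ge W β hW ?_) (hH0 β)
      rcases hr2 with h | h
      · left; exact h
      · right; exact (abs_le.2 ⟨hβ.1.le, hβ.2⟩).trans h
  have h2 : ∫ β in Set.Ioc (-r) r, Fj W β * H β ≤ ∫ β in Set.Ioc (-(1 / 2) : ℝ) (-(1 / 2) + 1), Fj W β * H β := by
    apply setIntegral_mono_set
    · exact ((Fj_cont W).mul hcont).integrableOn_Ioc
    · exact Filter.Eventually.of_forall fun β => mul_nonneg (Fj_nonneg W β) (hH0 β)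
    · refine Filter.Eventually.of_forall fun β hβ => ?_
      exact ⟨by linarith [hβ.1], by linarith [hβ.2]⟩
  rw [integral_const_mul] at h1
  rw [intervalIntegral.integral_of_le (by linarith), le_div_iff₀ hW0]
  linarith

/-- the local sixth moment, transported to the arc around `θ` -/
lemma loc_arc (k : ℕ) (c c' : ℤ → ℂ) (θ r B : ℝ) (M W : ℕ) (u v : ℕ) (hW : 1 ≤ W) (hr0 : 0 ≤ r) (hr : r < 1 / 2)
    (hr2 : W = 1 ∨ r ≤ 1 / (6 * W))
    (hc : ∀ n : ℤ, c n = if (u : ℤ) < n ∧ n ≤ v then c' n * e (θ * (n : ℝ) ^ k) else 0) (hu : M ≤ u + 1) (hv : v < 2 * M)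
    (hB : ∫ ω, ‖Sx (fun n => n ^ k) c M M ω‖ ^ 6 ∂(mu W) ≤ B) :
    ∫ t in (θ - r)..(θ + r), ∫ ξ in (0 : ℝ)..1, ‖∑ n ∈ Ioc u v, c' n * e (t * (n : ℝ) ^ k + ξ * n)‖ ^ 6 ≤
      4 * B / W := by
  have h1 := loc_mom (fun n => n ^ k) c M M W hW r B hr0 hr hr2 hB
  have h2 : ∀ β ξ : ℝ, ∑ n ∈ Ioc u v, c' n * e ((θ + β) * (n : ℝ) ^ k + ξ * n) = Sx (fun n => n ^ k) c M M (β, ξ) := by
    intro β ξ
    rw [Sx_eq]
    have h3 : ∀ n : ℤ, ex (fun n => n ^ k) c n (β, ξ) = if (u : ℤ) < n ∧ n ≤ v then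
        c' n * e ((θ + β) * (n : ℝ) ^ k + ξ * n) else 0 := by
      intro n
      unfold ex
      rw [hc]
      split_ifs with h
      · rw [mul_assoc, ← e_add]
        congr 2
        push_cast; ring
      · rw [zero_mul]
    rw [Finset.sum_congr rfl fun n _ => h3 n, ← Finset.sum_filter]
    symm
    refine Finset.sum_bij' (fun n _ => n.toNat) (fun n _ => (n : ℤ)) ?_ ?_ ?_ ?_ ?_
    · intro n hn
      rw [Finset.mem_filter, Finset.mem_Ico] at hn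
      rw [Finset.mem_Ioc]
      omega
    · intro n hn
      rw [Finset.mem_Ioc] at hn
      rw [Finset.mem_filter, Finset.mem_Ico]
      omega
    · intro n hn
      rw [Finset.mem_filter, Finset.mem_Ico] at hn
      omega
    · intro n hn
      simp
    · intro n hn
      rw [Finset.mem_filter, Finset.mem_Ico] at hn
      have h4 : ((n.toNat : ℕ) : ℤ) = n := by omega
      have h5 : ((n.toNat : ℕ) : ℝ) = (n : ℝ) := by exact_mod_cast h4
      rw [h4, h5]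
  have h3 : ∫ t in (θ - r)..(θ + r), ∫ ξ in (0 : ℝ)..1, ‖∑ n ∈ Ioc u v, c' n * e (t * (n : ℝ) ^ k + ξ * n)‖ ^ 6 =
      ∫ β in (-r)..r, ∫ ξ in (0 : ℝ)..1, ‖Sx (fun n => n ^ k) c M M (β, ξ)‖ ^ 6 := by
    have h4 := intervalIntegral.integral_comp_add_left (a := -r) (b := r)
      (fun t => ∫ ξ in (0 : ℝ)..1, ‖∑ n ∈ Ioc u v, c' n * e (t * (n : ℝ) ^ k + ξ * n)‖ ^ 6) θ
    have e1 : θ + -r = θ - r := by ring
    rw [e1] at h4
    rw [← h4]
    simp only [h2]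
  rw [h3]
  exact h1

end Pool.Agent.W2helper10.MW
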