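import Pool.Agent.W2helper10.MW.Loc

/-!
The local sixth moments over `(u, v] ⊆ (N, 2N]`.
-/

set_option autoImplicit false

namespace Pool.Agent.W2helper10.MW

open MeasureTheory Finset
open Pool.Agent.W928.MW (e e_add e_norm e_cont)

/-- the choice of `W` -/
lemma exists_W (q : ℕ) (hq : 2 ≤ q) : ∃ W : ℕ, 1 ≤ W ∧ 2 * W ≤ q ^ 2 ∧ q ^ 2 ≤ 256 * W ∧ W ≤ q ^ 2 ∧
    (W = 1 ∨ (1 : ℝ) / (q : ℝ) ^ 2 ≤ 1 / (6 * W)) := by
  have h4 : 4 ≤ q ^ 2 := by nlinarith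
  refine ⟨max 1 (q ^ 2 / 128), le_max_left _ _, ?_, ?_, ?_, ?_⟩
  · rcases le_total 1 (q ^ 2 / 128) with h | h
    · rw [max_eq_right h]
      have := Nat.div_mul_le_self (q ^ 2) 128
      omega
    · rw [max_eq_left h]; omega
  · have h1 : q ^ 2 < 128 * (q ^ 2 / 128 + 1) := Nat.lt_mul_div_succ (q ^ 2) (show 0 < 128 by norm_num)
    have h2 : q ^ 2 / 128 ≤ max 1 (q ^ 2 / 128) := le_max_right _ _
    have h3 : 1 ≤ max 1 (q ^ 2 / 128) := le_max_left _ _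
    omega
  · refine max_le (by omega) (Nat.div_le_self _ _)
  · rcases Nat.lt_or_ge (q ^ 2 / 128) 1 with h | h
    · left; omega
    · right
      rw [max_eq_right h]
      have h0 : (0 : ℝ) < ((q ^ 2 / 128 : ℕ) : ℝ) := by exact_mod_cast h
      apply one_div_le_one_div_of_le (by positivity)
      have h1 : 6 * (q ^ 2 / 128) ≤ q ^ 2 := by
        have := Nat.div_mul_le_self (q ^ 2) 128
        omega
      exact_mod_cast h1

lemma final_num (δ C : ℝ) (hδ : 0 < δ) (hC : 0 < C) (N q W : ℕ) (hN : 1 ≤ N) (hq : 2 ≤ q) (hqW : q ^ 2 ≤ 256 * W) :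
    4 * (C * ((2 * N + 1 : ℕ) : ℝ) ^ (3 + δ)) / W ≤ (1024 * 3 ^ (3 + δ) * C) * (N : ℝ) ^ (3 + δ) * (1 / (q : ℝ) ^ 2) := by
  have hq' : (2 : ℝ) ≤ q := by exact_mod_cast hq
  have hN' : (1 : ℝ) ≤ N := by exact_mod_cast hN
  have hW' : (q : ℝ) ^ 2 ≤ 256 * W := by exact_mod_cast hqW
  have hW0 : (0 : ℝ) < W := by nlinarith
  have h1 : ((2 * N + 1 : ℕ) : ℝ) ^ (3 + δ) ≤ 3 ^ (3 + δ) * (N : ℝ) ^ (3 + δ) := by
    rw [← Real.mul_rpow (by norm_num) (by positivity)]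
    apply Real.rpow_le_rpow (by positivity) _ (by positivity)
    push_cast; linarith
  have h2 : (1 : ℝ) / W ≤ 256 * (1 / (q : ℝ) ^ 2) := by
    rw [mul_one_div, div_le_div_iff₀ hW0 (by positivity)]
    linarith
  calc 4 * (C * ((2 * N + 1 : ℕ) : ℝ) ^ (3 + δ)) / W = (4 * (C * ((2 * N + 1 : ℕ) : ℝ) ^ (3 + δ))) * (1 / W) := by ring
    _ ≤ (4 * (C * (3 ^ (3 + δ) * (N : ℝ) ^ (3 + δ)))) * (256 * (1 / (q : ℝ) ^ 2)) := by
        apply mul_le_mul _ h2 (by positivity) (by positivity)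
        gcongr
    _ = _ := by ring

theorem loc_cubic (δ : ℝ) (hδ : 0 < δ) : ∃ C : ℝ, 0 < C ∧
    ∀ (N q : ℕ) (a : ℤ) (α : ℝ) (u v : ℕ), 2 ≤ q → q ≤ N → IsCoprime a (q : ℤ) → N ≤ u → u ≤ v → v ≤ 2 * N →
      ∫ t in ((a : ℝ) / q - 1 / (q : ℝ) ^ 2)..((a : ℝ) / q + 1 / (q : ℝ) ^ 2), ∫ ξ in (0 : ℝ)..1,
        ‖∑ n ∈ Ioc u v, e (t * (n : ℝ) ^ 3 + α * (n : ℝ) ^ 2 + ξ * n)‖ ^ 6 ≤
      C * (N : ℝ) ^ (3 + δ) * (1 / (q : ℝ) ^ 2) := by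
  obtain ⟨C, hC, hC'⟩ := mom_three (δ / 3) (by positivity)
  refine ⟨1024 * 3 ^ (3 + δ) * C, by positivity, ?_⟩
  intro N q a α u v hq hqN hcop hNu huv hvN
  obtain ⟨W, hW1, hW2, hW3, hW4, hW5⟩ := exists_W q hq
  have hr : (1 : ℝ) / (q : ℝ) ^ 2 < 1 / 2 := by
    have hq' : (2 : ℝ) ≤ q := by exact_mod_cast hq
    rw [div_lt_div_iff₀ (by positivity) (by norm_num)]
    nlinarith
  have h1 := hC' q (u + 1) (2 * N + 1) W a ((v : ℤ) + 1) α hW1 hW2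
    (by
      refine hW4.trans ?_
      have h3 : q ^ 2 ≤ (u + 1) ^ 2 := Nat.pow_le_pow_left (by omega) 2
      have h4 : (u + 1) ^ 2 ≤ (u + 1) ^ 3 := Nat.pow_le_pow_right (by omega) (by norm_num)
      omega)
    (by omega) (by omega) (by omega) (by omega) hcop (by push_cast; omega)
  have h2 := loc_arc 3 _ (fun n => e (α * (n : ℝ) ^ 2)) ((a : ℝ) / q) (1 / (q : ℝ) ^ 2) _ (u + 1) W u v hW1
    (by positivity) hr hW5 (fun n => ?_) le_rfl (by omega) h1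
  · have e1 : ∀ t ξ : ℝ, ∑ n ∈ Ioc u v, e (t * (n : ℝ) ^ 3 + α * (n : ℝ) ^ 2 + ξ * n) =
        ∑ n ∈ Ioc u v, e (α * (((n : ℕ) : ℤ) : ℝ) ^ 2) * e (t * (n : ℝ) ^ 3 + ξ * n) := by
      intro t ξ
      refine Finset.sum_congr rfl fun n _ => ?_
      rw [← e_add]
      congr 1
      push_cast; ring
    simp only [e1]
    refine h2.trans ?_
    have e2 : (3 : ℝ) + 3 * (δ / 3) = 3 + δ := by ring
    rw [e2]
    exact final_num δ C hδ hC N q W (by omega) hq hW3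
  · unfold cf
    by_cases h : (u : ℤ) < n ∧ n ≤ v
    · rw [if_pos h, if_pos (by push_cast; omega), ← e_add]
      congr 1
      ring
    · rw [if_neg h, if_neg (by push_cast; omega)]

theorem loc_higher (k : ℕ) (hk : 4 ≤ k) (δ : ℝ) (hδ : 0 < δ) : ∃ C : ℝ, 0 < C ∧
    ∀ (c : ℤ → ℂ), (∀ n, ‖c n‖ ≤ 1) → ∀ (N q : ℕ) (τ : ℝ) (u v : ℕ), 2 ≤ q → q ≤ N → N ≤ u → u ≤ v → v ≤ 2 * N →
      ∫ t in (τ - 1 / (q : ℝ) ^ 2)..(τ + 1 / (q : ℝ) ^ 2), ∫ ξ in (0 : ℝ)..1,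
        ‖∑ n ∈ Ioc u v, c n * e (t * (n : ℝ) ^ k + ξ * n)‖ ^ 6 ≤
      C * (N : ℝ) ^ (3 + δ) * (1 / (q : ℝ) ^ 2) := by
  obtain ⟨C, hC, hC'⟩ := mom_ge4 k hk δ hδ
  refine ⟨1024 * 3 ^ (3 + δ) * C, by positivity, ?_⟩
  intro c hc N q τ u v hq hqN hNu huv hvN
  obtain ⟨W, hW1, hW2, hW3, hW4, hW5⟩ := exists_W q hq
  have hr : (1 : ℝ) / (q : ℝ) ^ 2 < 1 / 2 := by
    have hq' : (2 : ℝ) ≤ q := by exact_mod_cast hq
    rw [div_lt_div_iff₀ (by positivity) (by norm_num)]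
    nlinarith
  have h1 := hC' q (u + 1) (2 * N + 1) W (fun n => if (u : ℤ) < n ∧ n ≤ v then c n * e (τ * (n : ℝ) ^ k) else 0)
    hW1 hW2 (by omega) (by omega) (by omega)
    (by
      have h4 : u + 1 ≤ (u + 1) ^ 2 := Nat.le_self_pow (by norm_num) _
      omega)
    (by
      intro n
      split_ifs
      · rw [norm_mul, e_norm, mul_one]; exact hc n
      · simp)
    (by
      intro n hn
      simp only [ne_eq, ite_eq_right_iff, not_forall] at hn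
      obtain ⟨h, _⟩ := hn
      push_cast
      omega)
  have h2 := loc_arc k _ c τ (1 / (q : ℝ) ^ 2) _ (u + 1) W u v hW1
    (by positivity) hr hW5 (fun n => rfl) le_rfl (by omega) h1
  exact h2.trans (final_num δ C hδ hC N q W (by omega) hq hW3)

end Pool.Agent.W2helper10.MW
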