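import Pool.Agent.W2helper10.MW.Blk

/-!
Local sixth moments: the case `k ≥ 4` (arbitrary bounded coefficients), and the quadratic Vinogradov system.
-/

set_option autoImplicit false

namespace Pool.Agent.W2helper10.MW

open MeasureTheory Finset
open Pool.Agent.W928.MW (e e_add e_norm e_cont)
open Pool.Agent.TH181.MX (e_conj)

lemma tri_self (W : ℕ) (hW : 1 ≤ W) : tri W 0 = 1 := by
  unfold tri
  have h : ((range W ×ˢ range W).filter fun p => (0 : ℤ) + ((p.1 : ℤ) - (p.2 : ℤ)) = 0) =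
      (range W).image fun l => (l, l) := by
    ext ⟨x, y⟩
    simp only [mem_filter, mem_product, mem_range, mem_image, Prod.mk.injEq]
    constructor
    · rintro ⟨⟨h1, h2⟩, h3⟩
      exact ⟨x, h1, rfl, by omega⟩
    · rintro ⟨l, h1, rfl, rfl⟩
      exact ⟨⟨h1, h1⟩, by omega⟩
  rw [h, Finset.card_image_of_injective _ (fun a b hab => (Prod.ext_iff.1 hab).1), Finset.card_range]
  have : (W : ℝ) ≠ 0 := by exact_mod_cast (by omega : W ≠ 0)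
  field_simp

lemma mass (W : ℕ) (hW : 1 ≤ W) : ∫ _ω, (1 : ℝ) ∂(mu W) = 1 := by
  have h := int_char W 0 0
  simp only [Int.cast_zero, zero_mul, add_zero, e_zero, if_true, tri_self W hW] at h
  have h2 : ∫ _ω, (1 : ℂ) ∂(mu W) = ((∫ _ω, (1 : ℝ) ∂(mu W) : ℝ) : ℂ) := by
    rw [← integral_complex_ofReal]; simp
  rw [h2] at h
  exact_mod_cast h

/-- trivial bound for a block -/
lemma block_triv (φ : ℤ → ℤ) (c : ℤ → ℂ) (hc : ∀ n, ‖c n‖ ≤ 1) (W : ℕ) (hW : 1 ≤ W) (x : ℤ) (L : ℕ) :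
    ∫ ω, ‖Sx φ c x L ω‖ ^ 6 ∂(mu W) ≤ ((L : ℝ) ^ 2) ^ 3 := by
  have h1 : ∀ ω, ‖Sx φ c x L ω‖ ^ 6 ≤ ((L : ℝ) ^ 2) ^ 3 * 1 := by
    intro ω
    have h2 : ‖Sx φ c x L ω‖ ≤ L := by
      unfold Sx
      refine (norm_sum_le _ _).trans ?_
      calc ∑ i ∈ range L, ‖ex φ c (x + i) ω‖ ≤ ∑ _i ∈ range L, (1 : ℝ) := by
            refine Finset.sum_le_sum fun i _ => ?_
            unfold ex
            rw [norm_mul, e_norm, mul_one]
            exact hc _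
        _ = L := by simp
    calc _ ≤ (L : ℝ) ^ 6 := pow_le_pow_left₀ (norm_nonneg _) h2 6
      _ = _ := by ring
  calc _ ≤ ∫ _ω, ((L : ℝ) ^ 2) ^ 3 * 1 ∂(mu W) :=
        integral_mono (((nc_Sx _ _ _ _).norm.pow 6).integrable _) ((Nc.const _).integrable _) h1
    _ = _ := by rw [integral_const_mul, mass W hW, mul_one]

/-- extending the range of summation where the coefficients vanish -/
lemma Sx_extend (φ : ℤ → ℤ) (c : ℤ → ℂ) (x : ℤ) (L U : ℕ) (hLU : L ≤ U)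
    (hc : ∀ n, x + L ≤ n → c n = 0) (ω : ℝ × ℝ) : Sx φ c x U ω = Sx φ c x L ω := by
  unfold Sx
  symm
  refine Finset.sum_subset (Finset.range_mono hLU) fun i _ hi2 => ?_
  rw [Finset.mem_range, not_lt] at hi2
  unfold ex
  rw [hc _ (by omega), zero_mul]

/-- a power of two times `L` between `B` and `2 B` -/
lemma exists_t (L B : ℕ) (hL : 1 ≤ L) (hLB : L ≤ B) : ∃ t : ℕ, B ≤ 2 ^ t * L ∧ 2 ^ t * L ≤ 2 * B := by
  have hex : ∃ t : ℕ, B ≤ 2 ^ t * L := ⟨B, by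
    calc B ≤ 2 ^ B := Nat.lt_two_pow_self.le
      _ ≤ 2 ^ B * L := Nat.le_mul_of_pos_right _ (by omega)⟩
  classical
  set t := Nat.find hex with ht
  refine ⟨t, Nat.find_spec hex, ?_⟩
  rcases Nat.eq_zero_or_pos t with h0 | h0
  · rw [h0]; omega
  · have h1 := Nat.find_min hex (show t - 1 < Nat.find hex by omega)
    push Not at h1
    have h2 : 2 ^ t = 2 * 2 ^ (t - 1) := by
      rw [← pow_succ']; congr 1; omega
    rw [h2]
    calc 2 * 2 ^ (t - 1) * L = 2 * (2 ^ (t - 1) * L) := by ring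
      _ ≤ 2 * B := by omega

lemma rho_pow (δ : ℝ) (hδ : 0 < δ) (t : ℕ) (B : ℝ) (hB : (2 : ℝ) ^ t ≤ B) :
    ((2 : ℝ) ^ (δ / 2)) ^ (2 * t) ≤ B ^ δ := by
  have h1 : ((2 : ℝ) ^ (δ / 2)) ^ (2 * t) = ((2 : ℝ) ^ t) ^ δ := by
    rw [← Real.rpow_natCast ((2 : ℝ) ^ (δ / 2)), ← Real.rpow_mul (by norm_num), ← Real.rpow_natCast (2 : ℝ) t,
      ← Real.rpow_mul (by norm_num)]
    congr 1
    push_cast; ring
  rw [h1]
  exact Real.rpow_le_rpow (by positivity) hB hδ.le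

/-- curvature of `n ^ k` on `[M, 2 M]` -/
lemma tr_dyadic (k M : ℕ) (hk : 2 ≤ k) : Tr (fun n => n ^ k) M (2 * M) ((k : ℝ) * (k - 1) * (M : ℝ) ^ (k - 2))
    ((k : ℝ) * (k - 1) * (2 * (M : ℝ)) ^ (k - 2)) := by
  have h := tr_pow k hk (M : ℤ) (2 * M : ℤ) (by positivity)
  push_cast at h
  exact h

theorem mom_ge4 (k : ℕ) (hk : 4 ≤ k) (δ : ℝ) (hδ : 0 < δ) : ∃ C : ℝ, 0 < C ∧
    ∀ (q M N W : ℕ) (c : ℤ → ℂ), 1 ≤ W → 2 * W ≤ q ^ 2 → q ≤ N → 1 ≤ M → M ≤ N → q ≤ M ^ 2 →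
      (∀ n, ‖c n‖ ≤ 1) → (∀ n, c n ≠ 0 → (M : ℤ) ≤ n ∧ n < 2 * M) →
      ∫ ω, ‖Sx (fun n => n ^ k) c M M ω‖ ^ 6 ∂(mu W) ≤ C * (N : ℝ) ^ (3 + δ) := by
  obtain ⟨A, hA1, hA⟩ := dec_exp (2 ^ (k - 1) + 1) ((2 : ℝ) ^ (δ / 2))
    (Real.one_lt_rpow (by norm_num) (by positivity))
  refine ⟨A * 2 ^ δ * 64, by positivity, ?_⟩
  intro q M N W c hW hWq hqN hM hMN hqM hc1 hc
  have hk' : (4 : ℝ) ≤ k := by exact_mod_cast hk
  have hM' : (1 : ℝ) ≤ M := by exact_mod_cast hM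
  have hN' : (1 : ℝ) ≤ N := by exact_mod_cast hM.trans hMN
  set κ : ℝ := (k : ℝ) * (k - 1) * (M : ℝ) ^ (k - 2) with hκ
  have hkk : (12 : ℝ) ≤ (k : ℝ) * (k - 1) := by nlinarith
  have hMpow : (M : ℝ) ^ 2 ≤ (M : ℝ) ^ (k - 2) := pow_le_pow_right₀ hM' (by omega)
  have hκM : 12 * (M : ℝ) ^ 2 ≤ κ := by
    rw [hκ]; exact mul_le_mul hkk hMpow (by positivity) (by linarith)
  have hκ0 : 0 < κ := by nlinarith [sq_nonneg (M : ℝ)]
  have hWq' : 2 * (W : ℝ) ≤ (q : ℝ) ^ 2 := by exact_mod_cast hWq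
  have hqM' : (q : ℝ) ≤ (M : ℝ) ^ 2 := by exact_mod_cast hqM
  have hex : ∃ L : ℕ, (W : ℝ) ≤ κ * (L : ℝ) ^ 2 := by
    refine ⟨M, ?_⟩
    have h1 : (q : ℝ) ^ 2 ≤ ((M : ℝ) ^ 2) ^ 2 := pow_le_pow_left₀ (by positivity) hqM' 2
    have h2 : 12 * (M : ℝ) ^ 2 * (M : ℝ) ^ 2 ≤ κ * (M : ℝ) ^ 2 := mul_le_mul_of_nonneg_right hκM (by positivity)
    nlinarith [sq_nonneg ((M : ℝ) ^ 2)]
  classical
  set L := Nat.find hex with hL
  have hLW : (W : ℝ) ≤ κ * (L : ℝ) ^ 2 := Nat.find_spec hex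
  have hL1 : 1 ≤ L := by
    by_contra h
    have h0 : L = 0 := by omega
    rw [h0] at hLW
    have : (1 : ℝ) ≤ W := by exact_mod_cast hW
    simp at hLW
    linarith
  have hLM : L ≤ M := Nat.find_min' hex (by
    have h1 : (q : ℝ) ^ 2 ≤ ((M : ℝ) ^ 2) ^ 2 := pow_le_pow_left₀ (by positivity) hqM' 2
    have h2 : 12 * (M : ℝ) ^ 2 * (M : ℝ) ^ 2 ≤ κ * (M : ℝ) ^ 2 := mul_le_mul_of_nonneg_right hκM (by positivity)
    nlinarith [sq_nonneg ((M : ℝ) ^ 2)])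
  have hML : (M : ℝ) * L ≤ 2 * N := by
    have hMN' : (M : ℝ) ≤ N := by exact_mod_cast hMN
    have hqN' : (q : ℝ) ≤ N := by exact_mod_cast hqN
    have h1 := Nat.find_min hex (show L - 1 < Nat.find hex by omega)
    push Not at h1
    have h2 : ((L - 1 : ℕ) : ℝ) = (L : ℝ) - 1 := by push_cast [hL1]; ring
    rw [h2] at h1
    have h3 : 12 * (M : ℝ) ^ 2 * ((L : ℝ) - 1) ^ 2 ≤ κ * ((L : ℝ) - 1) ^ 2 :=
      mul_le_mul_of_nonneg_right hκM (sq_nonneg _)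
    have h4 : ((M : ℝ) * ((L : ℝ) - 1)) ^ 2 ≤ (q : ℝ) ^ 2 := by nlinarith [sq_nonneg ((M : ℝ) * ((L : ℝ) - 1))]
    have h5 : (M : ℝ) * ((L : ℝ) - 1) ≤ q := abs_le_of_sq_le_sq' h4 (by positivity) |>.2
    nlinarith
  obtain ⟨t, ht1, ht2⟩ := exists_t L M hL1 hLM
  have hmain := hA (fun n => n ^ k) M (2 * M) κ ((k : ℝ) * (k - 1) * (2 * (M : ℝ)) ^ (k - 2)) W L c M
    (tr_dyadic k M (by omega)) hκ0 (by nlinarith [pow_pos (show (0 : ℝ) < 2 * M by positivity) (k - 2)]) (by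
      have e1 : (2 * (M : ℝ)) ^ (k - 2) = 2 ^ (k - 2) * (M : ℝ) ^ (k - 2) := mul_pow _ _ _
      have e2 : (2 : ℝ) ^ (k - 1) = 2 * 2 ^ (k - 2) := by rw [← pow_succ']; congr 1; omega
      rw [hκ, e1]; push_cast; rw [e2]
      apply le_of_eq; ring) hLW (fun n hn => ⟨(hc n hn).1, (hc n hn).2.le⟩)
    (fun _ => (L : ℝ) ^ 2) (fun _ => by positivity) (fun b => block_triv _ c hc1 W hW _ L) t
  have e3 : ∀ ω, Sx (fun n => n ^ k) c M (2 ^ t * L) ω = Sx (fun n => n ^ k) c M M ω := fun ω =>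
    Sx_extend _ c M M _ ht1 (fun n hn => by
      by_contra h
      have := (hc n h).2
      omega) ω
  simp only [e3] at hmain
  refine hmain.trans ?_
  rw [Finset.sum_const, Finset.card_range, nsmul_eq_mul]
  have h5 : ((2 : ℝ) ^ (δ / 2)) ^ (2 * t) ≤ (2 * (N : ℝ)) ^ δ := by
    apply rho_pow δ hδ
    have h6 : 2 ^ t ≤ 2 * N := by
      calc 2 ^ t ≤ 2 ^ t * L := Nat.le_mul_of_pos_right _ (by omega)
        _ ≤ 2 * M := ht2
        _ ≤ 2 * N := by omega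
    exact_mod_cast h6
  have h7 : (((2 ^ t : ℕ) : ℝ) * (L : ℝ) ^ 2) ≤ 4 * N := by
    have h8 : ((2 ^ t * L : ℕ) : ℝ) ≤ ((2 * M : ℕ) : ℝ) := by exact_mod_cast ht2
    push_cast at h8 ⊢
    calc (2 : ℝ) ^ t * (L : ℝ) ^ 2 = ((2 : ℝ) ^ t * L) * L := by ring
      _ ≤ (2 * M) * L := mul_le_mul_of_nonneg_right h8 (by positivity)
      _ = 2 * ((M : ℝ) * L) := by ring
      _ ≤ 4 * N := by linarith
  calc A * ((2 : ℝ) ^ (δ / 2)) ^ (2 * t) * (((2 ^ t : ℕ) : ℝ) * (L : ℝ) ^ 2) ^ 3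
      ≤ A * (2 * (N : ℝ)) ^ δ * (4 * N) ^ 3 := by gcongr
    _ = A * 2 ^ δ * 64 * ((N : ℝ) ^ (3 : ℝ) * (N : ℝ) ^ δ) := by
        have e4 : (N : ℝ) ^ (3 : ℝ) = (N : ℝ) ^ 3 := by exact_mod_cast Real.rpow_natCast (N : ℝ) 3
        rw [Real.mul_rpow (by norm_num) (by positivity), e4]
        ring
    _ = _ := by rw [← Real.rpow_add (by linarith)]

/-- the quadratic Vinogradov system in six variables -/
theorem vin (δ : ℝ) (hδ : 0 < δ) : ∃ C : ℝ, 0 < C ∧ ∀ L : ℕ, 1 ≤ L →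
    ∫ ω, ‖Sx (fun n => n ^ 2) (fun _ => 1) 0 L ω‖ ^ 6 ∂(mu 1) ≤ C * (L : ℝ) ^ (3 + δ) := by
  obtain ⟨A, hA1, hA⟩ := dec_exp 3 ((2 : ℝ) ^ (δ / 2)) (Real.one_lt_rpow (by norm_num) (by positivity))
  refine ⟨A * 2 ^ δ * 8, by positivity, ?_⟩
  intro L hL
  have hL' : (1 : ℝ) ≤ L := by exact_mod_cast hL
  set c : ℤ → ℂ := fun n => if 0 ≤ n ∧ n < L then 1 else 0 with hc
  obtain ⟨t, ht1, ht2⟩ := exists_t 1 L le_rfl hL
  rw [mul_one] at ht1 ht2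
  have hc1 : ∀ n, ‖c n‖ ≤ 1 := by
    intro n
    simp only [hc]
    split_ifs <;> simp
  have hTr := tr_pow 2 le_rfl 0 (L : ℤ) le_rfl
  have hmain := hA (fun n => n ^ 2) 0 L 2 2 1 1 c 0 (by simpa using by norm_num at hTr ⊢; exact hTr) (by norm_num)
    (by norm_num) (by norm_num) (by norm_num) (by
      intro n hn
      simp only [hc] at hn
      split_ifs at hn with h
      · exact ⟨h.1, h.2.le⟩
      · exact absurd rfl hn)
    (fun _ => 1) (fun _ => by norm_num) (fun b => by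
      have := block_triv (fun n => n ^ 2) c hc1 1 le_rfl (0 + ((b * 1 : ℕ) : ℤ)) 1
      simpa [gB] using this) t
  rw [mul_one] at hmain
  have e3 : ∀ ω, Sx (fun n => n ^ 2) c 0 (2 ^ t) ω = Sx (fun n => n ^ 2) (fun _ => 1) 0 L ω := by
    intro ω
    rw [Sx_extend _ c 0 L _ ht1 (fun n hn => by simp only [hc]; rw [if_neg]; omega) ω]
    unfold Sx
    refine Finset.sum_congr rfl fun i hi => ?_
    rw [Finset.mem_range] at hi
    unfold ex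
    simp only [hc]
    rw [if_pos (by constructor <;> omega)]
  simp only [e3] at hmain
  refine hmain.trans ?_
  rw [Finset.sum_const, Finset.card_range, nsmul_eq_mul, mul_one]
  have h6 : ((2 ^ t : ℕ) : ℝ) ≤ 2 * L := by exact_mod_cast ht2
  have h5 : ((2 : ℝ) ^ (δ / 2)) ^ (2 * t) ≤ (2 * (L : ℝ)) ^ δ := by
    apply rho_pow δ hδ
    exact_mod_cast ht2
  calc A * ((2 : ℝ) ^ (δ / 2)) ^ (2 * t) * ((2 ^ t : ℕ) : ℝ) ^ 3
      ≤ A * (2 * (L : ℝ)) ^ δ * (2 * L) ^ 3 := by gcongr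
    _ = A * 2 ^ δ * 8 * ((L : ℝ) ^ (3 : ℝ) * (L : ℝ) ^ δ) := by
        have e4 : (L : ℝ) ^ (3 : ℝ) = (L : ℝ) ^ 3 := by exact_mod_cast Real.rpow_natCast (L : ℝ) 3
        rw [Real.mul_rpow (by norm_num) (by positivity), e4]
        ring
    _ = _ := by rw [← Real.rpow_add (by linarith)]

end Pool.Agent.W2helper10.MW
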