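import Pool.Agent.W2helper10.MW.Mom1

/-!
The arithmetic of the cubic case: sums over short blocks, averaged over the position of the block.
-/

set_option autoImplicit false

namespace Pool.Agent.W2helper10.MW

open MeasureTheory Finset
open Pool.Agent.W928.MW (e e_add e_norm e_cont)
open Pool.Agent.TH181.MX (e_conj e_ee)
open Pool.Agent.H807R2.Dav (KK KK_nonneg KK_neg geo_bound vino)

/-- the sixth power of the absolute value of a sum -/
lemma sixth (s : Finset ℕ) (z : ℕ → ℂ) : ((‖∑ a ∈ s, z a‖ ^ 6 : ℝ) : ℂ) =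
    ∑ v ∈ s ×ˢ s ×ˢ s, ∑ w ∈ s ×ˢ s ×ˢ s, (z v.1 * z v.2.1 * z v.2.2) *
      (starRingEnd ℂ) (z w.1 * z w.2.1 * z w.2.2) := by
  have h1 : (∑ a ∈ s, z a) ^ 3 = ∑ v ∈ s ×ˢ s ×ˢ s, z v.1 * z v.2.1 * z v.2.2 := by
    rw [Finset.sum_product]
    simp only [Finset.sum_product]
    rw [pow_succ, pow_two, Finset.sum_mul_sum, Finset.sum_mul]
    refine Finset.sum_congr rfl fun a _ => ?_
    rw [Finset.sum_mul]
    refine Finset.sum_congr rfl fun b _ => ?_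
    rw [Finset.mul_sum]
  have h2 : ((‖∑ a ∈ s, z a‖ ^ 6 : ℝ) : ℂ) = (∑ a ∈ s, z a) ^ 3 * (starRingEnd ℂ) ((∑ a ∈ s, z a) ^ 3) := by
    rw [Complex.mul_conj, Complex.normSq_eq_norm_sq, norm_pow]
    push_cast; ring
  rw [h2, h1, map_sum, Finset.sum_mul_sum]

/-- the product of six characters, again -/
lemma six' (φ : ℤ → ℤ) (c : ℤ → ℂ) (n1 n2 n3 m1 m2 m3 : ℤ) (ω : ℝ × ℝ) :
    ex φ c n1 ω * ex φ c n2 ω * ex φ c n3 ω *
      (starRingEnd ℂ) (ex φ c m1 ω * ex φ c m2 ω * ex φ c m3 ω) =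
    (c n1 * c n2 * c n3 * (starRingEnd ℂ) (c m1 * c m2 * c m3)) *
      e (((φ n1 + φ n2 + φ n3 - (φ m1 + φ m2 + φ m3) : ℤ) : ℝ) * ω.1 +
        ((n1 + n2 + n3 - (m1 + m2 + m3) : ℤ) : ℝ) * ω.2) := by
  unfold ex
  simp only [map_mul, e_conj]
  have h : e (((φ n1 + φ n2 + φ n3 - (φ m1 + φ m2 + φ m3) : ℤ) : ℝ) * ω.1 +
        ((n1 + n2 + n3 - (m1 + m2 + m3) : ℤ) : ℝ) * ω.2) =
      e ((φ n1 : ℝ) * ω.1 + (n1 : ℝ) * ω.2) * e ((φ n2 : ℝ) * ω.1 + (n2 : ℝ) * ω.2) *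
      e ((φ n3 : ℝ) * ω.1 + (n3 : ℝ) * ω.2) * (e (-((φ m1 : ℝ) * ω.1 + (m1 : ℝ) * ω.2)) *
        e (-((φ m2 : ℝ) * ω.1 + (m2 : ℝ) * ω.2)) * e (-((φ m3 : ℝ) * ω.1 + (m3 : ℝ) * ω.2))) := by
    simp only [← e_add]
    congr 1
    push_cast; ring
  rw [h]
  ring

/-- power sums of triples -/
def P1 (v : ℕ × ℕ × ℕ) : ℤ := (v.1 : ℤ) + v.2.1 + v.2.2
def P2 (v : ℕ × ℕ × ℕ) : ℤ := (v.1 : ℤ) ^ 2 + (v.2.1 : ℤ) ^ 2 + (v.2.2 : ℤ) ^ 2
def P3 (v : ℕ × ℕ × ℕ) : ℤ := (v.1 : ℤ) ^ 3 + (v.2.1 : ℤ) ^ 3 + (v.2.2 : ℤ) ^ 3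

/-- triples -/
def V3 (L : ℕ) : Finset (ℕ × ℕ × ℕ) := range L ×ˢ range L ×ˢ range L

/-- the expansion of the sixth moment of a block -/
lemma moment_expand (φ : ℤ → ℤ) (c : ℤ → ℂ) (x : ℤ) (L W : ℕ) :
    ((∫ ω, ‖Sx φ c x L ω‖ ^ 6 ∂(mu W) : ℝ) : ℂ) = ∑ v ∈ V3 L, ∑ w ∈ V3 L,
      (c (x + v.1) * c (x + v.2.1) * c (x + v.2.2) *
        (starRingEnd ℂ) (c (x + w.1) * c (x + w.2.1) * c (x + w.2.2))) *
      (if P1 v = P1 w then (tri W (φ (x + v.1) + φ (x + v.2.1) + φ (x + v.2.2) -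
        (φ (x + w.1) + φ (x + w.2.1) + φ (x + w.2.2))) : ℂ) else 0) := by
  rw [← integral_complex_ofReal]
  have h1 : ∀ ω, ((‖Sx φ c x L ω‖ ^ 6 : ℝ) : ℂ) = ∑ v ∈ V3 L, ∑ w ∈ V3 L,
      ((c (x + v.1) * c (x + v.2.1) * c (x + v.2.2) *
        (starRingEnd ℂ) (c (x + w.1) * c (x + w.2.1) * c (x + w.2.2))) *
      e (((φ (x + v.1) + φ (x + v.2.1) + φ (x + v.2.2) -
        (φ (x + w.1) + φ (x + w.2.1) + φ (x + w.2.2)) : ℤ) : ℝ) * ω.1 + ((P1 v - P1 w : ℤ) : ℝ) * ω.2)) := by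
    intro ω
    unfold Sx V3
    rw [sixth]
    refine Finset.sum_congr rfl fun v _ => Finset.sum_congr rfl fun w _ => ?_
    rw [six']
    congr 3
    unfold P1
    push_cast; ring
  simp only [h1]
  have hI : ∀ v w : ℕ × ℕ × ℕ, Integrable (fun ω : ℝ × ℝ => ((c (x + v.1) * c (x + v.2.1) * c (x + v.2.2) *
        (starRingEnd ℂ) (c (x + w.1) * c (x + w.2.1) * c (x + w.2.2))) *
      e (((φ (x + v.1) + φ (x + v.2.1) + φ (x + v.2.2) -
        (φ (x + w.1) + φ (x + w.2.1) + φ (x + w.2.2)) : ℤ) : ℝ) * ω.1 + ((P1 v - P1 w : ℤ) : ℝ) * ω.2))) (mu W) :=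
    fun v w => ((Nc.constC _).mulC (nc_e _ _)).integrableC _
  rw [integral_finsetSum _ fun v _ => integrable_finsetSum _ fun w _ => hI v w]
  refine Finset.sum_congr rfl fun v _ => ?_
  rw [integral_finsetSum _ fun w _ => hI v w]
  refine Finset.sum_congr rfl fun w _ => ?_
  rw [integral_const_mul, int_char]
  congr 1
  by_cases h : P1 v = P1 w
  · rw [if_pos h, if_pos (by omega)]
  · rw [if_neg h, if_neg (by omega)]

lemma tri_one (A : ℤ) : tri 1 A = if A = 0 then 1 else 0 := by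
  split_ifs with h
  · rw [h]; exact tri_self 1 le_rfl
  · apply tri_zero
    have := Int.one_le_abs h
    simpa using this

/-- the number of solutions with a prescribed difference of the quadratic power sums -/
lemma r_le (L : ℕ) (D : ℤ) :
    (((V3 L ×ˢ V3 L).filter fun p => P1 p.1 = P1 p.2 ∧ P2 p.1 - P2 p.2 = D).card : ℝ) ≤
      ∫ ω, ‖Sx (fun n => n ^ 2) (fun _ => 1) 0 L ω‖ ^ 6 ∂(mu 1) := by
  have h1 : ∀ ω : ℝ × ℝ, ((‖Sx (fun n => n ^ 2) (fun _ => 1) 0 L ω‖ ^ 6 : ℝ) : ℂ) * e (((-D : ℤ) : ℝ) * ω.1) =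
      ∑ v ∈ V3 L, ∑ w ∈ V3 L, e (((P2 v - P2 w - D : ℤ) : ℝ) * ω.1 + ((P1 v - P1 w : ℤ) : ℝ) * ω.2) := by
    intro ω
    unfold Sx V3
    rw [sixth, Finset.sum_mul]
    refine Finset.sum_congr rfl fun v _ => ?_
    rw [Finset.sum_mul]
    refine Finset.sum_congr rfl fun w _ => ?_
    rw [six']
    simp only [mul_one, map_one, one_mul]
    rw [← e_add]
    congr 1
    unfold P1 P2
    push_cast; ring
  have hI : ∀ v w : ℕ × ℕ × ℕ, Integrable (fun ω : ℝ × ℝ =>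
      e (((P2 v - P2 w - D : ℤ) : ℝ) * ω.1 + ((P1 v - P1 w : ℤ) : ℝ) * ω.2)) (mu 1) :=
    fun v w => (nc_e _ _).integrableC _
  have h2 : ∫ ω : ℝ × ℝ, ((‖Sx (fun n => n ^ 2) (fun _ => 1) 0 L ω‖ ^ 6 : ℝ) : ℂ) * e (((-D : ℤ) : ℝ) * ω.1) ∂(mu 1) =
      ((((V3 L ×ˢ V3 L).filter fun p => P1 p.1 = P1 p.2 ∧ P2 p.1 - P2 p.2 = D).card : ℝ) : ℂ) := by
    simp only [h1]
    rw [integral_finsetSum _ fun v _ => integrable_finsetSum _ fun w _ => hI v w, Finset.card_filter,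
      Finset.sum_product]
    simp only [Nat.cast_sum, Complex.ofReal_sum]
    refine Finset.sum_congr rfl fun v _ => ?_
    rw [integral_finsetSum _ fun w _ => hI v w]
    refine Finset.sum_congr rfl fun w _ => ?_
    rw [int_char, tri_one]
    by_cases h3 : P1 v = P1 w
    · rw [if_pos (by omega)]
      by_cases h4 : P2 v - P2 w = D
      · rw [if_pos (by omega), if_pos ⟨h3, h4⟩]; simp
      · rw [if_neg (by omega), if_neg (fun h => h4 h.2)]; simp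
    · rw [if_neg (by omega), if_neg (fun h => h3 h.1)]; simp
  have h3 := norm_integral_le_integral_norm (μ := mu 1)
    (fun ω : ℝ × ℝ => ((‖Sx (fun n => n ^ 2) (fun _ => 1) 0 L ω‖ ^ 6 : ℝ) : ℂ) * e (((-D : ℤ) : ℝ) * ω.1))
  rw [h2] at h3
  simp only [norm_mul, e_norm, mul_one, Complex.norm_real] at h3
  rw [Real.norm_of_nonneg (by positivity)] at h3
  refine h3.trans (le_of_eq ?_)
  refine integral_congr_ae (Filter.Eventually.of_forall fun ω => ?_)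
  simp

/-- geometric sums over convex sets of integers -/
lemma conv_sum (p : ℕ → Prop) [DecidablePred p] (hp : ∀ u1 u u2, u1 ≤ u → u ≤ u2 → p u1 → p u2 → p u)
    (U : ℕ) (x : ℝ) : ‖∑ u ∈ (range U).filter p, e ((u : ℝ) * x)‖ ≤ KK U x := by
  rcases ((range U).filter p).eq_empty_or_nonempty with h | h
  · rw [h, Finset.sum_empty, norm_zero]
    exact KK_nonneg (by positivity) _
  · set a := ((range U).filter p).min' h with ha
    set b := ((range U).filter p).max' h with hb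
    have h1 : a ∈ (range U).filter p := Finset.min'_mem _ h
    have h2 : b ∈ (range U).filter p := Finset.max'_mem _ h
    rw [Finset.mem_filter, Finset.mem_range] at h1 h2
    have hab : a ≤ b := Finset.min'_le_max' _ h
    have h3 : (range U).filter p = Ico a (b + 1) := by
      ext u
      rw [Finset.mem_Ico]
      constructor
      · intro hu
        have h4 := Finset.min'_le _ u hu
        have h5 := Finset.le_max' _ u hu
        omega
      · rintro ⟨h4, h5⟩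
        rw [Finset.mem_filter, Finset.mem_range]
        exact ⟨by omega, hp a u b h4 (by omega) h1.2 h2.2⟩
    rw [h3]
    simp only [e_ee]
    refine geo_bound a (b + 1) (by omega) ?_ x
    have h6 : (b + 1 : ℕ) ≤ U := by omega
    have h7 : ((b + 1 : ℕ) : ℝ) ≤ U := by exact_mod_cast h6
    have h8 : (0 : ℝ) ≤ a := by positivity
    linarith

/-- another form of the Fejer coefficients -/
lemma tri_alt (W : ℕ) (A : ℤ) : (tri W A : ℂ) =
    (∑ l ∈ range W, if (0 ≤ (l : ℤ) - A ∧ (l : ℤ) - A < W) then (1 : ℂ) else 0) / W := by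
  have h : (tri W A : ℂ) = ((((range W ×ˢ range W).filter fun p => A + ((p.1 : ℤ) - (p.2 : ℤ)) = 0).card : ℂ)) / W := by
    unfold tri; push_cast; rfl
  rw [h]
  congr 1
  rw [Finset.card_filter, Finset.sum_product_right]
  push_cast
  refine Finset.sum_congr rfl fun l _ => ?_
  split_ifs with h1
  · rw [Finset.sum_eq_single ((l : ℤ) - A).toNat]
    · rw [if_pos]; omega
    · intro m _ hm2
      rw [if_neg]; omega
    · intro h2
      exfalso; apply h2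
      rw [Finset.mem_range]; omega
  · apply Finset.sum_eq_zero
    intro m hm
    rw [Finset.mem_range] at hm
    rw [if_neg]; omega

end Pool.Agent.W2helper10.MW
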