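import Pool.Agent.W2helper10.MW.Mom2

/-!
The cubic case: bounding the average over blocks.
-/

set_option autoImplicit false

namespace Pool.Agent.W2helper10.MW

open MeasureTheory Finset
open Pool.Agent.W928.MW (e e_add e_norm e_cont)
open Pool.Agent.TH181.MX (e_conj e_ee)
open Pool.Agent.H807R2.Dav (KK KK_nonneg KK_neg geo_bound vino)

/-- the coefficients: `e(θ n³ + α n²)` on `[P, Q)` -/
noncomputable def cf (P Q : ℤ) (θ α : ℝ) (n : ℤ) : ℂ :=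
  if P ≤ n ∧ n < Q then e (θ * (n : ℝ) ^ 3 + α * (n : ℝ) ^ 2) else 0

lemma cf_in {P Q : ℤ} (θ α : ℝ) {n : ℤ} (h : P ≤ n ∧ n < Q) :
    cf P Q θ α n = e (θ * (n : ℝ) ^ 3 + α * (n : ℝ) ^ 2) := if_pos h

lemma cf_out {P Q : ℤ} (θ α : ℝ) {n : ℤ} (h : ¬ (P ≤ n ∧ n < Q)) : cf P Q θ α n = 0 := if_neg h

/-- all six points are in `[P, Q)` -/
def AllIn (P Q x : ℤ) (v w : ℕ × ℕ × ℕ) : Prop :=
  (P ≤ x + v.1 ∧ x + v.1 < Q) ∧ (P ≤ x + v.2.1 ∧ x + v.2.1 < Q) ∧ (P ≤ x + v.2.2 ∧ x + v.2.2 < Q) ∧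
  (P ≤ x + w.1 ∧ x + w.1 < Q) ∧ (P ≤ x + w.2.1 ∧ x + w.2.1 < Q) ∧ (P ≤ x + w.2.2 ∧ x + w.2.2 < Q)

instance (P Q x : ℤ) (v w : ℕ × ℕ × ℕ) : Decidable (AllIn P Q x v w) := by unfold AllIn; infer_instance

lemma cf_prod (P Q : ℤ) (θ α : ℝ) (x : ℤ) (v w : ℕ × ℕ × ℕ) (h : P1 v = P1 w) :
    cf P Q θ α (x + v.1) * cf P Q θ α (x + v.2.1) * cf P Q θ α (x + v.2.2) *
        (starRingEnd ℂ) (cf P Q θ α (x + w.1) * cf P Q θ α (x + w.2.1) * cf P Q θ α (x + w.2.2)) =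
    if AllIn P Q x v w then e (θ * ((3 * x * (P2 v - P2 w) + (P3 v - P3 w) : ℤ) : ℝ) + α * ((P2 v - P2 w : ℤ) : ℝ))
      else 0 := by
  by_cases hA : AllIn P Q x v w
  · rw [if_pos hA]
    obtain ⟨a1, a2, a3, a4, a5, a6⟩ := hA
    rw [cf_in θ α a1, cf_in θ α a2, cf_in θ α a3, cf_in θ α a4, cf_in θ α a5, cf_in θ α a6]
    simp only [map_mul, e_conj, ← e_add]
    congr 1
    have h' : ((v.1 : ℝ) + v.2.1 + v.2.2) = (w.1 : ℝ) + w.2.1 + w.2.2 := by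
      unfold P1 at h; exact_mod_cast h
    unfold P2 P3
    push_cast
    have e1 : (v.1 : ℝ) = w.1 + w.2.1 + w.2.2 - v.2.1 - v.2.2 := by linarith
    rw [e1]
    ring
  · rw [if_neg hA]
    by_contra hne
    apply hA
    refine ⟨?_, ?_, ?_, ?_, ?_, ?_⟩ <;>
    · by_contra hx
      apply hne
      rw [cf_out θ α hx]
      simp

lemma cube_diff (x : ℤ) (v w : ℕ × ℕ × ℕ) (h : P1 v = P1 w) :
    (x + v.1) ^ 3 + (x + v.2.1) ^ 3 + (x + v.2.2) ^ 3 - ((x + w.1) ^ 3 + (x + w.2.1) ^ 3 + (x + w.2.2) ^ 3) =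
      3 * x * (P2 v - P2 w) + (P3 v - P3 w) := by
  have e1 : (v.1 : ℤ) = w.1 + w.2.1 + w.2.2 - v.2.1 - v.2.2 := by unfold P1 at h; omega
  unfold P2 P3
  rw [e1]
  ring

lemma convex_pred (P Q y D E : ℤ) (W l : ℕ) (v w : ℕ × ℕ × ℕ) :
    ∀ u1 u u2 : ℕ, u1 ≤ u → u ≤ u2 →
      (AllIn P Q (y + u1) v w ∧ (0 ≤ (l : ℤ) - (3 * (y + u1) * D + E) ∧ (l : ℤ) - (3 * (y + u1) * D + E) < W)) →
      (AllIn P Q (y + u2) v w ∧ (0 ≤ (l : ℤ) - (3 * (y + u2) * D + E) ∧ (l : ℤ) - (3 * (y + u2) * D + E) < W)) →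
      (AllIn P Q (y + u) v w ∧ (0 ≤ (l : ℤ) - (3 * (y + u) * D + E) ∧ (l : ℤ) - (3 * (y + u) * D + E) < W)) := by
  intro u1 u u2 h1 h2 ha hb
  obtain ⟨ha1, ha2, ha3⟩ := ha
  obtain ⟨hb1, hb2, hb3⟩ := hb
  have h1' : (u1 : ℤ) ≤ u := by exact_mod_cast h1
  have h2' : (u : ℤ) ≤ u2 := by exact_mod_cast h2
  refine ⟨?_, ?_, ?_⟩
  · unfold AllIn at ha1 hb1 ⊢
    omega
  · rcases le_total 0 D with hD | hD
    · have : ((u : ℤ) - u2) * D ≤ 0 := mul_nonpos_of_nonpos_of_nonneg (by omega) hD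
      nlinarith
    · have : ((u : ℤ) - u1) * D ≤ 0 := mul_nonpos_of_nonneg_of_nonpos (by omega) hD
      nlinarith
  · rcases le_total 0 D with hD | hD
    · have : 0 ≤ ((u : ℤ) - u1) * D := mul_nonneg (by omega) hD
      nlinarith
    · have : 0 ≤ ((u : ℤ) - u2) * D := mul_nonneg_of_nonpos_of_nonpos (by omega) hD
      nlinarith

/-- the sum over the positions for one pair of triples -/
lemma pos_sum (P Q y : ℤ) (θ α : ℝ) (U W : ℕ) (hW : 1 ≤ W) (v w : ℕ × ℕ × ℕ) (h : P1 v = P1 w) :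
    ‖∑ u ∈ range U, (cf P Q θ α (y + u + v.1) * cf P Q θ α (y + u + v.2.1) * cf P Q θ α (y + u + v.2.2) *
        (starRingEnd ℂ) (cf P Q θ α (y + u + w.1) * cf P Q θ α (y + u + w.2.1) * cf P Q θ α (y + u + w.2.2))) *
      (tri W ((y + u + v.1) ^ 3 + (y + u + v.2.1) ^ 3 + (y + u + v.2.2) ^ 3 -
        ((y + u + w.1) ^ 3 + (y + u + w.2.1) ^ 3 + (y + u + w.2.2) ^ 3)) : ℂ)‖ ≤
      KK U (((3 * (P2 v - P2 w) : ℤ) : ℝ) * θ) := by
  set D : ℤ := P2 v - P2 w with hD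
  set E : ℤ := P3 v - P3 w with hE
  set x : ℝ := ((3 * D : ℤ) : ℝ) * θ with hx
  set c0 : ℂ := e (θ * ((3 * y * D + E : ℤ) : ℝ) + α * (D : ℝ)) with hc0
  have hW0 : (W : ℂ) ≠ 0 := by exact_mod_cast (by omega : W ≠ 0)
  have key : ∑ u ∈ range U, (cf P Q θ α (y + u + v.1) * cf P Q θ α (y + u + v.2.1) * cf P Q θ α (y + u + v.2.2) *
        (starRingEnd ℂ) (cf P Q θ α (y + u + w.1) * cf P Q θ α (y + u + w.2.1) * cf P Q θ α (y + u + w.2.2))) *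
      (tri W ((y + u + v.1) ^ 3 + (y + u + v.2.1) ^ 3 + (y + u + v.2.2) ^ 3 -
        ((y + u + w.1) ^ 3 + (y + u + w.2.1) ^ 3 + (y + u + w.2.2) ^ 3)) : ℂ) =
      c0 * ((∑ l ∈ range W, ∑ u ∈ (range U).filter (fun u : ℕ => AllIn P Q (y + u) v w ∧
        (0 ≤ (l : ℤ) - (3 * (y + u) * D + E) ∧ (l : ℤ) - (3 * (y + u) * D + E) < W)), e ((u : ℝ) * x)) / W) := by
    rw [mul_div_assoc', Finset.mul_sum, eq_div_iff hW0, Finset.sum_mul]
    simp only [Finset.sum_filter, Finset.mul_sum]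
    rw [Finset.sum_comm]
    refine Finset.sum_congr rfl fun u _ => ?_
    rw [cf_prod P Q θ α (y + u) v w h, cube_diff (y + u) v w h, ← hD, ← hE, tri_alt, mul_div_assoc', div_mul_cancel₀ _ hW0,
      Finset.mul_sum]
    refine Finset.sum_congr rfl fun l _ => ?_
    by_cases h1 : AllIn P Q (y + u) v w
    · by_cases h2 : (0 ≤ (l : ℤ) - (3 * (y + u) * D + E) ∧ (l : ℤ) - (3 * (y + u) * D + E) < W)
      · rw [if_pos h1, if_pos h2, if_pos ⟨h1, h2⟩, mul_one, hc0, ← e_add]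
        congr 1
        rw [hx]
        push_cast
        ring
      · have h4 : ¬ (AllIn P Q (y + u) v w ∧ (0 ≤ (l : ℤ) - (3 * (y + u) * D + E) ∧
            (l : ℤ) - (3 * (y + u) * D + E) < W)) := fun h3 => h2 h3.2
        rw [if_neg h2, if_neg h4]; simp
    · have h4 : ¬ (AllIn P Q (y + u) v w ∧ (0 ≤ (l : ℤ) - (3 * (y + u) * D + E) ∧
            (l : ℤ) - (3 * (y + u) * D + E) < W)) := fun h3 => h1 h3.1
      rw [if_neg h1, if_neg h4]; simp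
  rw [key, norm_mul, hc0, e_norm, one_mul, norm_div, Complex.norm_natCast, div_le_iff₀ (by exact_mod_cast hW)]
  refine (norm_sum_le _ _).trans ?_
  calc ∑ l ∈ range W, ‖∑ u ∈ (range U).filter (fun u : ℕ => AllIn P Q (y + u) v w ∧
        (0 ≤ (l : ℤ) - (3 * (y + u) * D + E) ∧ (l : ℤ) - (3 * (y + u) * D + E) < W)), e ((u : ℝ) * x)‖
      ≤ ∑ _l ∈ range W, KK U x := by
        refine Finset.sum_le_sum fun l _ => ?_
        exact conv_sum _ (convex_pred P Q y D E W l v w) U x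
    _ = KK U x * W := by rw [Finset.sum_const, Finset.card_range, nsmul_eq_mul, mul_comm]

/-- the average over positions -/
theorem arith (P Q y : ℤ) (θ α : ℝ) (U L W : ℕ) (hW : 1 ≤ W) :
    ∑ u ∈ range U, ∫ ω, ‖Sx (fun n => n ^ 3) (cf P Q θ α) (y + u) L ω‖ ^ 6 ∂(mu W) ≤
      ∑ p ∈ (V3 L ×ˢ V3 L).filter (fun p => P1 p.1 = P1 p.2), KK U (((3 * (P2 p.1 - P2 p.2) : ℤ) : ℝ) * θ) := by
  have h0 : 0 ≤ ∑ u ∈ range U, ∫ ω, ‖Sx (fun n => n ^ 3) (cf P Q θ α) (y + u) L ω‖ ^ 6 ∂(mu W) :=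
    Finset.sum_nonneg fun u _ => integral_nonneg fun ω => by positivity
  rw [← Real.norm_of_nonneg h0, ← Complex.norm_real, Complex.ofReal_sum]
  simp only [moment_expand]
  rw [Finset.sum_comm]
  have h1 : ∑ v ∈ V3 L, ∑ u ∈ range U, ∑ w ∈ V3 L,
      (cf P Q θ α (y + u + v.1) * cf P Q θ α (y + u + v.2.1) * cf P Q θ α (y + u + v.2.2) *
        (starRingEnd ℂ) (cf P Q θ α (y + u + w.1) * cf P Q θ α (y + u + w.2.1) * cf P Q θ α (y + u + w.2.2))) *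
      (if P1 v = P1 w then (tri W ((y + u + v.1) ^ 3 + (y + u + v.2.1) ^ 3 + (y + u + v.2.2) ^ 3 -
        ((y + u + w.1) ^ 3 + (y + u + w.2.1) ^ 3 + (y + u + w.2.2) ^ 3)) : ℂ) else 0) =
      ∑ p ∈ (V3 L ×ˢ V3 L).filter (fun p => P1 p.1 = P1 p.2), ∑ u ∈ range U,
      (cf P Q θ α (y + u + p.1.1) * cf P Q θ α (y + u + p.1.2.1) * cf P Q θ α (y + u + p.1.2.2) *
        (starRingEnd ℂ) (cf P Q θ α (y + u + p.2.1) * cf P Q θ α (y + u + p.2.2.1) * cf P Q θ α (y + u + p.2.2.2))) *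
      (tri W ((y + u + p.1.1) ^ 3 + (y + u + p.1.2.1) ^ 3 + (y + u + p.1.2.2) ^ 3 -
        ((y + u + p.2.1) ^ 3 + (y + u + p.2.2.1) ^ 3 + (y + u + p.2.2.2) ^ 3)) : ℂ) := by
    rw [Finset.sum_filter, Finset.sum_product]
    refine Finset.sum_congr rfl fun v _ => ?_
    rw [Finset.sum_comm]
    refine Finset.sum_congr rfl fun w _ => ?_
    by_cases h : P1 v = P1 w
    · simp only [if_pos h]
    · simp only [if_neg h, mul_zero, Finset.sum_const_zero]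
  rw [h1]
  refine (norm_sum_le _ _).trans (Finset.sum_le_sum fun p hp => ?_)
  rw [Finset.mem_filter] at hp
  exact pos_sum P Q y θ α U W hW p.1 p.2 hp.2

/-- the linear sum -/
lemma sum_D (U X q : ℕ) (a : ℤ) (hq : 1 ≤ q) (hcop : IsCoprime a (q : ℤ)) :
    ∑ D ∈ Icc (-(X : ℤ)) X, KK U (((3 * D : ℤ) : ℝ) * ((a : ℝ) / q)) ≤
      2 * ((((3 * X + 1 : ℕ) : ℝ) / q + 1) * (39 * U + 3 * q * (1 + Real.log q))) := by
  have h1 : ∀ D : ℤ, 0 ≤ KK U (((3 * D : ℤ) : ℝ) * ((a : ℝ) / q)) := fun D => KK_nonneg (by positivity) _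
  have hsub : Icc (-(X : ℤ)) X ⊆ (range (X + 1)).image (fun j : ℕ => (j : ℤ)) ∪
      (range (X + 1)).image (fun j : ℕ => -(j : ℤ)) := by
    intro D hD
    rw [Finset.mem_Icc] at hD
    rw [Finset.mem_union, Finset.mem_image, Finset.mem_image]
    rcases le_total 0 D with h | h
    · left; exact ⟨D.toNat, by rw [Finset.mem_range]; omega, by omega⟩
    · right; exact ⟨(-D).toNat, by rw [Finset.mem_range]; omega, by omega⟩
  have h2 : ∑ j ∈ range (X + 1), KK U (((3 * (j : ℤ) : ℤ) : ℝ) * ((a : ℝ) / q)) ≤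
      ((((3 * X + 1 : ℕ) : ℝ) / q + 1) * (39 * U + 3 * q * (1 + Real.log q))) := by
    have h3 := vino hq hcop (α := (a : ℝ) / q) (by simp) (M := (U : ℝ)) (by positivity) 0 (3 * X + 1)
    refine le_trans ?_ h3
    have h4 : ∑ j ∈ range (X + 1), KK U (((3 * (j : ℤ) : ℤ) : ℝ) * ((a : ℝ) / q)) =
        ∑ i ∈ (range (X + 1)).image (fun j : ℕ => 3 * j), KK U (0 + (i : ℝ) * ((a : ℝ) / q)) := by
      rw [Finset.sum_image (fun x _ y _ hxy => by simpa using hxy)]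
      refine Finset.sum_congr rfl fun j _ => ?_
      congr 1
      push_cast; ring
    rw [h4]
    refine Finset.sum_le_sum_of_subset_of_nonneg ?_ fun i _ _ => KK_nonneg (by positivity) _
    intro i hi
    rw [Finset.mem_image] at hi
    obtain ⟨j, hj, rfl⟩ := hi
    rw [Finset.mem_range] at hj ⊢
    omega
  calc _ ≤ ∑ D ∈ (range (X + 1)).image (fun j : ℕ => (j : ℤ)) ∪
      (range (X + 1)).image (fun j : ℕ => -(j : ℤ)), KK U (((3 * D : ℤ) : ℝ) * ((a : ℝ) / q)) :=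
        Finset.sum_le_sum_of_subset_of_nonneg hsub fun D _ _ => h1 D
    _ ≤ ∑ D ∈ (range (X + 1)).image (fun j : ℕ => (j : ℤ)), KK U (((3 * D : ℤ) : ℝ) * ((a : ℝ) / q)) +
        ∑ D ∈ (range (X + 1)).image (fun j : ℕ => -(j : ℤ)), KK U (((3 * D : ℤ) : ℝ) * ((a : ℝ) / q)) := by
        rw [← Finset.sum_union_inter]
        have : 0 ≤ ∑ D ∈ (range (X + 1)).image (fun j : ℕ => (j : ℤ)) ∩
          (range (X + 1)).image (fun j : ℕ => -(j : ℤ)), KK U (((3 * D : ℤ) : ℝ) * ((a : ℝ) / q)) :=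
          Finset.sum_nonneg fun D _ => h1 D
        linarith
    _ = ∑ j ∈ range (X + 1), KK U (((3 * (j : ℤ) : ℤ) : ℝ) * ((a : ℝ) / q)) +
        ∑ j ∈ range (X + 1), KK U (((3 * (j : ℤ) : ℤ) : ℝ) * ((a : ℝ) / q)) := by
        rw [Finset.sum_image (fun x _ y _ hxy => by simpa using hxy),
          Finset.sum_image (fun x _ y _ hxy => by simpa using hxy)]
        congr 1
        refine Finset.sum_congr rfl fun j _ => ?_
        rw [← KK_neg]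
        congr 1
        push_cast; ring
    _ ≤ _ := by linarith

/-- the count of pairs, with the quadratic system -/
theorem arith2 (U L q : ℕ) (a : ℤ) (hq : 1 ≤ q) (hcop : IsCoprime a (q : ℤ)) :
    ∑ p ∈ (V3 L ×ˢ V3 L).filter (fun p => P1 p.1 = P1 p.2),
      KK U (((3 * (P2 p.1 - P2 p.2) : ℤ) : ℝ) * ((a : ℝ) / q)) ≤
      (∫ ω, ‖Sx (fun n => n ^ 2) (fun _ => 1) 0 L ω‖ ^ 6 ∂(mu 1)) *
        (2 * ((((3 * (3 * L ^ 2) + 1 : ℕ) : ℝ) / q + 1) * (39 * U + 3 * q * (1 + Real.log q)))) := by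
  set J := ∫ ω, ‖Sx (fun n => n ^ 2) (fun _ => 1) 0 L ω‖ ^ 6 ∂(mu 1) with hJ
  have hJ0 : 0 ≤ J := integral_nonneg fun ω => by positivity
  have hmaps : ∀ p ∈ (V3 L ×ˢ V3 L).filter (fun p => P1 p.1 = P1 p.2),
      P2 p.1 - P2 p.2 ∈ Icc (-((3 * L ^ 2 : ℕ) : ℤ)) ((3 * L ^ 2 : ℕ) : ℤ) := by
    intro p hp
    rw [Finset.mem_filter, Finset.mem_product] at hp
    obtain ⟨⟨h1, h2⟩, _⟩ := hp
    unfold V3 at h1 h2
    simp only [Finset.mem_product, Finset.mem_range] at h1 h2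
    have hsq : ∀ n : ℕ, n < L → (0 : ℤ) ≤ (n : ℤ) ^ 2 ∧ (n : ℤ) ^ 2 ≤ (L : ℤ) ^ 2 := by
      intro n hn
      refine ⟨by positivity, ?_⟩
      exact pow_le_pow_left₀ (by positivity) (by exact_mod_cast hn.le) 2
    have g1 := hsq _ h1.1
    have g2 := hsq _ h1.2.1
    have g3 := hsq _ h1.2.2
    have g4 := hsq _ h2.1
    have g5 := hsq _ h2.2.1
    have g6 := hsq _ h2.2.2
    rw [Finset.mem_Icc]
    unfold P2
    push_cast
    constructor <;> linarith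
  rw [← Finset.sum_fiberwise_of_maps_to hmaps]
  calc ∑ D ∈ Icc (-((3 * L ^ 2 : ℕ) : ℤ)) ((3 * L ^ 2 : ℕ) : ℤ),
        ∑ p ∈ ((V3 L ×ˢ V3 L).filter (fun p => P1 p.1 = P1 p.2)).filter (fun p => P2 p.1 - P2 p.2 = D),
          KK U (((3 * (P2 p.1 - P2 p.2) : ℤ) : ℝ) * ((a : ℝ) / q))
      = ∑ D ∈ Icc (-((3 * L ^ 2 : ℕ) : ℤ)) ((3 * L ^ 2 : ℕ) : ℤ),
        (((V3 L ×ˢ V3 L).filter fun p => P1 p.1 = P1 p.2 ∧ P2 p.1 - P2 p.2 = D).card : ℝ) *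
          KK U (((3 * D : ℤ) : ℝ) * ((a : ℝ) / q)) := by
        refine Finset.sum_congr rfl fun D _ => ?_
        rw [Finset.filter_filter]
        rw [Finset.sum_congr rfl (g := fun _ => KK U (((3 * D : ℤ) : ℝ) * ((a : ℝ) / q)))]
        · rw [Finset.sum_const, nsmul_eq_mul]
        · intro p hp
          rw [Finset.mem_filter] at hp
          rw [hp.2.2]
    _ ≤ ∑ D ∈ Icc (-((3 * L ^ 2 : ℕ) : ℤ)) ((3 * L ^ 2 : ℕ) : ℤ), J * KK U (((3 * D : ℤ) : ℝ) * ((a : ℝ) / q)) := by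
        refine Finset.sum_le_sum fun D _ => mul_le_mul_of_nonneg_right (r_le L D) (KK_nonneg (by positivity) _)
    _ = J * ∑ D ∈ Icc (-((3 * L ^ 2 : ℕ) : ℤ)) ((3 * L ^ 2 : ℕ) : ℤ), KK U (((3 * D : ℤ) : ℝ) * ((a : ℝ) / q)) := by
        rw [Finset.mul_sum]
    _ ≤ _ := mul_le_mul_of_nonneg_left (sum_D U (3 * L ^ 2) q a hq hcop) hJ0

end Pool.Agent.W2helper10.MW
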