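import Pool.Agent.W2helper10.MW.Mom3

/-!
The local sixth moment in the cubic case.
-/

set_option autoImplicit false

namespace Pool.Agent.W2helper10.MW

open MeasureTheory Finset
open Pool.Agent.W928.MW (e e_add e_norm e_cont)
open Pool.Agent.TH181.MX (log_le)

lemma Sx_eq (φ : ℤ → ℤ) (c : ℤ → ℂ) (x : ℤ) (L : ℕ) (ω : ℝ × ℝ) :
    Sx φ c x L ω = ∑ n ∈ Finset.Ico x (x + L), ex φ c n ω := by
  unfold Sx
  symm
  refine Finset.sum_nbij' (fun n => (n - x).toNat) (fun i => x + (i : ℤ)) ?_ ?_ ?_ ?_ ?_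
  · intro n hn
    rw [Finset.mem_Ico] at hn
    rw [Finset.mem_range]; omega
  · intro i hi
    rw [Finset.mem_range] at hi
    rw [Finset.mem_Ico]; omega
  · intro n hn
    rw [Finset.mem_Ico] at hn
    show x + (((n - x).toNat : ℕ) : ℤ) = n
    omega
  · intro i _
    show (x + (i : ℤ) - x).toNat = i
    omega
  · intro n hn
    rw [Finset.mem_Ico] at hn
    congr 1
    omega

/-- sums over two intervals containing the support agree -/
lemma Sx_agree (φ : ℤ → ℤ) (c : ℤ → ℂ) (x y : ℤ) (L U : ℕ) (h1 : y ≤ x) (h2 : x + L ≤ y + U)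
    (hc : ∀ n, c n ≠ 0 → x ≤ n ∧ n < x + L) (ω : ℝ × ℝ) : Sx φ c y U ω = Sx φ c x L ω := by
  rw [Sx_eq, Sx_eq]
  symm
  refine Finset.sum_subset ?_ ?_
  · intro n hn
    rw [Finset.mem_Ico] at hn ⊢
    omega
  · intro n _ hn
    unfold ex
    by_cases h : c n = 0
    · rw [h, zero_mul]
    · exfalso; apply hn
      rw [Finset.mem_Ico]
      exact hc n h

lemma num_three (A r F T G J L M N C1 C2 X B1 B2 I : ℝ) (hA : 0 ≤ A) (hr0 : 0 ≤ r) (hr : r ≤ F) (hT : 0 ≤ T)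
    (hL : 0 < L) (hM : 0 < M) (hMN : M ≤ N) (hC1 : 0 ≤ C1) (hC2 : 0 ≤ C2) (hX : 0 ≤ X) (hJ0 : 0 ≤ J)
    (hB10 : 0 ≤ B1) (hB20 : 0 ≤ B2) (hsum : L * I ≤ A * r * (T ^ 2 * G)) (hG : G ≤ J * (2 * (B1 * B2)))
    (hJ : J ≤ C1 * (L ^ 3 * X)) (hB1 : B1 ≤ 15 * N / M) (hB2 : B2 ≤ 159 * N * (C2 * X))
    (hUL : T ^ 2 * L ^ 2 ≤ 16 * M ^ 2) :
    I ≤ A * F * 16 * C1 * 2 * 15 * 159 * C2 * N ^ 3 * (X * X) := by
  have hN : 0 < N := by linarith
  have h1 : B1 * B2 ≤ (15 * N / M) * (159 * N * (C2 * X)) := mul_le_mul hB1 hB2 hB20 (by positivity)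
  have h2 : J * (2 * (B1 * B2)) ≤ (C1 * (L ^ 3 * X)) * (2 * ((15 * N / M) * (159 * N * (C2 * X)))) :=
    mul_le_mul hJ (by linarith) (by positivity) (by positivity)
  have h3 : T ^ 2 * G ≤ T ^ 2 * ((C1 * (L ^ 3 * X)) * (2 * ((15 * N / M) * (159 * N * (C2 * X))))) :=
    mul_le_mul_of_nonneg_left (hG.trans h2) (by positivity)
  have h4 : T ^ 2 * ((C1 * (L ^ 3 * X)) * (2 * ((15 * N / M) * (159 * N * (C2 * X))))) =
      L * ((T ^ 2 * L ^ 2) * (C1 * X * (2 * ((15 * N / M) * (159 * N * (C2 * X)))))) := by ring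
  have h5 : (T ^ 2 * L ^ 2) * (C1 * X * (2 * ((15 * N / M) * (159 * N * (C2 * X))))) ≤
      (16 * M ^ 2) * (C1 * X * (2 * ((15 * N / M) * (159 * N * (C2 * X))))) :=
    mul_le_mul_of_nonneg_right hUL (by positivity)
  have h6 : (16 * M ^ 2) * (C1 * X * (2 * ((15 * N / M) * (159 * N * (C2 * X))))) =
      M * (16 * (C1 * X * (2 * (15 * N * (159 * N * (C2 * X)))))) := by field_simp
  have h7 : M * (16 * (C1 * X * (2 * (15 * N * (159 * N * (C2 * X)))))) ≤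
      N * (16 * (C1 * X * (2 * (15 * N * (159 * N * (C2 * X)))))) := mul_le_mul_of_nonneg_right hMN (by positivity)
  have h8 : T ^ 2 * G ≤ L * (N * (16 * (C1 * X * (2 * (15 * N * (159 * N * (C2 * X))))))) := by
    refine h3.trans ?_
    rw [h4]
    apply mul_le_mul_of_nonneg_left _ hL.le
    exact h5.trans (h6.le.trans h7)
  have h9 : A * r * (T ^ 2 * G) ≤ A * F * (L * (N * (16 * (C1 * X * (2 * (15 * N * (159 * N * (C2 * X)))))))) := by
    have g1 : A * r * (T ^ 2 * G) ≤ A * r * (L * (N * (16 * (C1 * X * (2 * (15 * N * (159 * N * (C2 * X)))))))) :=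
      mul_le_mul_of_nonneg_left h8 (by positivity)
    have g2 : A * r ≤ A * F := mul_le_mul_of_nonneg_left hr hA
    exact g1.trans (mul_le_mul_of_nonneg_right g2 (by positivity))
  have h10 : L * I ≤ L * (A * F * 16 * C1 * 2 * 15 * 159 * C2 * N ^ 3 * (X * X)) := by
    refine hsum.trans (h9.trans (le_of_eq ?_))
    ring
  exact le_of_mul_le_mul_left h10 hL

theorem mom_three (δ : ℝ) (hδ : 0 < δ) : ∃ C : ℝ, 0 < C ∧
    ∀ (q M N W : ℕ) (a : ℤ) (Q : ℤ) (α : ℝ), 1 ≤ W → 2 * W ≤ q ^ 2 → W ≤ 6 * M ^ 3 → 1 ≤ q → q ≤ N → 1 ≤ M → M ≤ N →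
      IsCoprime a (q : ℤ) → Q ≤ 2 * M →
      ∫ ω, ‖Sx (fun n => n ^ 3) (cf M Q ((a : ℝ) / q) α) M M ω‖ ^ 6 ∂(mu W) ≤ C * (N : ℝ) ^ (3 + 3 * δ) := by
  obtain ⟨A, hA1, hA⟩ := dec_exp 5 ((2 : ℝ) ^ (δ / 2)) (Real.one_lt_rpow (by norm_num) (by positivity))
  obtain ⟨C1, hC1, hC1'⟩ := vin δ hδ
  obtain ⟨C2, hC2, hC2'⟩ := log_le δ hδ
  refine ⟨A * 4 ^ δ * 16 * C1 * 2 * 15 * 159 * C2, by positivity, ?_⟩
  intro q M N W a Q α hW hWq hWM hq hqN hM hMN hcop hQ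
  have hM' : (1 : ℝ) ≤ M := by exact_mod_cast hM
  have hMN' : (M : ℝ) ≤ N := by exact_mod_cast hMN
  have hN' : (1 : ℝ) ≤ N := hM'.trans hMN'
  have hq' : (1 : ℝ) ≤ q := by exact_mod_cast hq
  have hqN' : (q : ℝ) ≤ N := by exact_mod_cast hqN
  set θ : ℝ := (a : ℝ) / q with hθ
  set c : ℤ → ℂ := cf M Q θ α with hc
  have hsupp : ∀ n, c n ≠ 0 → (M : ℤ) ≤ n ∧ n < (M : ℤ) + M := by
    intro n hn
    by_contra h
    apply hn
    rw [hc]
    apply cf_out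
    omega
  have hex : ∃ L : ℕ, W ≤ 6 * M * L ^ 2 := ⟨M, by calc W ≤ 6 * M ^ 3 := hWM
                                                    _ = 6 * M * M ^ 2 := by ring⟩
  classical
  set L := Nat.find hex with hL
  have hLW : W ≤ 6 * M * L ^ 2 := Nat.find_spec hex
  have hL1 : 1 ≤ L := by
    by_contra h
    have h0 : L = 0 := by omega
    rw [h0] at hLW
    simp at hLW
    omega
  have hLM : L ≤ M := Nat.find_min' hex (by calc W ≤ 6 * M ^ 3 := hWM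
                                              _ = 6 * M * M ^ 2 := by ring)
  have hL' : (1 : ℝ) ≤ L := by exact_mod_cast hL1
  obtain ⟨t, ht1, ht2⟩ := exists_t L (M + L) hL1 (by omega)
  set U := 2 ^ t * L with hU
  have hU4 : U ≤ 4 * M := by omega
  have hU4' : (U : ℝ) ≤ 4 * M := by exact_mod_cast hU4
  set y : ℤ := (M : ℤ) - L + 1 with hy
  set I := ∫ ω, ‖Sx (fun n => n ^ 3) c M M ω‖ ^ 6 ∂(mu W) with hI
  have hI0 : 0 ≤ I := integral_nonneg fun ω => by positivity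
  -- decoupling for each shift
  have hs : ∀ s ∈ range L, I ≤ A * ((2 : ℝ) ^ (δ / 2)) ^ (2 * t) * (((2 ^ t : ℕ) : ℝ) ^ 2 *
      ∑ b ∈ range (2 ^ t), ∫ ω, ‖Sx (fun n => n ^ 3) c (y + ((b * L + s : ℕ) : ℤ)) L ω‖ ^ 6 ∂(mu W)) := by
    intro s hs
    rw [Finset.mem_range] at hs
    set sb : ℕ → ℝ := fun b => (∫ ω, ‖gB (fun n => n ^ 3) c (y + s) L b ω‖ ^ 6 ∂(mu W)) ^ ((1 : ℝ) / 3) with hsb
    have hsb0 : ∀ b, 0 ≤ sb b := fun b => Real.rpow_nonneg (integral_nonneg fun ω => by positivity) _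
    have hsb3 : ∀ b, sb b ^ 3 = ∫ ω, ‖gB (fun n => n ^ 3) c (y + s) L b ω‖ ^ 6 ∂(mu W) := by
      intro b
      rw [hsb]
      simp only
      rw [← Real.rpow_natCast, ← Real.rpow_mul (integral_nonneg fun ω => by positivity)]
      norm_num
    have hTr := tr_dyadic 3 M (by norm_num)
    have h1 := hA (fun n => n ^ 3) M (2 * M) _ _ W L c (y + s) hTr (by norm_num; positivity) (by norm_num)
      (by norm_num; apply le_of_eq; ring) (by
        have : (W : ℝ) ≤ ((6 * M * L ^ 2 : ℕ) : ℝ) := by exact_mod_cast hLW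
        push_cast at this
        norm_num
        linarith) (fun n hn => ⟨(hsupp n hn).1, by have := (hsupp n hn).2; omega⟩) sb hsb0 (fun b => (hsb3 b).ge) t
    have h2 : ∀ ω, Sx (fun n => n ^ 3) c (y + s) (2 ^ t * L) ω = Sx (fun n => n ^ 3) c M M ω := fun ω =>
      Sx_agree _ c M (y + s) M _ (by omega) (by rw [← hU]; omega) hsupp ω
    simp only [h2] at h1
    refine h1.trans ?_
    apply mul_le_mul_of_nonneg_left _ (by positivity)
    have h3 := pow_sum_le (2 ^ t) 2 sb hsb0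
    refine h3.trans (le_of_eq ?_)
    congr 1
    refine Finset.sum_congr rfl fun b _ => ?_
    rw [show 2 + 1 = 3 from rfl, hsb3]
    unfold gB
    congr 1
    funext ω
    congr 3
    push_cast; ring
  -- sum over the shifts
  have hsum : (L : ℝ) * I ≤ A * ((2 : ℝ) ^ (δ / 2)) ^ (2 * t) * (((2 ^ t : ℕ) : ℝ) ^ 2 *
      ∑ u ∈ range U, ∫ ω, ‖Sx (fun n => n ^ 3) c (y + u) L ω‖ ^ 6 ∂(mu W)) := by
    have h1 := Finset.sum_le_sum hs
    rw [Finset.sum_const, Finset.card_range, nsmul_eq_mul] at h1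
    refine h1.trans (le_of_eq ?_)
    rw [← Finset.mul_sum, ← Finset.mul_sum, hU, sum_range_split (fun u => ∫ ω, ‖Sx (fun n => n ^ 3) c (y + u) L ω‖ ^ 6 ∂(mu W)),
      Finset.sum_comm]
  have har := (arith M Q y θ α U L W hW).trans (arith2 U L q a hq hcop)
  rw [← hc] at har
  have hJ := hC1' L hL1
  set J := ∫ ω, ‖Sx (fun n => n ^ 2) (fun _ => 1) 0 L ω‖ ^ 6 ∂(mu 1) with hJdef
  have hJ0 : 0 ≤ J := integral_nonneg fun ω => by positivity
  -- the numbers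
  have hlog0 : 0 ≤ Real.log q := Real.log_nonneg hq'
  have hlogN : 1 + Real.log q ≤ C2 * (N : ℝ) ^ δ := by
    refine le_trans ?_ (hC2' N (by omega))
    have := Real.log_le_log (by linarith) hqN'
    linarith
  have hNδ : 1 ≤ C2 * (N : ℝ) ^ δ := by linarith
  have hB1 : (((3 * (3 * L ^ 2) + 1 : ℕ) : ℝ) / q + 1) ≤ 15 * N / M := by
    have hM0 : (0 : ℝ) < M := by linarith
    have hq0 : (0 : ℝ) < q := by linarith
    rcases Nat.lt_or_ge L 2 with h2 | h2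
    · have hL1' : L = 1 := by omega
      rw [hL1']
      rw [le_div_iff₀ hM0]
      have : (((3 * (3 * 1 ^ 2) + 1 : ℕ) : ℝ) / q) ≤ 10 := by
        rw [div_le_iff₀ hq0]; norm_num; linarith
      nlinarith
    · have h3 := Nat.find_min hex (show L - 1 < Nat.find hex by omega)
      push Not at h3
      have h4 : ((6 * M * (L - 1) ^ 2 : ℕ) : ℝ) < W := by exact_mod_cast h3
      have h5 : ((L - 1 : ℕ) : ℝ) = (L : ℝ) - 1 := by push_cast [hL1]; ring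
      push_cast at h4
      rw [h5] at h4
      have h6 : (2 : ℝ) ≤ L := by exact_mod_cast h2
      have h7 : (L : ℝ) ^ 2 ≤ 4 * ((L : ℝ) - 1) ^ 2 := by nlinarith
      have h8 : 2 * (W : ℝ) ≤ (q : ℝ) ^ 2 := by exact_mod_cast hWq
      have h9 : 3 * (M : ℝ) * (L : ℝ) ^ 2 ≤ (q : ℝ) ^ 2 := by nlinarith
      rw [le_div_iff₀ hM0, add_mul, div_mul_eq_mul_div]
      have h10 : ((3 * (3 * L ^ 2) + 1 : ℕ) : ℝ) * M / q ≤ 10 / 3 * q := by
        rw [div_le_iff₀ hq0]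
        push_cast
        nlinarith
      nlinarith
  have hB2 : 39 * (U : ℝ) + 3 * q * (1 + Real.log q) ≤ 159 * N * (C2 * (N : ℝ) ^ δ) := by
    have h1 : 3 * (q : ℝ) * (1 + Real.log q) ≤ 3 * N * (C2 * (N : ℝ) ^ δ) := by gcongr
    have h2 : 39 * (U : ℝ) ≤ 156 * N * (C2 * (N : ℝ) ^ δ) := by
      have : 39 * (U : ℝ) ≤ 156 * N := by linarith
      nlinarith
    linarith
  have hρ : ((2 : ℝ) ^ (δ / 2)) ^ (2 * t) ≤ (4 * (N : ℝ)) ^ δ := by
    apply rho_pow δ hδ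
    have h6 : 2 ^ t ≤ 4 * N := by
      calc 2 ^ t ≤ 2 ^ t * L := Nat.le_mul_of_pos_right _ (by omega)
        _ ≤ 4 * N := by omega
    exact_mod_cast h6
  have hUL : ((2 ^ t : ℕ) : ℝ) ^ 2 * (L : ℝ) ^ 2 ≤ 16 * (M : ℝ) ^ 2 := by
    have : ((2 ^ t : ℕ) : ℝ) * L = U := by rw [hU]; push_cast; ring
    calc _ = (((2 ^ t : ℕ) : ℝ) * L) ^ 2 := by ring
      _ = (U : ℝ) ^ 2 := by rw [this]
      _ ≤ (4 * M) ^ 2 := pow_le_pow_left₀ (by positivity) hU4' 2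
      _ = _ := by ring
  have hLδ : (L : ℝ) ^ (3 + δ) ≤ (L : ℝ) ^ 3 * (N : ℝ) ^ δ := by
    rw [Real.rpow_add (by linarith)]
    have e4 : (L : ℝ) ^ (3 : ℝ) = (L : ℝ) ^ 3 := by exact_mod_cast Real.rpow_natCast (L : ℝ) 3
    rw [e4]
    have hLN : (L : ℝ) ≤ N := by exact_mod_cast hLM.trans hMN
    have := Real.rpow_le_rpow (by linarith) hLN hδ.le
    gcongr
  have hB10 : 0 ≤ (((3 * (3 * L ^ 2) + 1 : ℕ) : ℝ) / q + 1) := by positivity
  have hB20 : 0 ≤ 39 * (U : ℝ) + 3 * q * (1 + Real.log q) := by positivity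
  have hfin := num_three A (((2 : ℝ) ^ (δ / 2)) ^ (2 * t)) ((4 * (N : ℝ)) ^ δ) (((2 ^ t : ℕ) : ℝ)) _ J L M N C1 C2
    ((N : ℝ) ^ δ) _ _ I (by linarith) (by positivity) hρ (by positivity) (by linarith) (by linarith) hMN' hC1.le hC2.le
    (by positivity) hJ0 hB10 hB20 hsum har (hJ.trans (mul_le_mul_of_nonneg_left hLδ hC1.le)) hB1 hB2 hUL
  refine hfin.trans (le_of_eq ?_)
  have e5 : (N : ℝ) ^ (3 + 3 * δ) = (N : ℝ) ^ 3 * ((N : ℝ) ^ δ * (N : ℝ) ^ δ * (N : ℝ) ^ δ) := by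
    have e6 : (3 : ℝ) + 3 * δ = 3 + (δ + δ + δ) := by ring
    rw [e6, Real.rpow_add (by linarith), Real.rpow_add (by linarith), Real.rpow_add (by linarith)]
    congr 1
    exact_mod_cast Real.rpow_natCast (N : ℝ) 3
  rw [e5, Real.mul_rpow (by norm_num) (by positivity)]
  ring

end Pool.Agent.W2helper10.MW
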