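import Pool.Agent.W2helper10.MW.Mom4

/-!
From moments to the supremum over the linear coefficient, and the Fejer kernel near the origin.
-/

set_option autoImplicit false

namespace Pool.Agent.W2helper10.MW

open MeasureTheory Finset
open Pool.Agent.W928.MW (e e_add e_norm e_cont)

/-- the supremum over the linear coefficient, by the sixth moment in it -/
lemma sup_xi (φ : ℤ → ℤ) (c : ℤ → ℂ) (x : ℤ) (L : ℕ) (β ξ0 : ℝ) :
    ‖Sx φ c x L (β, ξ0)‖ ^ 6 ≤ (3 * L : ℕ) * ∫ ξ in Set.Ioc (0 : ℝ) (0 + 1), ‖Sx φ c x L (β, ξ)‖ ^ 6 := by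
  classical
  set A : ℕ → ℂ := fun i => c (x + i) * e ((φ (x + i) : ℝ) * β) with hA
  set b : ℕ → ℂ := fun m => ∑ v ∈ (V3 L).filter (fun v => v.1 + v.2.1 + v.2.2 = m), A v.1 * A v.2.1 * A v.2.2 with hb
  have hexp : ∀ ξ : ℝ, ‖Sx φ c x L (β, ξ)‖ ^ 6 = ‖∑ m ∈ range (3 * L), e (ξ * (((m : ℕ) : ℤ) : ℝ)) * b m‖ ^ 2 := by
    intro ξ
    have h1 : Sx φ c x L (β, ξ) = e ((x : ℝ) * ξ) * ∑ i ∈ range L, A i * e ((i : ℝ) * ξ) := by
      unfold Sx ex
      rw [Finset.mul_sum]
      refine Finset.sum_congr rfl fun i _ => ?_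
      rw [hA]
      simp only [e_add]
      have : ((x + (i : ℤ) : ℤ) : ℝ) * ξ = (x : ℝ) * ξ + (i : ℝ) * ξ := by push_cast; ring
      rw [this, e_add]
      ring
    have h2 : (∑ i ∈ range L, A i * e ((i : ℝ) * ξ)) ^ 3 =
        ∑ m ∈ range (3 * L), e (ξ * (((m : ℕ) : ℤ) : ℝ)) * b m := by
      have h3 : (∑ i ∈ range L, A i * e ((i : ℝ) * ξ)) ^ 3 = ∑ v ∈ V3 L,
          (A v.1 * e ((v.1 : ℝ) * ξ)) * (A v.2.1 * e ((v.2.1 : ℝ) * ξ)) * (A v.2.2 * e ((v.2.2 : ℝ) * ξ)) := by
        unfold V3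
        rw [Finset.sum_product]
        simp only [Finset.sum_product]
        rw [pow_succ, pow_two, Finset.sum_mul_sum, Finset.sum_mul]
        refine Finset.sum_congr rfl fun a _ => ?_
        rw [Finset.sum_mul]
        refine Finset.sum_congr rfl fun b _ => ?_
        rw [Finset.mul_sum]
      have hmaps : ∀ v ∈ V3 L, v.1 + v.2.1 + v.2.2 ∈ range (3 * L) := by
        intro v hv
        unfold V3 at hv
        simp only [Finset.mem_product, Finset.mem_range] at hv ⊢
        omega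
      rw [h3, ← Finset.sum_fiberwise_of_maps_to hmaps]
      refine Finset.sum_congr rfl fun m _ => ?_
      rw [hb, Finset.mul_sum]
      refine Finset.sum_congr rfl fun v hv => ?_
      rw [Finset.mem_filter] at hv
      have h4 : e (ξ * (((m : ℕ) : ℤ) : ℝ)) = e ((v.1 : ℝ) * ξ) * e ((v.2.1 : ℝ) * ξ) * e ((v.2.2 : ℝ) * ξ) := by
        rw [← e_add, ← e_add, ← hv.2]
        congr 1
        push_cast; ring
      rw [h4]; ring
    rw [h1, norm_mul, e_norm, one_mul, ← h2, norm_pow]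
    ring
  have hpar := Pool.Agent.TH181.MX.parseval (range (3 * L)) (fun m : ℕ => (m : ℤ))
    (fun a _ b _ hab => by simpa using hab) b 0 1
  rw [intervalIntegral.integral_of_le (by norm_num)] at hpar
  simp only [Int.cast_one, Int.cast_zero, sub_zero, one_mul] at hpar
  simp only [hexp, zero_add]
  rw [hpar]
  calc ‖∑ m ∈ range (3 * L), e (ξ0 * (((m : ℕ) : ℤ) : ℝ)) * b m‖ ^ 2
      ≤ (∑ m ∈ range (3 * L), ‖b m‖) ^ 2 := by
        apply pow_le_pow_left₀ (norm_nonneg _)
        refine (norm_sum_le _ _).trans (le_of_eq ?_)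
        refine Finset.sum_congr rfl fun m _ => ?_
        rw [norm_mul, e_norm, one_mul]
    _ ≤ ((3 * L : ℕ) : ℝ) * ∑ m ∈ range (3 * L), ‖b m‖ ^ 2 := by
        have := sq_sum_le_card_mul_sum_sq (s := range (3 * L)) (f := fun m => ‖b m‖)
        rwa [Finset.card_range] at this

/-- the Fejer kernel near the origin -/
lemma Fj_ge (W : ℕ) (β : ℝ) (hW : 1 ≤ W) (h : W = 1 ∨ |β| ≤ 1 / (6 * W)) : (W : ℝ) / 4 ≤ Fj W β := by
  have hW0 : (0 : ℝ) < W := by exact_mod_cast hW
  have key : (W : ℝ) / 2 ≤ ‖∑ l ∈ range W, e ((l : ℝ) * β)‖ := by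
    rcases h with h | h
    · subst h
      simp [e_zero]
      norm_num
    · have h1 : (W : ℝ) / 2 ≤ (∑ l ∈ range W, e ((l : ℝ) * β)).re := by
        rw [Complex.re_sum]
        have h2 : ∀ l ∈ range W, (1 : ℝ) / 2 ≤ (e ((l : ℝ) * β)).re := by
          intro l hl
          rw [Finset.mem_range] at hl
          have h3 : (e ((l : ℝ) * β)).re = Real.cos (2 * Real.pi * ((l : ℝ) * β)) := by
            unfold Pool.Agent.W928.MW.e
            have : 2 * (Real.pi : ℂ) * Complex.I * (((l : ℝ) * β : ℝ) : ℂ) =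
                ((2 * Real.pi * ((l : ℝ) * β) : ℝ) : ℂ) * Complex.I := by push_cast; ring
            rw [this, Complex.exp_ofReal_mul_I_re]
          rw [h3]
          have h4 : |2 * Real.pi * ((l : ℝ) * β)| ≤ Real.pi / 3 := by
            rw [abs_mul (2 * Real.pi), abs_mul (l : ℝ), abs_of_nonneg (by positivity : (0 : ℝ) ≤ 2 * Real.pi),
              abs_of_nonneg (by positivity : (0 : ℝ) ≤ (l : ℝ))]
            have h5 : (l : ℝ) ≤ W := by exact_mod_cast hl.le
            have h6 : (l : ℝ) * |β| ≤ W * (1 / (6 * W)) := mul_le_mul h5 h (abs_nonneg _) (by positivity)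
            have h7 : (W : ℝ) * (1 / (6 * W)) = 1 / 6 := by field_simp
            rw [h7] at h6
            have hpi := Real.pi_pos
            calc 2 * Real.pi * ((l : ℝ) * |β|) ≤ 2 * Real.pi * (1 / 6) := by gcongr
              _ = Real.pi / 3 := by ring
          rw [← Real.cos_abs, ← Real.cos_pi_div_three]
          apply Real.cos_le_cos_of_nonneg_of_le_pi (abs_nonneg _) _ h4
          have := Real.pi_pos
          linarith
        have h5 := Finset.sum_le_sum h2
        rw [Finset.sum_const, Finset.card_range, nsmul_eq_mul] at h5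
        linarith
      exact h1.trans (Complex.re_le_norm _)
  unfold Fj
  rw [le_div_iff₀ hW0]
  have := pow_le_pow_left₀ (by positivity) key 2
  nlinarith

/-- Markov's inequality on the arc -/
lemma markov (φ : ℤ → ℤ) (c : ℤ → ℂ) (x : ℤ) (L W : ℕ) (hW : 1 ≤ W) (r B lam : ℝ) (hr : r < 1 / 2)
    (hr2 : W = 1 ∨ r ≤ 1 / (6 * W)) (hlam : 0 < lam)
    (hB : ∫ ω, ‖Sx φ c x L ω‖ ^ 6 ∂(mu W) ≤ B) :
    volume {β : ℝ | |β| ≤ r ∧ lam ≤ ∫ ξ in Set.Ioc (0 : ℝ) (0 + 1), ‖Sx φ c x L (β, ξ)‖ ^ 6} ≤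
      ENNReal.ofReal (4 * B / (W * lam)) := by
  have hW0 : (0 : ℝ) < W := by exact_mod_cast hW
  set H : ℝ → ℝ := fun β => ∫ ξ in Set.Ioc (0 : ℝ) (0 + 1), ‖Sx φ c x L (β, ξ)‖ ^ 6 with hH
  have hNc := (nc_Sx φ c x L).norm.pow 6
  have hint : Integrable (fun ω : ℝ × ℝ => ‖Sx φ c x L ω‖ ^ 6) (mu W) := hNc.integrable _
  have hfub : ∫ ω, ‖Sx φ c x L ω‖ ^ 6 ∂(mu W) = ∫ β, H β ∂(nu W) := by
    unfold mu at hint ⊢
    rw [integral_prod _ hint]
  have hHint : Integrable H (nu W) := by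
    unfold mu at hint
    exact hint.integral_prod_left
  have hH0 : ∀ β, 0 ≤ H β := fun β => integral_nonneg fun ξ => by positivity
  have hmk := mul_meas_ge_le_integral_of_nonneg (μ := nu W) (f := H) (Filter.Eventually.of_forall hH0) hHint lam
  rw [← hfub] at hmk
  have hcont : Continuous H := by
    have hc1 : Continuous fun p : ℝ × ℝ => ‖Sx φ c x L p‖ ^ 6 := by
      unfold Sx ex
      exact (continuous_finsetSum _ fun i _ => continuous_const.mul (e_cont.comp (by fun_prop))).norm.pow 6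
    have h2 : ∀ β, H β = ∫ ξ in (0 : ℝ)..(0 + 1), ‖Sx φ c x L (β, ξ)‖ ^ 6 := by
      intro β
      rw [intervalIntegral.integral_of_le (by norm_num)]
    rw [funext h2]
    exact intervalIntegral.continuous_parametric_intervalIntegral_of_continuous' hc1 0 (0 + 1)
  set E : Set ℝ := {β : ℝ | |β| ≤ r ∧ lam ≤ H β} with hE
  have hEm : MeasurableSet E := by
    have h1 : MeasurableSet {β : ℝ | |β| ≤ r} := (isClosed_le continuous_abs continuous_const).measurableSet
    have h2 : MeasurableSet {β : ℝ | lam ≤ H β} := (isClosed_le continuous_const hcont).measurableSet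
    exact h1.inter h2
  have hEsub : E ⊆ Set.Ioc (-(1 / 2) : ℝ) (-(1 / 2) + 1) := by
    rintro β ⟨h1, _⟩
    rw [abs_le] at h1
    constructor <;> linarith [h1.1, h1.2]
  have hlow : ENNReal.ofReal ((W : ℝ) / 4) * volume E ≤ nu W E := by
    unfold nu
    rw [withDensity_apply _ hEm, Measure.restrict_restrict hEm, Set.inter_eq_left.2 hEsub]
    calc ENNReal.ofReal ((W : ℝ) / 4) * volume E = ∫⁻ _β in E, ENNReal.ofReal ((W : ℝ) / 4) := by
          rw [setLIntegral_const]
      _ ≤ ∫⁻ β in E, ENNReal.ofReal (Fj W β) := by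
          refine setLIntegral_mono' hEm fun β hβ => ENNReal.ofReal_le_ofReal ?_
          apply Fj_ge W β hW
          rcases hr2 with h | h
          · left; exact h
          · right; exact hβ.1.trans h
  have hup : nu W E ≤ ENNReal.ofReal (B / lam) := by
    have h1 : nu W E ≤ nu W {β | lam ≤ H β} := measure_mono fun β hβ => hβ.2
    refine h1.trans ?_
    have h2 : (nu W).real {β | lam ≤ H β} ≤ B / lam := by
      rw [le_div_iff₀ hlam]
      linarith [mul_comm lam ((nu W).real {β | lam ≤ H β})]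
    rw [← ENNReal.ofReal_toReal (measure_ne_top (nu W) {β | lam ≤ H β})]
    exact ENNReal.ofReal_le_ofReal h2
  have h3 := hlow.trans hup
  have hB0 : 0 ≤ B := (integral_nonneg fun ω => by positivity).trans hB
  have h4 : volume E ≤ ENNReal.ofReal (B / lam) / ENNReal.ofReal ((W : ℝ) / 4) := by
    rw [ENNReal.le_div_iff_mul_le (Or.inl (by simp; linarith)) (Or.inl ENNReal.ofReal_ne_top), mul_comm]
    exact h3
  refine h4.trans (le_of_eq ?_)
  rw [← ENNReal.ofReal_div_of_pos (by positivity)]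
  congr 1
  field_simp

end Pool.Agent.W2helper10.MW
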